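import Mathlib

/-! Definitions for the complex Lieb-Thirring inequality in dimension one. -/

namespace Pool.Agent.Helper98.ComplexLT

open MeasureTheory SchwartzMap
open scoped ComplexConjugate SchwartzMap ENNReal

/-- The Hilbert space of square integrable complex functions on the line. -/
abbrev L2 : Type := Lp ℂ 2 (volume : Measure ℝ)

/-- `v` is the weak (distributional) derivative of `u`, both in `L2`. Thus `u` lies in the Sobolev
space `H^1` exactly when such a `v` exists. -/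
def IsWeakDeriv (u v : L2) : Prop :=
  ∀ φ : 𝓢(ℝ, ℂ), ∫ x, u x * deriv φ x = - ∫ x, v x * φ x

/-- The graph of the Schrodinger operator `-ħ^2 d^2/dx^2 + V` in `L2`, defined as the operator
of the form `ħ^2 ∫ u' conj φ' + ∫ V u conj φ` with form domain `H^1`. -/
def HGraph (ħ : ℝ) (V : ℝ → ℂ) (u g : L2) : Prop :=
  ∃ u' : L2, IsWeakDeriv u u' ∧
    ∀ φ φ' : L2, IsWeakDeriv φ φ' →
      Integrable (fun x => V x * u x * conj (φ x)) volume ∧
      (ħ : ℂ) ^ 2 * (∫ x, u' x * conj (φ' x)) + ∫ x, V x * u x * conj (φ x)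
        = ∫ x, g x * conj (φ x)

lemma int_mul_schwartz (f : L2) (ψ : 𝓢(ℝ, ℂ)) : Integrable (fun ξ => f ξ * ψ ξ) volume :=
  MemLp.integrable_mul (Lp.memLp f) (ψ.memLp 2 volume)

lemma int_mul_deriv (f : L2) (ψ : 𝓢(ℝ, ℂ)) : Integrable (fun ξ => f ξ * deriv ψ ξ) volume := by
  have h := int_mul_schwartz f (SchwartzMap.derivCLM ℂ ℂ ψ)
  simpa using h

lemma int_mul_conj (f g : L2) : Integrable (fun ξ => f ξ * conj (g ξ)) volume := by
  have h2 : MemLp (fun ξ => conj (g ξ)) 2 volume := by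
    refine (Lp.memLp g).of_le ?_ ?_
    · exact Complex.continuous_conj.comp_aestronglyMeasurable (Lp.memLp g).1
    · filter_upwards with ξ; simp
  exact MemLp.integrable_mul (Lp.memLp f) h2

lemma IsWeakDeriv.add {u v u' v' : L2} (h : IsWeakDeriv u u') (h' : IsWeakDeriv v v') :
    IsWeakDeriv (u + v) (u' + v') := by
  intro φ
  have e1 : ∫ x, (u + v : L2) x * deriv φ x = ∫ x, (u x * deriv φ x + v x * deriv φ x) := by
    apply integral_congr_ae
    filter_upwards [Lp.coeFn_add u v] with x hx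
    rw [hx, Pi.add_apply]; ring
  have e2 : ∫ x, (u' + v' : L2) x * φ x = ∫ x, (u' x * φ x + v' x * φ x) := by
    apply integral_congr_ae
    filter_upwards [Lp.coeFn_add u' v'] with x hx
    rw [hx, Pi.add_apply]; ring
  rw [e1, e2, integral_add (int_mul_deriv u φ) (int_mul_deriv v φ),
    integral_add (int_mul_schwartz u' φ) (int_mul_schwartz v' φ), h φ, h' φ]
  ring

lemma IsWeakDeriv.smul {u u' : L2} (c : ℂ) (h : IsWeakDeriv u u') :
    IsWeakDeriv (c • u) (c • u') := by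
  intro φ
  have e1 : ∫ x, (c • u : L2) x * deriv φ x = ∫ x, c * (u x * deriv φ x) := by
    apply integral_congr_ae
    filter_upwards [Lp.coeFn_smul c u] with x hx
    rw [hx, Pi.smul_apply, smul_eq_mul]; ring
  have e2 : ∫ x, (c • u' : L2) x * φ x = ∫ x, c * (u' x * φ x) := by
    apply integral_congr_ae
    filter_upwards [Lp.coeFn_smul c u'] with x hx
    rw [hx, Pi.smul_apply, smul_eq_mul]; ring
  rw [e1, e2, integral_const_mul, integral_const_mul, h φ]
  ring

lemma HGraph.add {ħ : ℝ} {V : ℝ → ℂ} {u v g k : L2} (h : HGraph ħ V u g) (h' : HGraph ħ V v k) :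
    HGraph ħ V (u + v) (g + k) := by
  obtain ⟨u', hu, hfu⟩ := h
  obtain ⟨v', hv, hfv⟩ := h'
  refine ⟨u' + v', hu.add hv, ?_⟩
  intro φ φ' hφ
  obtain ⟨i1, e1⟩ := hfu φ φ' hφ
  obtain ⟨i2, e2⟩ := hfv φ φ' hφ
  have hVae : (fun x => V x * (u + v : L2) x * conj (φ x)) =ᵐ[volume]
      fun x => V x * u x * conj (φ x) + V x * v x * conj (φ x) := by
    filter_upwards [Lp.coeFn_add u v] with x hx
    rw [hx, Pi.add_apply]; ring
  refine ⟨(i1.add i2).congr hVae.symm, ?_⟩
  have a1 : ∫ x, (u' + v' : L2) x * conj (φ' x)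
      = (∫ x, u' x * conj (φ' x)) + ∫ x, v' x * conj (φ' x) := by
    rw [← integral_add (int_mul_conj _ _) (int_mul_conj _ _)]
    apply integral_congr_ae
    filter_upwards [Lp.coeFn_add u' v'] with x hx
    rw [hx, Pi.add_apply]; ring
  have a2 : ∫ x, (g + k : L2) x * conj (φ x)
      = (∫ x, g x * conj (φ x)) + ∫ x, k x * conj (φ x) := by
    rw [← integral_add (int_mul_conj _ _) (int_mul_conj _ _)]
    apply integral_congr_ae
    filter_upwards [Lp.coeFn_add g k] with x hx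
    rw [hx, Pi.add_apply]; ring
  rw [a1, a2, integral_congr_ae hVae, integral_add i1 i2, ← e1, ← e2]
  ring

lemma HGraph.smul {ħ : ℝ} {V : ℝ → ℂ} {u g : L2} (c : ℂ) (h : HGraph ħ V u g) :
    HGraph ħ V (c • u) (c • g) := by
  obtain ⟨u', hu, hfu⟩ := h
  refine ⟨c • u', hu.smul c, ?_⟩
  intro φ φ' hφ
  obtain ⟨i1, e1⟩ := hfu φ φ' hφ
  have hVae : (fun x => V x * (c • u : L2) x * conj (φ x)) =ᵐ[volume]
      fun x => c * (V x * u x * conj (φ x)) := by
    filter_upwards [Lp.coeFn_smul c u] with x hx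
    rw [hx, Pi.smul_apply, smul_eq_mul]; ring
  refine ⟨(i1.const_mul c).congr hVae.symm, ?_⟩
  have a1 : ∫ x, (c • u' : L2) x * conj (φ' x) = c * (∫ x, u' x * conj (φ' x)) := by
    rw [← integral_const_mul]
    apply integral_congr_ae
    filter_upwards [Lp.coeFn_smul c u'] with x hx
    rw [hx, Pi.smul_apply, smul_eq_mul]; ring
  have a2 : ∫ x, (c • g : L2) x * conj (φ x) = c * (∫ x, g x * conj (φ x)) := by
    rw [← integral_const_mul]
    apply integral_congr_ae
    filter_upwards [Lp.coeFn_smul c g] with x hx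
    rw [hx, Pi.smul_apply, smul_eq_mul]; ring
  rw [a1, a2, integral_congr_ae hVae, integral_const_mul, ← e1]
  ring

lemma HGraph.zero (ħ : ℝ) (V : ℝ → ℂ) : HGraph ħ V 0 0 := by
  have hz : ∀ᵐ x, (0 : L2) x = 0 := by
    filter_upwards [Lp.coeFn_zero ℂ 2 (volume : Measure ℝ)] with x hx
    rw [hx]; rfl
  refine ⟨0, ?_, ?_⟩
  · intro φ
    have e1 : ∫ x, (0 : L2) x * deriv φ x = 0 := by
      rw [← integral_zero ℝ ℂ (μ := volume)]
      apply integral_congr_ae
      filter_upwards [hz] with x hx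
      rw [hx, zero_mul]
    have e2 : ∫ x, (0 : L2) x * φ x = 0 := by
      rw [← integral_zero ℝ ℂ (μ := volume)]
      apply integral_congr_ae
      filter_upwards [hz] with x hx
      rw [hx, zero_mul]
    rw [e1, e2, neg_zero]
  · intro φ φ' _
    have e3 : (fun x => V x * (0 : L2) x * conj (φ x)) =ᵐ[volume] fun _ => (0 : ℂ) := by
      filter_upwards [hz] with x hx
      rw [hx]; ring
    have e4 : ∀ ψ : L2, ∫ x, (0 : L2) x * conj (ψ x) = 0 := by
      intro ψ
      rw [← integral_zero ℝ ℂ (μ := volume)]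
      apply integral_congr_ae
      filter_upwards [hz] with x hx
      rw [hx, zero_mul]
    refine ⟨(integrable_zero ℝ ℂ volume).congr e3.symm, ?_⟩
    rw [e4, e4, integral_congr_ae e3]; simp

lemma genStep_add {ħ : ℝ} {V : ℝ → ℂ} {E : ℂ} {N : Submodule ℂ L2} {u v : L2}
    (hu : ∃ g, HGraph ħ V u g ∧ g - E • u ∈ N) (hv : ∃ g, HGraph ħ V v g ∧ g - E • v ∈ N) :
    ∃ g, HGraph ħ V (u + v) g ∧ g - E • (u + v) ∈ N := by
  obtain ⟨g, hg, hg'⟩ := hu
  obtain ⟨k, hk, hk'⟩ := hv
  refine ⟨g + k, hg.add hk, ?_⟩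
  have : g + k - E • (u + v) = (g - E • u) + (k - E • v) := by
    rw [smul_add]; abel
  rw [this]; exact Submodule.add_mem _ hg' hk'

lemma genStep_zero {ħ : ℝ} {V : ℝ → ℂ} {E : ℂ} {N : Submodule ℂ L2} :
    ∃ g, HGraph ħ V 0 g ∧ g - E • (0 : L2) ∈ N := ⟨0, HGraph.zero ħ V, by simp⟩

lemma genStep_smul {ħ : ℝ} {V : ℝ → ℂ} {E : ℂ} {N : Submodule ℂ L2} (c : ℂ) {u : L2}
    (hu : ∃ g, HGraph ħ V u g ∧ g - E • u ∈ N) :
    ∃ g, HGraph ħ V (c • u) g ∧ g - E • (c • u) ∈ N := by
  obtain ⟨g, hg, hg'⟩ := hu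
  refine ⟨c • g, hg.smul c, ?_⟩
  have : c • g - E • (c • u) = c • (g - E • u) := by
    rw [smul_sub, smul_comm c E u]
  rw [this]; exact Submodule.smul_mem _ c hg'

/-- `genStep ħ V E N` is the preimage of `N` under `H - E`, where `H` is the operator with graph
`HGraph ħ V`: all `u` in the domain of `H` with `H u - E u` in `N`. -/
def genStep (ħ : ℝ) (V : ℝ → ℂ) (E : ℂ) (N : Submodule ℂ L2) : Submodule ℂ L2 where
  carrier := {u | ∃ g, HGraph ħ V u g ∧ g - E • u ∈ N}
  add_mem' := genStep_add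
  zero_mem' := genStep_zero
  smul_mem' := fun c _ => genStep_smul c

/-- `genSpace ħ V E k` is the kernel of `(H - E)^k`, where `H` is the operator with graph
`HGraph ħ V`. -/
noncomputable def genSpace (ħ : ℝ) (V : ℝ → ℂ) (E : ℂ) : ℕ → Submodule ℂ L2
  | 0 => ⊥
  | k + 1 => genStep ħ V E (genSpace ħ V E k)

/-- The algebraic multiplicity of `E` as an eigenvalue of `H`: the dimension of the union of the
kernels of `(H - E)^k` (it is `0` when `E` is not an eigenvalue). -/
noncomputable def algMult (ħ : ℝ) (V : ℝ → ℂ) (E : ℂ) : ℕ∞ :=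
  Cardinal.toENat (Module.rank ℂ (⨆ k, genSpace ħ V E k : Submodule ℂ L2))

/-- The distance of `E` to the half line `[0, ∞)`. -/
noncomputable def distPos (E : ℂ) : ℝ := Metric.infDist E {z : ℂ | 0 ≤ z.re ∧ z.im = 0}

end Pool.Agent.Helper98.ComplexLT
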