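import Pool.Agent.Helper98.ComplexLT.Key

namespace Pool.Agent.Helper98.ComplexLT

open MeasureTheory SchwartzMap FourierTransform LineDeriv
open scoped ComplexConjugate SchwartzMap ENNReal

lemma lintegral_sq_eq_norm (f : L2) : ∫⁻ x, ‖f x‖ₑ ^ 2 = ‖f‖ₑ ^ 2 := by
  have h1 : ‖f‖ₑ = eLpNorm f 2 volume := Lp.enorm_def f
  rw [h1, eLpNorm_eq_lintegral_rpow_enorm_toReal (by norm_num) (by norm_num)]
  simp only [ENNReal.toReal_ofNat, one_div]
  rw [← ENNReal.rpow_natCast, ← ENNReal.rpow_mul]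
  norm_num

lemma lintegral_sq_fourier (f : L2) : ∫⁻ x, ‖f x‖ₑ ^ 2 = ∫⁻ ξ, ‖(𝓕 f : L2) ξ‖ₑ ^ 2 := by
  rw [lintegral_sq_eq_norm, lintegral_sq_eq_norm]
  have : ‖(𝓕 f : L2)‖ = ‖f‖ := Lp.norm_fourier_eq f
  rw [← ofReal_norm, ← ofReal_norm, this]

/-- the low frequency region -/
def lowSet (s e : ℝ) : Set ℝ := {ξ | Psym s ξ ≤ e}

lemma lowSet_meas (s e : ℝ) : MeasurableSet (lowSet s e) :=
  measurableSet_le (Psym_cont s).measurable measurable_const

/-- `∫_{P ≤ e} 1/P`. -/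
noncomputable def Bfun (s e : ℝ) : ℝ := ∫ ξ in lowSet s e, (Psym s ξ)⁻¹

noncomputable def cEps (ε : ℝ) : ℝ := ∫ ξ, (Psym 1 ξ) ^ (-(1 + ε))

lemma Psym_one_rpow_integrable {ε : ℝ} (hε : 0 < ε) :
    Integrable (fun ξ => (Psym 1 ξ) ^ (-(1 + ε))) volume := by
  have h := integrable_rpow_neg_one_add_norm_sq (E := ℝ) (μ := volume) (r := 1 + ε)
    (by simp; linarith)
  have h2 := h.comp_mul_left' (R := 2 * Real.pi) (by positivity)
  refine h2.congr (Filter.Eventually.of_forall fun ξ => ?_)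
  simp only [Psym, Real.norm_eq_abs, sq_abs]
  rw [Real.sqrt_eq_rpow, ← Real.rpow_mul (by positivity)]
  congr 1
  · ring
  · ring

lemma Psym_scale {s : ℝ} (hs : 0 < s) (ξ : ℝ) : Psym s ξ = s * Psym 1 (s⁻¹ * ξ) := by
  unfold Psym
  rw [show (2 * Real.pi * ξ) ^ 2 + s ^ 2 = s ^ 2 * ((2 * Real.pi * (s⁻¹ * ξ)) ^ 2 + 1 ^ 2) by
    field_simp]
  rw [Real.sqrt_mul (by positivity), Real.sqrt_sq hs.le]

lemma Psym_rpow_integrable {s ε : ℝ} (hs : 0 < s) (hε : 0 < ε) :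
    Integrable (fun ξ => (Psym s ξ) ^ (-(1 + ε))) volume := by
  have h2 := (Psym_one_rpow_integrable hε).comp_mul_left' (R := s⁻¹) (by positivity)
  have h3 := h2.const_mul (s ^ (-(1 + ε)))
  refine h3.congr (Filter.Eventually.of_forall fun ξ => ?_)
  simp only
  rw [Psym_scale hs, Real.mul_rpow hs.le (Psym_pos one_pos _).le]

lemma integral_Psym_rpow {s ε : ℝ} (hs : 0 < s) :
    ∫ ξ, (Psym s ξ) ^ (-(1 + ε)) = s ^ (-ε) * cEps ε := by
  have h1 : ∀ ξ, (Psym s ξ) ^ (-(1 + ε)) = s ^ (-(1 + ε)) * (Psym 1 (s⁻¹ * ξ)) ^ (-(1 + ε)) := by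
    intro ξ
    rw [Psym_scale hs, Real.mul_rpow hs.le (Psym_pos one_pos _).le]
  simp_rw [h1]
  rw [integral_const_mul, Measure.integral_comp_mul_left (fun ξ => (Psym 1 ξ) ^ (-(1 + ε)))]
  simp only [inv_inv, smul_eq_mul]
  rw [abs_of_pos hs, ← mul_assoc, cEps]
  congr 1
  nth_rewrite 2 [← Real.rpow_one s]
  rw [← Real.rpow_add hs]
  congr 1; ring

lemma cEps_nonneg (ε : ℝ) : 0 ≤ cEps ε :=
  integral_nonneg fun ξ => Real.rpow_nonneg (Psym_pos one_pos ξ).le _

lemma Bfun_nonneg {s : ℝ} (hs : 0 < s) (e : ℝ) : 0 ≤ Bfun s e :=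
  setIntegral_nonneg (lowSet_meas s e) fun ξ _ => (inv_pos.mpr (Psym_pos hs ξ)).le

lemma Psym_inv_le_of_low {s e ε : ℝ} (hs : 0 < s) (hε : 0 < ε) {ξ : ℝ} (h : ξ ∈ lowSet s e) :
    (Psym s ξ)⁻¹ ≤ e ^ ε * (Psym s ξ) ^ (-(1 + ε)) := by
  have hP := Psym_pos hs ξ
  have h1 : (Psym s ξ) ^ ε ≤ e ^ ε := Real.rpow_le_rpow hP.le h hε.le
  have h2 : (Psym s ξ)⁻¹ = (Psym s ξ) ^ ε * (Psym s ξ) ^ (-(1 + ε)) := by
    rw [← Real.rpow_add hP, ← Real.rpow_neg_one]
    congr 1; ring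
  rw [h2]
  exact mul_le_mul_of_nonneg_right h1 (Real.rpow_nonneg hP.le _)

lemma Bfun_le {s e ε : ℝ} (hs : 0 < s) (hε : 0 < ε) (he : 0 ≤ e) :
    Bfun s e ≤ cEps ε * (e / s) ^ ε := by
  have hint := Psym_rpow_integrable hs hε
  have h1 : Bfun s e ≤ ∫ ξ in lowSet s e, e ^ ε * (Psym s ξ) ^ (-(1 + ε)) := by
    unfold Bfun
    apply setIntegral_mono_on
    · have : Integrable (fun ξ => e ^ ε * (Psym s ξ) ^ (-(1 + ε))) (volume.restrict (lowSet s e)) :=
        (hint.const_mul _).integrableOn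
      refine this.mono' ((Psym_inv_cont hs).aestronglyMeasurable) ?_
      filter_upwards [ae_restrict_mem (lowSet_meas s e)] with ξ hξ
      rw [Real.norm_of_nonneg (inv_pos.mpr (Psym_pos hs ξ)).le]
      exact Psym_inv_le_of_low hs hε hξ
    · exact (hint.const_mul _).integrableOn
    · exact lowSet_meas s e
    · intro ξ hξ; exact Psym_inv_le_of_low hs hε hξ
  have h2 : ∫ ξ in lowSet s e, e ^ ε * (Psym s ξ) ^ (-(1 + ε))
      ≤ ∫ ξ, e ^ ε * (Psym s ξ) ^ (-(1 + ε)) := by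
    apply setIntegral_le_integral (hint.const_mul _)
    filter_upwards with ξ
    exact mul_nonneg (Real.rpow_nonneg he _) (Real.rpow_nonneg (Psym_pos hs ξ).le _)
  calc Bfun s e ≤ _ := h1.trans h2
    _ = cEps ε * (e / s) ^ ε := by
      rw [integral_const_mul, integral_Psym_rpow hs, Real.div_rpow he hs.le,
        Real.rpow_neg hs.le]; ring

lemma Bfun_eq_zero {s e : ℝ} (hs : 0 < s) (he : e < s) : Bfun s e = 0 := by
  unfold Bfun
  have : lowSet s e = ∅ := by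
    ext ξ
    simp only [lowSet, Set.mem_ofPred_eq, Set.mem_empty_iff_false, iff_false, not_le]
    exact lt_of_lt_of_le he (le_Psym hs ξ)
  rw [this]; simp

/-- multiplication by the indicator of a measurable set in Fourier space -/
noncomputable def cut (A : Set ℝ) (hA : MeasurableSet A) (f : L2) : L2 :=
  ((Lp.memLp f).indicator hA).toLp _

lemma coeFn_cut (A : Set ℝ) (hA : MeasurableSet A) (f : L2) :
    (fun ξ => (cut A hA f) ξ) =ᵐ[volume] A.indicator (fun ξ => f ξ) :=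
  MemLp.coeFn_toLp _

lemma cut_add_compl (A : Set ℝ) (hA : MeasurableSet A) (f : L2) :
    cut A hA f + cut Aᶜ hA.compl f = f := by
  apply Lp.ext
  filter_upwards [Lp.coeFn_add (cut A hA f) (cut Aᶜ hA.compl f), coeFn_cut A hA f,
    coeFn_cut Aᶜ hA.compl f] with ξ h1 h2 h3
  rw [h1, Pi.add_apply, h2, h3]
  exact congrFun (Set.indicator_self_add_compl A (fun ξ => f ξ)) ξ

/-- low frequency part of `f`. -/
noncomputable def flow (s e : ℝ) (f : L2) : L2 := 𝓕⁻ (cut (lowSet s e) (lowSet_meas s e) (𝓕 f : L2))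

/-- high frequency part of `f`. -/
noncomputable def fhigh (s e : ℝ) (f : L2) : L2 :=
  𝓕⁻ (cut (lowSet s e)ᶜ (lowSet_meas s e).compl (𝓕 f : L2))

lemma flow_add_fhigh (s e : ℝ) (f : L2) : flow s e f + fhigh s e f = f := by
  unfold flow fhigh
  rw [← fourierInv_add, cut_add_compl, fourierInv_fourier_eq]

lemma lowSet_subset {s : ℝ} (e : ℝ) : lowSet s e ⊆ Set.Icc (-(e / (2 * Real.pi))) (e / (2 * Real.pi)) := by
  intro ξ hξ
  simp only [lowSet, Set.mem_ofPred_eq] at hξ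
  have h1 : |2 * Real.pi * ξ| ≤ e := by
    refine le_trans ?_ hξ
    rw [Psym]
    apply Real.le_sqrt_of_sq_le
    rw [sq_abs]
    nlinarith [sq_nonneg s]
  rw [abs_mul, abs_of_pos (by positivity : 0 < 2 * Real.pi)] at h1
  have h2 : |ξ| ≤ e / (2 * Real.pi) := by
    rw [le_div_iff₀ (by positivity)]; linarith
  exact abs_le.mp h2

lemma lowSet_finite (s e : ℝ) : volume (lowSet s e) < ⊤ :=
  lt_of_le_of_lt (measure_mono (lowSet_subset e)) (by simp)

lemma cut_low_integrable (s e : ℝ) (f : L2) :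
    Integrable (fun ξ => (cut (lowSet s e) (lowSet_meas s e) f) ξ) volume := by
  have h1 : IntegrableOn (fun ξ => f ξ) (lowSet s e) volume := by
    have h2 : MemLp (fun ξ => f ξ) 2 (volume.restrict (lowSet s e)) := (Lp.memLp f).restrict _
    have : IsFiniteMeasure (volume.restrict (lowSet s e)) := ⟨by
      rw [Measure.restrict_apply_univ]; exact lowSet_finite s e⟩
    exact h2.integrable (by norm_num)
  rw [← integrable_indicator_iff (lowSet_meas s e)] at h1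
  exact h1.congr (coeFn_cut _ _ f).symm

/-- the kernel of the low frequency evaluation functional. -/
noncomputable def kern (s e x : ℝ) (ξ : ℝ) : ℂ :=
  (lowSet s e).indicator (fun ξ => (((Psym s ξ) ^ (-(1 / 2) : ℝ) : ℝ) : ℂ)
    * Complex.exp (-(2 * Real.pi * x * ξ * Complex.I))) ξ

lemma norm_kern {s : ℝ} (hs : 0 < s) (e x ξ : ℝ) :
    ‖kern s e x ξ‖ = (lowSet s e).indicator (fun ξ => (Psym s ξ) ^ (-(1 / 2) : ℝ)) ξ := by
  unfold kern
  by_cases h : ξ ∈ lowSet s e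
  · rw [Set.indicator_of_mem h, Set.indicator_of_mem h, norm_mul, Complex.norm_real,
      Real.norm_of_nonneg (Real.rpow_nonneg (Psym_pos hs ξ).le _)]
    have : ‖Complex.exp (-(2 * Real.pi * x * ξ * Complex.I))‖ = 1 := by
      rw [show (-(2 * Real.pi * x * ξ * Complex.I) : ℂ) = ((-(2 * Real.pi * x * ξ) : ℝ) : ℂ) *
        Complex.I by push_cast; ring]
      exact Complex.norm_exp_ofReal_mul_I _
    rw [this, mul_one]
  · rw [Set.indicator_of_notMem h, Set.indicator_of_notMem h, norm_zero]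

lemma kern_meas {s : ℝ} (hs : 0 < s) (e x : ℝ) : AEStronglyMeasurable (kern s e x) volume := by
  apply AEStronglyMeasurable.indicator _ (lowSet_meas s e)
  apply Continuous.aestronglyMeasurable
  have h1 : Continuous (fun ξ => (Psym s ξ) ^ (-(1 / 2) : ℝ)) :=
    (Psym_cont s).rpow_const (fun ξ => Or.inl (Psym_pos hs ξ).ne')
  fun_prop

lemma kern_memLp {s : ℝ} (hs : 0 < s) (e x : ℝ) : MemLp (kern s e x) 2 volume := by
  have h1 : MemLp ((lowSet s e).indicator (fun _ => (s ^ (-(1 / 2) : ℝ) : ℝ))) 2 volume :=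
    memLp_indicator_const 2 (lowSet_meas s e) _ (Or.inr (lowSet_finite s e).ne)
  refine h1.of_le (kern_meas hs e x) ?_
  filter_upwards with ξ
  rw [norm_kern hs]
  by_cases h : ξ ∈ lowSet s e
  · rw [Set.indicator_of_mem h, Set.indicator_of_mem h,
      Real.norm_of_nonneg (Real.rpow_nonneg hs.le _)]
    exact Real.rpow_le_rpow_of_nonpos hs (le_Psym hs ξ) (by norm_num)
  · rw [Set.indicator_of_notMem h, Set.indicator_of_notMem h, norm_zero]

lemma kern_norm_sq {s : ℝ} (hs : 0 < s) (e x : ℝ) :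
    ‖(kern_memLp hs e x).toLp _‖ ^ 2 = Bfun s e := by
  have h := L2.inner_def (𝕜 := ℂ) ((kern_memLp hs e x).toLp (kern s e x) : L2)
    ((kern_memLp hs e x).toLp (kern s e x) : L2)
  rw [inner_self_eq_norm_sq_to_K] at h
  have h2 : ∫ ξ, inner ℂ (((kern_memLp hs e x).toLp (kern s e x) : L2) ξ)
      (((kern_memLp hs e x).toLp (kern s e x) : L2) ξ) = ((Bfun s e : ℝ) : ℂ) := by
    rw [Bfun, ← integral_indicator (lowSet_meas s e), ← integral_complex_ofReal]
    apply integral_congr_ae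
    filter_upwards [(kern_memLp hs e x).coeFn_toLp] with ξ hξ
    rw [hξ, inner_self_eq_norm_sq_to_K, norm_kern hs]
    by_cases h : ξ ∈ lowSet s e
    · rw [Set.indicator_of_mem h, Set.indicator_of_mem h]
      have h3 : ((Psym s ξ) ^ (-(1 / 2) : ℝ)) ^ 2 = (Psym s ξ)⁻¹ := by
        rw [← Real.rpow_natCast, ← Real.rpow_mul (Psym_pos hs ξ).le]
        norm_num
        rw [Real.rpow_neg_one]
      rw [← h3]; norm_cast
    · rw [Set.indicator_of_notMem h, Set.indicator_of_notMem h]; simp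
  rw [h2] at h
  have h5 : ((‖(kern_memLp hs e x).toLp (kern s e x)‖ ^ 2 : ℝ) : ℂ) = ((Bfun s e : ℝ) : ℂ) := by
    rw [← h]; simp
  exact Complex.ofReal_injective h5

end Pool.Agent.Helper98.ComplexLT
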