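import Pool.Agent.Helper98.ComplexLT.Upper

namespace Pool.Agent.Helper98.ComplexLT

open MeasureTheory Set
open scoped ENNReal

lemma potFun_eq {ε lam s : ℝ} {V : ℝ → ℂ} (hV : Measurable V) :
    potFun ε lam s V = ∫⁻ x, (if lam * s ≤ ‖V x‖ then
      ENNReal.ofReal (‖V x‖ * (cEps ε * (‖V x‖ / (lam * s)) ^ ε)) else 0) := by
  unfold potFun
  rw [← lintegral_indicator (measurableSet_le measurable_const hV.norm)]
  apply lintegral_congr
  intro x
  by_cases h : lam * s ≤ ‖V x‖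
  · rw [if_pos h, indicator_of_mem (show x ∈ {x | lam * s ≤ ‖V x‖} from h)]
  · rw [if_neg h, indicator_of_notMem (show x ∉ {x | lam * s ≤ ‖V x‖} from h)]

lemma potFun_eq_gfun {ε : ℝ} {V : ℝ → ℂ} (hV : Measurable V) (p : ℝ × ℝ) :
    potFun ε p.2 (Real.sqrt p.1 + p.2) V = ∫⁻ x, gfun ε ‖V x‖ p := by
  rw [potFun_eq hV]
  rfl

instance : SFinite qmeas := by unfold qmeas; infer_instance

lemma qmeas_ae : ∀ᵐ p ∂qmeas, 0 < p.1 ∧ 0 < p.2 := by
  unfold qmeas
  rw [Measure.prod_restrict]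
  filter_upwards [ae_restrict_mem (measurableSet_Ioi.prod measurableSet_Ioi)] with p hp
  exact ⟨hp.1, hp.2⟩

theorem finite_sum_one {γ σ : ℝ} (hσ : 1 / 2 < σ) (hσγ : σ < γ) {V : ℝ → ℂ} (hV : Measurable V)
    (S : Finset ℂ) (m : ℂ → ℕ) (hm : ∀ E ∈ S, (m E : ℕ∞) ≤ algMult 1 V E)
    (h0 : ∀ E ∈ S, E ≠ 0) :
    ∑ E ∈ S, (m E : ℝ≥0∞) *
        ENNReal.ofReal (cLow γ σ * (‖E‖ ^ (-σ) * distPos E ^ (γ + σ)))
      ≤ 2 * ∫⁻ x, ENNReal.ofReal (cUp γ σ * ‖V x‖ ^ (γ + 1 / 2)) := by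
  set α : ℝ := (γ - σ) / 2 - 1 with hα
  set β : ℝ := γ + σ - 2 with hβ
  set ε : ℝ := (γ - σ) / 2 with hε
  have hε0 : 0 < ε := by rw [hε]; linarith
  have hmeasE : ∀ E : ℂ, Measurable (fun p : ℝ × ℝ =>
      wfun α β p * ENNReal.ofReal (imSqrt E p.1 - 11 / 2 * p.2)) := by
    intro E
    apply (wfun_meas α β).mul
    apply Measurable.ennreal_ofReal
    exact ((imSqrt_meas E).comp measurable_fst).sub (measurable_snd.const_mul _)
  have hg2 : Measurable (fun q : ℝ × (ℝ × ℝ) => gfun ε ‖V q.1‖ q.2) := by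
    exact (gfun_meas ε).comp ((hV.norm.comp measurable_fst).prodMk measurable_snd)
  calc ∑ E ∈ S, (m E : ℝ≥0∞) *
        ENNReal.ofReal (cLow γ σ * (‖E‖ ^ (-σ) * distPos E ^ (γ + σ)))
      ≤ ∑ E ∈ S, (m E : ℝ≥0∞) * ∫⁻ p, wfun α β p *
          ENNReal.ofReal (imSqrt E p.1 - 11 / 2 * p.2) ∂qmeas := by
        apply Finset.sum_le_sum
        intro E hE
        gcongr
        exact lower_int hσγ (by linarith) (h0 E hE)
    _ = ∫⁻ p, ∑ E ∈ S, (m E : ℝ≥0∞) * (wfun α β p *
          ENNReal.ofReal (imSqrt E p.1 - 11 / 2 * p.2)) ∂qmeas := by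
        rw [lintegral_finsetSum _ (fun E _ => (hmeasE E).const_mul _)]
        apply Finset.sum_congr rfl
        intro E _
        rw [lintegral_const_mul _ (hmeasE E)]
    _ = ∫⁻ p, wfun α β p * ∑ E ∈ S, (m E : ℝ≥0∞) *
          ENNReal.ofReal (imSqrt E p.1 - 11 / 2 * p.2) ∂qmeas := by
        apply lintegral_congr
        intro p
        rw [Finset.mul_sum]
        apply Finset.sum_congr rfl
        intro E _
        ring
    _ ≤ ∫⁻ p, (wfun α β p * (2 * ∫⁻ x, gfun ε ‖V x‖ p)) ∂qmeas := by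
        apply lintegral_mono_ae
        filter_upwards [qmeas_ae] with p hp
        gcongr
        rw [← potFun_eq_gfun hV]
        exact two_param hV S m hm hp.1.le hp.2 hε0
    _ = 2 * ∫⁻ p, (∫⁻ x, wfun α β p * gfun ε ‖V x‖ p) ∂qmeas := by
        rw [← lintegral_const_mul]
        · apply lintegral_congr
          intro p
          rw [lintegral_const_mul]
          · ring
          · exact hg2.comp (measurable_id.prodMk measurable_const)
        · apply Measurable.lintegral_prod_right' (f := fun q : (ℝ × ℝ) × ℝ =>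
            wfun α β q.1 * gfun ε ‖V q.2‖ q.1)
          apply ((wfun_meas α β).comp measurable_fst).mul
          exact hg2.comp measurable_swap
    _ = 2 * ∫⁻ x, (∫⁻ p, wfun α β p * gfun ε ‖V x‖ p ∂qmeas) := by
        congr 1
        rw [lintegral_lintegral_swap]
        apply Measurable.aemeasurable
        show Measurable (fun q : (ℝ × ℝ) × ℝ => wfun α β q.1 * gfun ε ‖V q.2‖ q.1)
        apply ((wfun_meas α β).comp measurable_fst).mul
        exact hg2.comp measurable_swap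
    _ ≤ _ := by
        gcongr with x
        exact upper_int hσ hσγ (norm_nonneg _)

end Pool.Agent.Helper98.ComplexLT
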