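import Pool.Agent.Helper98.ComplexLT.Defs

namespace Pool.Agent.Helper98.ComplexLT

open MeasureTheory SchwartzMap FourierTransform LineDeriv
open scoped ComplexConjugate SchwartzMap ENNReal

lemma integral_mul_fourier (u : L2) (ψ : 𝓢(ℝ, ℂ)) :
    ∫ x, u x * (𝓕 ψ) x = ∫ ξ, (𝓕 u : L2) ξ * ψ ξ := by
  have h := congrArg (fun T => T ψ) (Lp.fourier_toTemperedDistribution_eq u)
  simp only [TemperedDistribution.fourier_apply, Lp.toTemperedDistribution_apply, smul_eq_mul] at h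
  calc ∫ x, u x * (𝓕 ψ) x = ∫ x, (𝓕 ψ) x * u x := by
        congr 1; ext x; ring
    _ = _ := h
    _ = _ := by congr 1; ext x; ring

/-- multiplication of a Schwartz function by `-2πiξ`. -/
noncomputable def mulXi (ψ : 𝓢(ℝ, ℂ)) : 𝓢(ℝ, ℂ) :=
  -(2 * Real.pi * Complex.I) • smulLeftCLM ℂ (fun ξ : ℝ => inner ℝ ξ (1 : ℝ)) ψ

lemma mulXi_apply (ψ : 𝓢(ℝ, ℂ)) (ξ : ℝ) :
    mulXi ψ ξ = -(2 * Real.pi * Complex.I * ξ) * ψ ξ := by
  have h : (fun ξ : ℝ => inner ℝ ξ (1 : ℝ)).HasTemperateGrowth := by fun_prop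
  simp only [mulXi, smul_apply, smulLeftCLM_apply_apply h]
  simp
  ring

lemma deriv_fourier_schwartz (ψ : 𝓢(ℝ, ℂ)) (x : ℝ) :
    deriv (𝓕 ψ : 𝓢(ℝ, ℂ)) x = (𝓕 (mulXi ψ) : 𝓢(ℝ, ℂ)) x := by
  have h := lineDerivOp_fourier_eq ψ (1 : ℝ)
  have h2 := congrArg (fun T : 𝓢(ℝ, ℂ) => T x) h
  simp only [lineDerivOp_apply] at h2
  rw [mulXi, ← h2]
  simp only [lineDeriv, smul_eq_mul, mul_one]
  rw [deriv_comp_const_add, add_zero]

lemma l2_mul_integrable (f : L2) (ψ : 𝓢(ℝ, ℂ)) : Integrable (fun ξ => f ξ * ψ ξ) volume := by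
  have h1 : MemLp (f : ℝ → ℂ) 2 volume := Lp.memLp f
  have h2 : MemLp (ψ : ℝ → ℂ) 2 volume := ψ.memLp 2 volume
  exact MemLp.integrable_mul h1 h2

theorem isWeakDeriv_iff_fourier (u v : L2) :
    IsWeakDeriv u v ↔
      (fun ξ => (𝓕 v : L2) ξ) =ᵐ[volume]
        fun ξ => (2 * Real.pi * Complex.I * ξ) * (𝓕 u : L2) ξ := by
  constructor
  · intro h
    have key : ∀ ψ : 𝓢(ℝ, ℂ), ∫ ξ, (𝓕 v : L2) ξ * ψ ξ
        = ∫ ξ, (2 * Real.pi * Complex.I * ξ) * (𝓕 u : L2) ξ * ψ ξ := by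
      intro ψ
      have h1 := h (𝓕 ψ)
      simp_rw [deriv_fourier_schwartz] at h1
      rw [integral_mul_fourier, integral_mul_fourier] at h1
      have h2 : ∫ ξ, (𝓕 u : L2) ξ * mulXi ψ ξ
          = - ∫ ξ, (2 * Real.pi * Complex.I * ξ) * (𝓕 u : L2) ξ * ψ ξ := by
        rw [← integral_neg]
        congr 1; ext ξ
        rw [mulXi_apply]; ring
      rw [h2] at h1
      exact (neg_injective h1).symm
    have hloc1 : LocallyIntegrable (fun ξ => (𝓕 v : L2) ξ) volume :=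
      (Lp.memLp (𝓕 v : L2)).locallyIntegrable (by norm_num)
    have hloc0 : LocallyIntegrable (fun ξ => (𝓕 u : L2) ξ) volume :=
      (Lp.memLp (𝓕 u : L2)).locallyIntegrable (by norm_num)
    have hloc2 : LocallyIntegrable
        (fun ξ : ℝ => (2 * Real.pi * Complex.I * ξ) * (𝓕 u : L2) ξ) volume := by
      have hc : Continuous (fun ξ : ℝ => (2 * Real.pi * Complex.I * ξ : ℂ)) := by fun_prop
      rw [MeasureTheory.locallyIntegrable_iff] at hloc0 ⊢
      intro K hK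
      exact (hloc0 K hK).continuousOn_mul hc.continuousOn hK
    apply ae_eq_of_integral_contDiff_smul_eq hloc1 hloc2
    intro g hg hgc
    have hg₁ : HasCompactSupport (Complex.ofRealCLM ∘ g) := hgc.comp_left rfl
    have hg₂ : ContDiff ℝ (⊤ : ℕ∞) (Complex.ofRealCLM ∘ g) := by
      exact Complex.ofRealCLM.contDiff.comp hg
    have := key (hg₁.toSchwartzMap hg₂)
    simp only [HasCompactSupport.toSchwartzMap_toFun, Function.comp] at this
    calc ∫ x, g x • (𝓕 v : L2) x = ∫ ξ, (𝓕 v : L2) ξ * (Complex.ofRealCLM (g ξ)) := by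
          congr 1; ext ξ; simp [mul_comm]
      _ = _ := this
      _ = _ := by congr 1; ext ξ; simp [mul_comm]
  · intro h φ
    have hφ : φ = 𝓕 (𝓕⁻ φ) := (fourier_fourierInv_eq φ).symm
    set ψ : 𝓢(ℝ, ℂ) := 𝓕⁻ φ with hψ
    rw [hφ]
    simp_rw [deriv_fourier_schwartz]
    rw [integral_mul_fourier, integral_mul_fourier, ← integral_neg]
    apply integral_congr_ae
    filter_upwards [h] with ξ hξ
    rw [hξ, mulXi_apply]; ring

lemma integral_mul_fourierInv (u : L2) (ψ : 𝓢(ℝ, ℂ)) :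
    ∫ x, u x * (𝓕⁻ ψ) x = ∫ ξ, (𝓕⁻ u : L2) ξ * ψ ξ := by
  have h := congrArg (fun T => T ψ) (Lp.fourierInv_toTemperedDistribution_eq u)
  simp only [TemperedDistribution.fourierInv_apply, Lp.toTemperedDistribution_apply,
    smul_eq_mul] at h
  calc ∫ x, u x * (𝓕⁻ ψ) x = ∫ x, (𝓕⁻ ψ) x * u x := by
        congr 1; ext x; ring
    _ = _ := h
    _ = _ := by congr 1; ext x; ring

lemma fourierInv_ae_eq (f : L2) (hf : Integrable (fun ξ => f ξ) volume) :
    (fun x => (𝓕⁻ f : L2) x) =ᵐ[volume] fun x => (𝓕⁻ (fun ξ => f ξ) : ℝ → ℂ) x := by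
  have hcont : Continuous (fun x => (𝓕⁻ (fun ξ => f ξ) : ℝ → ℂ) x) := by
    apply VectorFourier.fourierIntegral_continuous Real.continuous_fourierChar _ hf
    simp only [LinearMap.neg_apply, innerₗ_apply_apply]
    fun_prop
  have hloc1 : LocallyIntegrable (fun ξ => (𝓕⁻ f : L2) ξ) volume :=
    (Lp.memLp (𝓕⁻ f : L2)).locallyIntegrable (by norm_num)
  apply ae_eq_of_integral_contDiff_smul_eq hloc1 hcont.locallyIntegrable
  intro g hg hgc
  have hg₁ : HasCompactSupport (Complex.ofRealCLM ∘ g) := hgc.comp_left rfl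
  have hg₂ : ContDiff ℝ (⊤ : ℕ∞) (Complex.ofRealCLM ∘ g) := Complex.ofRealCLM.contDiff.comp hg
  set ψ := hg₁.toSchwartzMap hg₂ with hψ
  have hψx : ∀ x, ψ x = (g x : ℂ) := by
    intro x; simp [hψ]
  have h1 := integral_mul_fourierInv f ψ
  calc ∫ x, g x • (𝓕⁻ f : L2) x = ∫ x, (𝓕⁻ f : L2) x * ψ x := by
        congr 1; ext x; rw [hψx]; simp [mul_comm]
    _ = ∫ x, f x * (𝓕⁻ ψ) x := h1.symm
    _ = ∫ x, f x * (𝓕⁻ (ψ : ℝ → ℂ)) x := by rw [← fourierInv_coe]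
    _ = ∫ x, (𝓕⁻ (fun ξ => f ξ) : ℝ → ℂ) x * ψ x := by
        have := VectorFourier.integral_bilin_fourierIntegral_eq_flip (𝕜 := ℝ)
          (e := Real.fourierChar) (μ := volume) (ν := volume) (L := -innerₗ ℝ)
          (f := fun ξ => f ξ) (g := fun x => ψ x) (ContinuousLinearMap.mul ℂ ℂ)
          Real.continuous_fourierChar (by
            simp only [LinearMap.neg_apply, innerₗ_apply_apply]
            fun_prop) hf ψ.integrable
        simp only [ContinuousLinearMap.mul_apply'] at this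
        rw [show (-innerₗ ℝ).flip = -innerₗ ℝ by
          ext; simp] at this
        exact this.symm
    _ = ∫ x, g x • (𝓕⁻ (fun ξ => f ξ) : ℝ → ℂ) x := by
        congr 1; ext x; rw [hψx]; simp [mul_comm]

end Pool.Agent.Helper98.ComplexLT
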