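import Mathlib

namespace Pool.Agent.Helper98.ComplexLT

open Polynomial Module

variable {M : Type*} [AddCommGroup M] [Module ℂ M] [FiniteDimensional ℂ M]

lemma aeval_restrict_trace (L : Module.End ℂ M) (q : ℂ[X]) (μ : ℂ)
    (h : Set.MapsTo (aeval L q) (L.maxGenEigenspace μ) (L.maxGenEigenspace μ)) :
    LinearMap.trace ℂ (L.maxGenEigenspace μ) ((aeval L q).restrict h)
      = (finrank ℂ (L.maxGenEigenspace μ) : ℂ) * q.eval μ := by
  have hnil : IsNilpotent ((aeval L q).restrict h - (q.eval μ) • (1 : Module.End ℂ _)) := by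
    refine ⟨finrank ℂ M, ?_⟩
    ext ⟨x, hx⟩
    obtain ⟨g, hg⟩ := Polynomial.dvd_iff_isRoot.mpr
      (show (q - C (q.eval μ)).IsRoot μ by simp)
    have key : ∀ n : ℕ, ∀ y : L.maxGenEigenspace μ,
        ((((((aeval L q).restrict h - (q.eval μ) • (1 : Module.End ℂ (L.maxGenEigenspace μ))) ^ n :
          Module.End ℂ (L.maxGenEigenspace μ))) y :
          L.maxGenEigenspace μ) : M) = (aeval L ((q - C (q.eval μ)) ^ n)) y := by
      intro n
      induction n with
      | zero => intro y; simp
      | succ n ih =>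
        intro y
        rw [pow_succ, Module.End.mul_apply, ih, pow_succ, map_mul, Module.End.mul_apply]
        congr 1
        simp [LinearMap.restrict_apply, Algebra.algebraMap_eq_smul_one]
    rw [key, hg, mul_pow, mul_comm, map_mul, Module.End.mul_apply]
    have hx' : x ∈ L.genEigenspace μ (finrank ℂ M) := by
      rw [← Module.End.maxGenEigenspace_eq_genEigenspace_finrank]; exact hx
    rw [Module.End.mem_genEigenspace_nat] at hx'
    have : (aeval L ((X - C μ) ^ finrank ℂ M)) x = 0 := by
      simpa [Algebra.algebraMap_eq_smul_one] using hx'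
    show (aeval L (g ^ finrank ℂ M)) ((aeval L ((X - C μ) ^ finrank ℂ M)) x) = 0
    rw [this, map_zero]
  have h0 := (LinearMap.isNilpotent_trace_of_isNilpotent hnil).eq_zero
  rw [map_sub, map_smul, LinearMap.trace_one, sub_eq_zero] at h0
  rw [h0, smul_eq_mul, mul_comm]

lemma trace_aeval (L : Module.End ℂ M) (q : ℂ[X]) (S : Finset ℂ)
    (hS : ∀ μ, L.HasEigenvalue μ → μ ∈ S) :
    LinearMap.trace ℂ M (aeval L q)
      = ∑ μ ∈ S, (finrank ℂ (L.maxGenEigenspace μ) : ℂ) * q.eval μ := by
  classical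
  have hds := DirectSum.isInternal_submodule_of_iSupIndep_of_iSup_eq_top
      L.independent_maxGenEigenspace L.iSup_maxGenEigenspace_eq_top
  have hfin : {μ | L.maxGenEigenspace μ ≠ ⊥}.Finite :=
      WellFoundedGT.finite_ne_bot_of_iSupIndep L.independent_maxGenEigenspace
  have hcomm : Commute L (aeval L q) := by
    have : Commute (aeval L (X : ℂ[X])) (aeval L q) := by
      rw [Commute, SemiconjBy, ← map_mul, ← map_mul, mul_comm]
    simpa using this
  have hmaps : ∀ μ, Set.MapsTo (aeval L q) (L.maxGenEigenspace μ) (L.maxGenEigenspace μ) :=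
    fun μ => L.mapsTo_maxGenEigenspace_of_comm hcomm μ
  rw [LinearMap.trace_eq_sum_trace_restrict' hds hfin hmaps]
  simp_rw [aeval_restrict_trace]
  apply Finset.sum_subset
  · intro μ hμ
    simp only [Set.Finite.mem_toFinset, Set.mem_ofPred_eq] at hμ
    apply hS
    have : L.HasUnifEigenvalue μ ⊤ := hμ
    exact (Module.End.hasUnifEigenvalue_iff_hasUnifEigenvalue_one (by simp)).mp this
  · intro μ _ hμ
    simp only [Set.Finite.mem_toFinset, Set.mem_ofPred_eq, not_not] at hμ
    rw [hμ]; simp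

theorem exists_sqrt_trace (L : Module.End ℂ M) (c : ℂ) (S : Finset ℂ)
    (hS : ∀ μ, L.HasEigenvalue μ → μ ∈ S) (r : ℂ → ℂ) (hr : ∀ μ ∈ S, r μ ^ 2 = μ + c)
    (hr0 : ∀ μ ∈ S, r μ ≠ 0) :
    ∃ K : Module.End ℂ M, K * K = L + c • (1 : Module.End ℂ M) ∧
      LinearMap.trace ℂ M K = ∑ μ ∈ S, (finrank ℂ (L.maxGenEigenspace μ) : ℂ) * r μ := by
  classical
  set q : ℂ[X] := Lagrange.interpolate S id r with hq
  have hqe : ∀ μ ∈ S, q.eval μ = r μ := by
    intro μ hμ
    have := Lagrange.eval_interpolate_at_node (s := S) (v := id) r (Set.injOn_id _) hμ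
    simpa [hq] using this
  set m : ℂ[X] := minpoly ℂ L with hm
  have hm0 : m ≠ 0 := minpoly.ne_zero (Algebra.IsIntegral.isIntegral L)
  have hroots : ∀ μ ∈ m.roots, μ ∈ S := by
    intro μ hμ
    apply hS
    rw [Module.End.hasEigenvalue_iff_isRoot]
    exact isRoot_of_mem_roots hμ
  have hsplit : m = (m.roots.map (fun a => X - C a)).prod := by
    have := (IsAlgClosed.splits m).eq_prod_roots
    rw [(minpoly.monic (Algebra.IsIntegral.isIntegral L)).leadingCoeff] at this
    simpa using this
  have hdvd : ∀ f : ℂ[X], (∀ μ ∈ S, f.IsRoot μ) → m ∣ f ^ (Multiset.card m.roots) := by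
    intro f hf
    have h1 : (m.roots.map (fun a => X - C a)).prod ∣ (m.roots.map (fun _ => f)).prod := by
      apply Multiset.prod_dvd_prod_of_dvd
      intro a ha
      exact Polynomial.dvd_iff_isRoot.mpr (hf a (hroots a ha))
    rw [← hsplit, Multiset.map_const', Multiset.prod_replicate] at h1
    exact h1
  -- work in the commutative ring `ℂ[X]/(m)`
  let A := AdjoinRoot m
  let α : A := AdjoinRoot.root m
  let P : A[X] := X ^ 2 - C (α + algebraMap ℂ A c)
  let x : A := aeval α q
  have hxq : x = AdjoinRoot.mk m q := AdjoinRoot.aeval_eq q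
  have hnil : IsNilpotent (aeval x P) := by
    refine ⟨Multiset.card m.roots, ?_⟩
    have h1 : aeval x P = AdjoinRoot.mk m (q ^ 2 - X - C c) := by
      simp only [P, α, map_sub, map_pow, aeval_X, aeval_C, map_add]
      rw [hxq]
      simp only [AdjoinRoot.mk_X, AdjoinRoot.mk_C, Algebra.algebraMap_self, RingHom.id_apply]
      rw [AdjoinRoot.algebraMap_eq]
      ring
    rw [h1, ← map_pow, AdjoinRoot.mk_eq_zero]
    apply hdvd
    intro μ hμ
    simp [hqe μ hμ, hr μ hμ]
  have hunit : IsUnit (aeval x (derivative P)) := by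
    have h1 : aeval x (derivative P) = AdjoinRoot.mk m (C 2 * q) := by
      simp only [P, derivative_sub, derivative_X_pow, derivative_C, sub_zero]
      rw [hxq]
      simp
      rfl
    rw [h1]
    have hcop : IsCoprime (C 2 * q) m := by
      rw [Polynomial.isCoprime_iff_aeval_ne_zero_of_isAlgClosed (k := ℂ) (K := ℂ)]
      intro a
      by_cases ha : a ∈ S
      · left
        simp [hqe a ha, hr0 a ha]
      · right
        intro h0
        apply ha
        apply hS
        rw [Module.End.hasEigenvalue_iff_isRoot]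
        simpa using h0
    obtain ⟨a, b, hab⟩ := hcop
    have : AdjoinRoot.mk m a * AdjoinRoot.mk m (C 2 * q) = 1 := by
      rw [← map_mul, ← map_one (AdjoinRoot.mk m), ← hab, map_add, map_mul _ b m,
        AdjoinRoot.mk_self, mul_zero, add_zero]
    exact IsUnit.of_mul_eq_one_right _ this
  obtain ⟨y, ⟨hy1, hy2⟩, -⟩ := existsUnique_nilpotent_sub_and_aeval_eq_zero hnil hunit
  -- transport to `End M`
  obtain ⟨p, rfl⟩ := AdjoinRoot.mk_surjective y
  have haev : ∀ f : ℂ[X], AdjoinRoot.mk m f = 0 → aeval L f = 0 := by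
    intro f hf
    rw [AdjoinRoot.mk_eq_zero] at hf
    obtain ⟨g, rfl⟩ := hf
    rw [map_mul, hm, minpoly.aeval, zero_mul]
  refine ⟨aeval L p, ?_, ?_⟩
  · have h1 : AdjoinRoot.mk m (p ^ 2 - X - C c) = 0 := by
      rw [← hy2]
      simp only [P, α, map_sub, map_pow, aeval_X, aeval_C, map_add]
      simp only [AdjoinRoot.mk_X, AdjoinRoot.mk_C, Algebra.algebraMap_self, RingHom.id_apply]
      rw [AdjoinRoot.algebraMap_eq]
      ring
    have h2 := haev _ h1
    simp only [map_sub, map_pow, aeval_X, aeval_C, Algebra.algebraMap_eq_smul_one] at h2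
    rw [← sub_eq_zero, ← h2]
    rw [pow_two]
    abel
  · have hnil2 : IsNilpotent (aeval L q - aeval L p) := by
      obtain ⟨n, hn⟩ := hy1
      refine ⟨n, ?_⟩
      rw [← map_sub, ← map_pow]
      apply haev
      rw [map_pow, map_sub, ← hxq]
      exact hn
    have h0 := (LinearMap.isNilpotent_trace_of_isNilpotent hnil2).eq_zero
    rw [map_sub, sub_eq_zero] at h0
    rw [← h0, trace_aeval L q S hS]
    exact Finset.sum_congr rfl (fun μ hμ => by rw [hqe μ hμ])

end Pool.Agent.Helper98.ComplexLT
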