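import Pool.Agent.Helper98.ComplexLT.Sym
import Pool.Agent.Helper98.ComplexLT.SqrtOp

namespace Pool.Agent.Helper98.ComplexLT

open MeasureTheory SchwartzMap FourierTransform LineDeriv Module
open scoped ComplexConjugate SchwartzMap ENNReal

lemma isWeakDeriv_schwartz (ψ : 𝓢(ℝ, ℂ)) :
    IsWeakDeriv (ψ.toLp 2) ((SchwartzMap.derivCLM ℂ ℂ ψ).toLp 2) := by
  intro φ
  have e1 : ∫ x, (ψ.toLp 2 : L2) x * deriv φ x = ∫ x, ψ x * deriv φ x := by
    apply integral_congr_ae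
    filter_upwards [ψ.coeFn_toLp 2 volume] with x hx
    rw [hx]
  have e2 : ∫ x, ((SchwartzMap.derivCLM ℂ ℂ ψ).toLp 2 : L2) x * φ x = ∫ x, deriv ψ x * φ x := by
    apply integral_congr_ae
    filter_upwards [(SchwartzMap.derivCLM ℂ ℂ ψ).coeFn_toLp 2 volume] with x hx
    rw [hx, derivCLM_apply]
  rw [e1, e2]
  exact SchwartzMap.integral_mul_deriv_eq_neg_deriv_mul ψ φ

lemma HGraph.unique {ħ : ℝ} {V : ℝ → ℂ} {u g k : L2} (h : HGraph ħ V u g) (h' : HGraph ħ V u k) :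
    g = k := by
  obtain ⟨u', hu, hfu⟩ := h
  obtain ⟨v', hv, hfv⟩ := h'
  have huv : u' = v' := by
    have h1 := (isWeakDeriv_iff_fourier u u').mp hu
    have h2 := (isWeakDeriv_iff_fourier u v').mp hv
    have h3 : (𝓕 u' : L2) = 𝓕 v' := Lp.ext (h1.trans h2.symm)
    exact (Lp.fourierTransformₗᵢ ℝ ℂ).injective h3
  subst huv
  have hloc : ∀ f : L2, LocallyIntegrable (fun ξ => f ξ) volume := fun f =>
    (Lp.memLp f).locallyIntegrable (by norm_num)
  apply Lp.ext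
  apply ae_eq_of_integral_contDiff_smul_eq (hloc g) (hloc k)
  intro ζ hζ hζc
  have hg₁ : HasCompactSupport (Complex.ofRealCLM ∘ ζ) := hζc.comp_left rfl
  have hg₂ : ContDiff ℝ (⊤ : ℕ∞) (Complex.ofRealCLM ∘ ζ) := Complex.ofRealCLM.contDiff.comp hζ
  set ψ : 𝓢(ℝ, ℂ) := hg₁.toSchwartzMap hg₂ with hψ
  have hψx : ∀ x, ψ x = (ζ x : ℂ) := by intro x; simp [hψ]
  have a := (hfu _ _ (isWeakDeriv_schwartz ψ)).2
  have b := (hfv _ _ (isWeakDeriv_schwartz ψ)).2
  have e : ∀ f : L2, ∫ x, ζ x • f x = ∫ x, f x * conj ((ψ.toLp 2 : L2) x) := by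
    intro f
    apply integral_congr_ae
    filter_upwards [ψ.coeFn_toLp 2 volume] with x hx
    rw [hx, hψx]; simp [mul_comm]
  rw [e g, e k, ← a, ← b]

/-- `M` is contained in the domain and invariant. -/
def Inv (ħ : ℝ) (V : ℝ → ℂ) (M : Submodule ℂ L2) : Prop :=
  ∀ u ∈ M, ∃ g ∈ M, HGraph ħ V u g

lemma Inv.sup {ħ : ℝ} {V : ℝ → ℂ} {M N : Submodule ℂ L2} (hM : Inv ħ V M) (hN : Inv ħ V N) :
    Inv ħ V (M ⊔ N) := by
  intro u hu
  obtain ⟨a, ha, b, hb, rfl⟩ := Submodule.mem_sup.mp hu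
  obtain ⟨g, hg, hg'⟩ := hM a ha
  obtain ⟨k, hk, hk'⟩ := hN b hb
  exact ⟨g + k, Submodule.add_mem_sup hg hk, hg'.add hk'⟩

lemma Inv.bot (ħ : ℝ) (V : ℝ → ℂ) : Inv ħ V ⊥ := by
  intro u hu
  rw [Submodule.mem_bot] at hu
  subst hu
  exact ⟨0, Submodule.zero_mem _, HGraph.zero ħ V⟩

lemma Inv.finset_sup {ħ : ℝ} {V : ℝ → ℂ} {ι : Type*} (S : Finset ι) (M : ι → Submodule ℂ L2)
    (h : ∀ i ∈ S, Inv ħ V (M i)) : Inv ħ V (S.sup M) := by
  classical
  induction S using Finset.induction_on with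
  | empty => simpa using Inv.bot ħ V
  | insert a S ha ih =>
    rw [Finset.sup_insert]
    exact (h a (Finset.mem_insert_self a S)).sup
      (ih (fun i hi => h i (Finset.mem_insert_of_mem hi)))

lemma genSpace_mono_succ (ħ : ℝ) (V : ℝ → ℂ) (E : ℂ) (k : ℕ) :
    genSpace ħ V E k ≤ genSpace ħ V E (k + 1) := by
  induction k with
  | zero => exact bot_le
  | succ k ih =>
    rintro u ⟨g, hg, hg'⟩
    exact ⟨g, hg, ih hg'⟩

lemma genSpace_mono (ħ : ℝ) (V : ℝ → ℂ) (E : ℂ) : Monotone (genSpace ħ V E) :=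
  monotone_nat_of_le_succ (genSpace_mono_succ ħ V E)

lemma exists_inv (ħ : ℝ) (V : ℝ → ℂ) (E : ℂ) (k : ℕ) (u : L2) (hu : u ∈ genSpace ħ V E k) :
    ∃ M : Submodule ℂ L2, FiniteDimensional ℂ M ∧ Inv ħ V M ∧ u ∈ M ∧ M ≤ genSpace ħ V E k := by
  induction k generalizing u with
  | zero =>
    rw [show u = 0 from (Submodule.mem_bot ℂ).mp hu]
    exact ⟨⊥, inferInstance, Inv.bot ħ V, Submodule.zero_mem _, bot_le⟩
  | succ k ih =>
    obtain ⟨g, hg, hg'⟩ := hu
    obtain ⟨M, hfd, hinv, hm, hle⟩ := ih _ hg'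
    have hu' : u ∈ genSpace ħ V E (k + 1) := ⟨g, hg, hg'⟩
    refine ⟨M ⊔ Submodule.span ℂ {u}, inferInstance, ?_, ?_, ?_⟩
    · intro w hw
      obtain ⟨a, ha, b, hb, rfl⟩ := Submodule.mem_sup.mp hw
      obtain ⟨c, rfl⟩ := Submodule.mem_span_singleton.mp hb
      obtain ⟨q, hq, hq'⟩ := hinv a ha
      refine ⟨q + c • g, ?_, hq'.add (hg.smul c)⟩
      have : q + c • g = (q + c • (g - E • u)) + (c * E) • u := by
        rw [smul_sub, smul_smul]; abel
      rw [this]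
      exact Submodule.add_mem_sup (Submodule.add_mem _ hq (Submodule.smul_mem _ c hm))
        (Submodule.smul_mem _ _ (Submodule.mem_span_singleton_self u))
    · exact Submodule.mem_sup_right (Submodule.mem_span_singleton_self u)
    · apply sup_le (hle.trans (genSpace_mono_succ ħ V E k))
      rw [Submodule.span_singleton_le_iff_mem]
      exact hu'

lemma exists_inv_finset (ħ : ℝ) (V : ℝ → ℂ) (E : ℂ) (F : Finset L2)
    (hF : ∀ u ∈ F, u ∈ (⨆ k, genSpace ħ V E k : Submodule ℂ L2)) :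
    ∃ (k : ℕ) (M : Submodule ℂ L2), FiniteDimensional ℂ M ∧ Inv ħ V M ∧ (∀ u ∈ F, u ∈ M) ∧
      M ≤ genSpace ħ V E k := by
  classical
  induction F using Finset.induction_on with
  | empty => exact ⟨0, ⊥, inferInstance, Inv.bot ħ V, by simp, bot_le⟩
  | insert a F ha ih =>
    obtain ⟨k, M, h1, h2, h3, h4⟩ := ih (fun u hu => hF u (Finset.mem_insert_of_mem hu))
    have ha' := hF a (Finset.mem_insert_self a F)
    rw [Submodule.mem_iSup_of_directed _ (genSpace_mono ħ V E).directed_le] at ha'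
    obtain ⟨k', hk'⟩ := ha'
    obtain ⟨N, g1, g2, g3, g4⟩ := exists_inv ħ V E k' a hk'
    refine ⟨max k k', M ⊔ N, inferInstance, h2.sup g2, ?_, ?_⟩
    · intro u hu
      rw [Finset.mem_insert] at hu
      rcases hu with rfl | hu
      · exact Submodule.mem_sup_right g3
      · exact Submodule.mem_sup_left (h3 u hu)
    · exact sup_le (h4.trans (genSpace_mono ħ V E (le_max_left _ _)))
        (g4.trans (genSpace_mono ħ V E (le_max_right _ _)))

lemma Inv.exists_lin {ħ : ℝ} {V : ℝ → ℂ} {M : Submodule ℂ L2} (h : Inv ħ V M) :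
    ∃ L : Module.End ℂ M, ∀ u : M, HGraph ħ V u (L u) := by
  choose! g hg hg' using h
  refine ⟨{ toFun := fun u => ⟨g u, hg u u.2⟩, map_add' := ?_, map_smul' := ?_ }, ?_⟩
  · intro u v
    apply Subtype.ext
    exact (hg' _ (u + v).2).unique ((hg' _ u.2).add (hg' _ v.2))
  · intro c u
    apply Subtype.ext
    exact (hg' _ (c • u).2).unique ((hg' _ u.2).smul c)
  · intro u
    exact hg' _ u.2

lemma sub_pow_eq_zero {ħ : ℝ} {V : ℝ → ℂ} {M : Submodule ℂ L2} {L : Module.End ℂ M}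
    (hL : ∀ u : M, HGraph ħ V u (L u)) (E : ℂ) (k : ℕ) (u : M) (hu : (u : L2) ∈ genSpace ħ V E k) :
    ((L - E • (1 : Module.End ℂ M)) ^ k) u = 0 := by
  induction k generalizing u with
  | zero => exact Subtype.ext ((Submodule.mem_bot ℂ).mp hu)
  | succ k ih =>
    obtain ⟨g, hg, hg'⟩ := hu
    have h1 : g = L u := hg.unique (hL u)
    rw [pow_succ, Module.End.mul_apply]
    apply ih
    rw [h1] at hg'
    simpa using hg'

end Pool.Agent.Helper98.ComplexLT
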