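import Pool.Agent.Helper98.ComplexLT.TwoParam

namespace Pool.Agent.Helper98.ComplexLT

open MeasureTheory Set
open scoped ENNReal

lemma lintegral_rpow_Ioc {a r : ℝ} (ha : 0 ≤ a) (hr : -1 < r) :
    ∫⁻ t in Ioc 0 a, ENNReal.ofReal (t ^ r) = ENNReal.ofReal (a ^ (r + 1) / (r + 1)) := by
  have hint : IntegrableOn (fun t : ℝ => t ^ r) (Ioc 0 a) volume := by
    have := intervalIntegral.intervalIntegrable_rpow' (a := 0) (b := a) hr
    rwa [intervalIntegrable_iff_integrableOn_Ioc_of_le ha] at this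
  rw [← ofReal_integral_eq_lintegral_ofReal hint]
  · congr 1
    rw [← intervalIntegral.integral_of_le ha, integral_rpow (Or.inl hr)]
    rw [Real.zero_rpow (by linarith), sub_zero]
  · filter_upwards [ae_restrict_mem measurableSet_Ioc] with t ht
    exact Real.rpow_nonneg ht.1.le _

lemma distPos_nonneg (E : ℂ) : 0 ≤ distPos E := Metric.infDist_nonneg

lemma distPos_le_norm (E : ℂ) : distPos E ≤ ‖E‖ := by
  have h : (0 : ℂ) ∈ {z : ℂ | 0 ≤ z.re ∧ z.im = 0} := by simp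
  have := Metric.infDist_le_dist_of_mem (x := E) h
  simpa [distPos] using this

lemma distPos_le_im {E : ℂ} (hE : 0 ≤ E.re) : distPos E ≤ |E.im| := by
  have h : ((E.re : ℝ) : ℂ) ∈ {z : ℂ | 0 ≤ z.re ∧ z.im = 0} := by
    simpa using hE
  have h2 := Metric.infDist_le_dist_of_mem (x := E) h
  refine h2.trans ?_
  rw [dist_eq_norm]
  have h3 : E - (E.re : ℂ) = (E.im : ℂ) * Complex.I := by
    apply Complex.ext <;> simp
  rw [h3, norm_mul, Complex.norm_I, mul_one, Complex.norm_real, Real.norm_eq_abs]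

lemma imSqrt_lower {E : ℂ} (hE : E ≠ 0) {t : ℝ} (ht0 : 0 ≤ t) (ht : t ≤ ‖E‖ / 4) :
    distPos E / Real.sqrt (8 * ‖E‖) ≤ imSqrt E t := by
  have hn : 0 < ‖E‖ := norm_pos_iff.mpr hE
  unfold imSqrt
  apply Real.le_sqrt_of_sq_le
  rw [div_pow, Real.sq_sqrt (by positivity)]
  have hre : (E + t).re = E.re + t := by simp
  have him : (E + t).im = E.im := by simp
  have hnt : ‖(t : ℂ)‖ = t := by rw [Complex.norm_real, Real.norm_of_nonneg ht0]
  have hup : ‖E + t‖ ≤ ‖E‖ + t := by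
    have := norm_add_le E (t : ℂ); rwa [hnt] at this
  have hlo : ‖E‖ - t ≤ ‖E + t‖ := by
    have := norm_sub_le (E + t) (t : ℂ)
    rw [add_sub_cancel_right, hnt] at this; linarith
  have hd0 := distPos_nonneg E
  rcases le_or_gt 0 E.re with h | h
  · have hd := distPos_le_im h
    have hsq : ‖E + t‖ ^ 2 = (E.re + t) ^ 2 + E.im ^ 2 := by
      rw [← Complex.normSq_eq_norm_sq, Complex.normSq_apply, hre, him]; ring
    have hd2 : distPos E ^ 2 ≤ E.im ^ 2 := by
      rw [← sq_abs E.im]; exact pow_le_pow_left₀ hd0 hd 2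
    have hnn := norm_nonneg (E + t)
    have hge : E.re + t ≤ ‖E + t‖ := by
      have := Complex.re_le_norm (E + t); rwa [hre] at this
    have hfac : (‖E + t‖ - (E.re + t)) * (‖E + t‖ + (E.re + t)) = E.im ^ 2 := by nlinarith
    rw [hre, div_le_div_iff₀ (by positivity) (by norm_num)]
    have h4 : ‖E + t‖ + (E.re + t) ≤ 4 * ‖E‖ := by nlinarith
    have h5 : 0 ≤ ‖E + t‖ - (E.re + t) := by linarith
    nlinarith [mul_le_mul_of_nonneg_left h4 h5]
  · have hd := distPos_le_norm E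
    rw [hre, div_le_div_iff₀ (by positivity) (by norm_num)]
    have hd2 : distPos E ^ 2 ≤ ‖E‖ ^ 2 := pow_le_pow_left₀ hd0 hd 2
    have h6 : ‖E‖ / 2 ≤ ‖E + t‖ - (E.re + t) := by linarith
    nlinarith

/-- the base measure on the positive quadrant -/
noncomputable def qmeas : Measure (ℝ × ℝ) :=
  (volume.restrict (Ioi (0 : ℝ))).prod (volume.restrict (Ioi (0 : ℝ)))

/-- weight -/
noncomputable def wfun (α β : ℝ) (p : ℝ × ℝ) : ℝ≥0∞ := ENNReal.ofReal (p.1 ^ α * p.2 ^ β)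

lemma wfun_meas (α β : ℝ) : Measurable (wfun α β) := by
  unfold wfun; fun_prop

lemma imSqrt_meas (E : ℂ) : Measurable (imSqrt E) := by
  unfold imSqrt
  fun_prop

lemma qmeas_restrict (a b : ℝ) :
    qmeas.restrict (Ioc 0 a ×ˢ Ioc 0 b)
      = (volume.restrict (Ioc 0 a)).prod (volume.restrict (Ioc 0 b)) := by
  unfold qmeas
  rw [← Measure.prod_restrict, Measure.restrict_restrict measurableSet_Ioc,
    Measure.restrict_restrict measurableSet_Ioc]
  congr 2
  · rw [inter_eq_left.mpr]; intro x hx; exact hx.1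
  · rw [inter_eq_left.mpr]; intro x hx; exact hx.1

lemma lintegral_rect {a b α β : ℝ} (ha : 0 ≤ a) (hb : 0 ≤ b) (hα : -1 < α) (hβ : -1 < β) :
    ∫⁻ p in Ioc 0 a ×ˢ Ioc 0 b, wfun α β p ∂qmeas
      = ENNReal.ofReal (a ^ (α + 1) / (α + 1) * (b ^ (β + 1) / (β + 1))) := by
  rw [qmeas_restrict]
  have h1 : ∫⁻ p, wfun α β p ∂((volume.restrict (Ioc 0 a)).prod (volume.restrict (Ioc 0 b)))
      = ∫⁻ p : ℝ × ℝ, ENNReal.ofReal (p.1 ^ α) * ENNReal.ofReal (p.2 ^ β)
        ∂((volume.restrict (Ioc 0 a)).prod (volume.restrict (Ioc 0 b))) := by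
    apply lintegral_congr_ae
    rw [Measure.prod_restrict]
    filter_upwards [ae_restrict_mem (measurableSet_Ioc.prod measurableSet_Ioc)] with p hp
    unfold wfun
    rw [ENNReal.ofReal_mul (Real.rpow_nonneg hp.1.1.le _)]
  rw [h1, lintegral_prod_mul (f := fun t : ℝ => ENNReal.ofReal (t ^ α))
    (g := fun t : ℝ => ENNReal.ofReal (t ^ β)) (by fun_prop) (by fun_prop),
    lintegral_rpow_Ioc ha hα, lintegral_rpow_Ioc hb hβ, ← ENNReal.ofReal_mul]
  apply div_nonneg (Real.rpow_nonneg ha _) (by linarith)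

/-- the constant in the lower bound -/
noncomputable def cLow (γ σ : ℝ) : ℝ :=
  (1 / 2) * ((1 / 4) ^ ((γ - σ) / 2) / ((γ - σ) / 2)) *
    ((1 / 11) ^ (γ + σ - 1) / (γ + σ - 1)) * (Real.sqrt 8) ^ (-(γ + σ))

lemma cLow_pos {γ σ : ℝ} (hσγ : σ < γ) (hs1 : 1 < γ + σ) : 0 < cLow γ σ := by
  unfold cLow
  have h1 : 0 < (γ - σ) / 2 := by linarith
  have h2 : 0 < γ + σ - 1 := by linarith
  positivity

lemma lower_int {γ σ : ℝ} (hσγ : σ < γ) (hs1 : 1 < γ + σ) {E : ℂ} (hE : E ≠ 0) :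
    ENNReal.ofReal (cLow γ σ * (‖E‖ ^ (-σ) * distPos E ^ (γ + σ)))
      ≤ ∫⁻ p, wfun ((γ - σ) / 2 - 1) (γ + σ - 2) p *
          ENNReal.ofReal (imSqrt E p.1 - 11 / 2 * p.2) ∂qmeas := by
  rcases (distPos_nonneg E).eq_or_lt with h0 | hd
  · rw [← h0, Real.zero_rpow (by linarith)]; simp
  have hn : 0 < ‖E‖ := norm_pos_iff.mpr hE
  set α : ℝ := (γ - σ) / 2 - 1 with hα
  set β : ℝ := γ + σ - 2 with hβ
  set S0 : ℝ := distPos E / Real.sqrt (8 * ‖E‖) with hS0
  have hS0p : 0 < S0 := by positivity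
  have hα1 : -1 < α := by rw [hα]; linarith
  have hβ1 : -1 < β := by rw [hβ]; linarith
  set R : Set (ℝ × ℝ) := Ioc 0 (‖E‖ / 4) ×ˢ Ioc 0 (S0 / 11) with hR
  have hRm : MeasurableSet R := measurableSet_Ioc.prod measurableSet_Ioc
  calc ENNReal.ofReal (cLow γ σ * (‖E‖ ^ (-σ) * distPos E ^ (γ + σ)))
      = ENNReal.ofReal ((‖E‖ / 4) ^ (α + 1) / (α + 1) * ((S0 / 11) ^ (β + 1) / (β + 1)))
        * ENNReal.ofReal (S0 / 2) := by
        rw [← ENNReal.ofReal_mul]
        · congr 1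
          have e1 : α + 1 = (γ - σ) / 2 := by rw [hα]; ring
          have e2 : β + 1 = γ + σ - 1 := by rw [hβ]; ring
          rw [e1, e2, Real.div_rpow hn.le (by norm_num), Real.div_rpow hS0p.le (by norm_num)]
          have e3 : S0 ^ (γ + σ - 1) * S0 = S0 ^ (γ + σ) := by
            nth_rewrite 2 [← Real.rpow_one S0]
            rw [← Real.rpow_add hS0p]; congr 1; ring
          have e4 : S0 ^ (γ + σ) = distPos E ^ (γ + σ) *
              ((Real.sqrt 8) ^ (-(γ + σ)) * ‖E‖ ^ (-((γ + σ) / 2))) := by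
            rw [hS0, Real.div_rpow hd.le (Real.sqrt_nonneg _), Real.sqrt_mul (by norm_num),
              Real.mul_rpow (Real.sqrt_nonneg _) (Real.sqrt_nonneg _),
              Real.rpow_neg (Real.sqrt_nonneg _)]
            rw [Real.sqrt_eq_rpow ‖E‖, ← Real.rpow_mul hn.le, Real.rpow_neg hn.le]
            rw [div_eq_mul_inv, mul_inv]
            congr 4
            ring
          have e5 : ‖E‖ ^ ((γ - σ) / 2) * ‖E‖ ^ (-((γ + σ) / 2)) = ‖E‖ ^ (-σ) := by
            rw [← Real.rpow_add hn]; congr 1; ring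
          have e6 : (1 / 4 : ℝ) ^ ((γ - σ) / 2) = ((4 : ℝ) ^ ((γ - σ) / 2))⁻¹ := by
            rw [one_div, Real.inv_rpow (by norm_num)]
          have e7 : (1 / 11 : ℝ) ^ (γ + σ - 1) = ((11 : ℝ) ^ (γ + σ - 1))⁻¹ := by
            rw [one_div, Real.inv_rpow (by norm_num)]
          unfold cLow
          rw [e6, e7, ← e5]
          have h1 : (γ - σ) / 2 ≠ 0 := by linarith
          have h2 : γ + σ - 1 ≠ 0 := by linarith
          calc _ = (1 / 2) * ((4 : ℝ) ^ ((γ - σ) / 2))⁻¹ / ((γ - σ) / 2)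
                * (((11 : ℝ) ^ (γ + σ - 1))⁻¹ / (γ + σ - 1)) * ‖E‖ ^ ((γ - σ) / 2)
                * (distPos E ^ (γ + σ) *
                ((Real.sqrt 8) ^ (-(γ + σ)) * ‖E‖ ^ (-((γ + σ) / 2)))) := by ring
            _ = _ := by rw [← e4, ← e3]; field_simp
        · apply mul_nonneg
          · apply div_nonneg (Real.rpow_nonneg (by positivity) _) (by linarith)
          · apply div_nonneg (Real.rpow_nonneg (by positivity) _) (by linarith)
    _ = (∫⁻ p in R, wfun α β p ∂qmeas) * ENNReal.ofReal (S0 / 2) := by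
        rw [hR, lintegral_rect (by positivity) (by positivity) hα1 hβ1]
    _ = ∫⁻ p in R, wfun α β p * ENNReal.ofReal (S0 / 2) ∂qmeas := by
        rw [lintegral_mul_const _ (wfun_meas α β)]
    _ ≤ ∫⁻ p in R, wfun α β p * ENNReal.ofReal (imSqrt E p.1 - 11 / 2 * p.2) ∂qmeas := by
        apply setLIntegral_mono' hRm
        intro p hp
        gcongr
        have h1 := imSqrt_lower hE hp.1.1.le hp.1.2
        have h2 := hp.2.2
        linarith
    _ ≤ _ := setLIntegral_le_lintegral _ _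

end Pool.Agent.Helper98.ComplexLT
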