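import Pool.Agent.Helper98.ComplexLT.Sym

namespace Pool.Agent.Helper98.ComplexLT

open MeasureTheory SchwartzMap FourierTransform LineDeriv
open scoped ComplexConjugate SchwartzMap ENNReal

lemma memLp_conj {f : ℝ → ℂ} (hf : MemLp f 2 volume) :
    MemLp (fun ξ => conj (f ξ)) 2 volume := by
  refine hf.of_le ?_ ?_
  · exact Complex.continuous_conj.comp_aestronglyMeasurable hf.1
  · filter_upwards with ξ; simp

theorem im_identity {s t : ℝ} (hs : 0 < s) (hst : t ≤ s ^ 2) {V : ℝ → ℂ} {u g k k' : L2}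
    (hg : HGraph 1 V u g) (hk : IsWeakDeriv k k') :
    ((∫ ξ, (Psym s ξ : ℂ) * (conj ((𝓕 u : L2) ξ) * (𝓕 k : L2) ξ))
      + ∫ ξ, (((Psym s ξ)⁻¹ : ℝ) : ℂ) *
          (conj ((𝓕 k : L2) ξ) * ((𝓕 g : L2) ξ + t * (𝓕 u : L2) ξ))).im
      ≤ (s ^ 2 - t) * (∫ ξ, (Psym s ξ)⁻¹ * (‖(𝓕 u : L2) ξ‖ * ‖(𝓕 k : L2) ξ‖))
        + ∫ x, ‖V x * u x * conj ((Binv s hs k) x)‖ := by
  obtain ⟨u', hu, hform⟩ := hg
  obtain ⟨-, hid⟩ := hform (Binv s hs k) (Binv s hs k') (isWeakDeriv_Binv hs hk)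
  have hPu := memLp_P_mul hs hu
  have ha : MemLp (fun ξ => (𝓕 u : L2) ξ) 2 volume := Lp.memLp _
  have hb : MemLp (fun ξ => (𝓕 k : L2) ξ) 2 volume := Lp.memLp _
  have hc : MemLp (fun ξ => (𝓕 g : L2) ξ) 2 volume := Lp.memLp _
  have hbc := memLp_conj hb
  have hPb : MemLp (fun ξ => (((Psym s ξ)⁻¹ : ℝ) : ℂ) * (𝓕 k : L2) ξ) 2 volume :=
    memLp_bdd_mul (Psym_inv_cont hs) (Psym_inv_le hs) _
  have hPbc := memLp_conj hPb
  have I1 : Integrable (fun ξ => (Psym s ξ : ℂ) * (conj ((𝓕 u : L2) ξ) * (𝓕 k : L2) ξ)) volume := by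
    have := (memLp_conj hPu).integrable_mul hb
    refine this.congr (Filter.Eventually.of_forall fun ξ => ?_)
    simp; ring
  have I1' : Integrable (fun ξ => (Psym s ξ : ℂ) * ((𝓕 u : L2) ξ * conj ((𝓕 k : L2) ξ))) volume := by
    have := hPu.integrable_mul hbc
    refine this.congr (Filter.Eventually.of_forall fun ξ => ?_)
    simp; ring
  have I2 : Integrable (fun ξ => (((Psym s ξ)⁻¹ : ℝ) : ℂ) *
      (conj ((𝓕 k : L2) ξ) * (𝓕 g : L2) ξ)) volume := by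
    have := hPbc.integrable_mul hc
    refine this.congr (Filter.Eventually.of_forall fun ξ => ?_)
    simp; ring
  have I3 : Integrable (fun ξ => (((Psym s ξ)⁻¹ : ℝ) : ℂ) *
      ((𝓕 u : L2) ξ * conj ((𝓕 k : L2) ξ))) volume := by
    have := ha.integrable_mul hPbc
    refine this.congr (Filter.Eventually.of_forall fun ξ => ?_)
    simp; ring
  -- the form identity in Fourier variables
  rw [integral_deriv_mul_conj hu (isWeakDeriv_Binv hs hk), integral_mul_conj g] at hid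
  have hBk := fourier_Binv hs k
  have e1 : ∫ ξ, (𝓕 g : L2) ξ * conj ((𝓕 (Binv s hs k) : L2) ξ)
      = ∫ ξ, (((Psym s ξ)⁻¹ : ℝ) : ℂ) * (conj ((𝓕 k : L2) ξ) * (𝓕 g : L2) ξ) := by
    apply integral_congr_ae
    filter_upwards [hBk] with ξ h1
    rw [h1]; simp; ring
  have e2 : ∫ ξ, ((2 * Real.pi * ξ) ^ 2 : ℝ) * ((𝓕 u : L2) ξ * conj ((𝓕 (Binv s hs k) : L2) ξ))
      = (∫ ξ, (Psym s ξ : ℂ) * ((𝓕 u : L2) ξ * conj ((𝓕 k : L2) ξ)))
        - (s : ℂ) ^ 2 * ∫ ξ, (((Psym s ξ)⁻¹ : ℝ) : ℂ) * ((𝓕 u : L2) ξ * conj ((𝓕 k : L2) ξ)) := by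
    rw [← integral_const_mul, ← integral_sub I1' (I3.const_mul _)]
    apply integral_congr_ae
    filter_upwards [hBk] with ξ h1
    rw [h1]
    have hP := Psym_sq s ξ
    have hP0 := (Psym_pos hs ξ).ne'
    have hP2 : (2 * Real.pi * ξ) ^ 2 = Psym s ξ ^ 2 - s ^ 2 := by linarith
    rw [hP2]
    have hPc : (Psym s ξ : ℂ) ≠ 0 := by exact_mod_cast hP0
    simp only [map_mul, Complex.conj_ofReal]
    push_cast
    field_simp
  rw [e1, e2] at hid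
  have e3 : ∫ ξ, (((Psym s ξ)⁻¹ : ℝ) : ℂ) *
          (conj ((𝓕 k : L2) ξ) * ((𝓕 g : L2) ξ + t * (𝓕 u : L2) ξ))
      = (∫ ξ, (((Psym s ξ)⁻¹ : ℝ) : ℂ) * (conj ((𝓕 k : L2) ξ) * (𝓕 g : L2) ξ))
        + t * ∫ ξ, (((Psym s ξ)⁻¹ : ℝ) : ℂ) * ((𝓕 u : L2) ξ * conj ((𝓕 k : L2) ξ)) := by
    rw [← integral_const_mul, ← integral_add I2 (I3.const_mul _)]
    congr 1; ext ξ; ring
  rw [e3, ← hid]
  set A := ∫ ξ, (Psym s ξ : ℂ) * ((𝓕 u : L2) ξ * conj ((𝓕 k : L2) ξ)) with hA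
  set B := ∫ ξ, (((Psym s ξ)⁻¹ : ℝ) : ℂ) * ((𝓕 u : L2) ξ * conj ((𝓕 k : L2) ξ)) with hB
  set W := ∫ x, V x * u x * conj ((Binv s hs k) x) with hW
  have e4 : (∫ ξ, (Psym s ξ : ℂ) * (conj ((𝓕 u : L2) ξ) * (𝓕 k : L2) ξ)) = conj A := by
    rw [hA, ← integral_conj]
    congr 1; ext ξ; simp
  rw [e4]
  have e5 : (conj A + ((((1 : ℝ) : ℂ) ^ 2 * (A - (s : ℂ) ^ 2 * B) + W) + t * B)).im
      = - ((s ^ 2 - t) * B.im) + W.im := by
    simp only [Complex.add_im, Complex.conj_im, Complex.mul_im, Complex.sub_im]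
    simp [← Complex.ofReal_pow]
    ring
  have e6 : -B.im ≤ ∫ ξ, (Psym s ξ)⁻¹ * (‖(𝓕 u : L2) ξ‖ * ‖(𝓕 k : L2) ξ‖) := by
    calc -B.im ≤ |B.im| := neg_le_abs _
      _ ≤ ‖B‖ := Complex.abs_im_le_norm B
      _ ≤ ∫ ξ, ‖(((Psym s ξ)⁻¹ : ℝ) : ℂ) * ((𝓕 u : L2) ξ * conj ((𝓕 k : L2) ξ))‖ :=
          norm_integral_le_integral_norm _
      _ = _ := by
          congr 1; ext ξ
          rw [norm_mul, norm_mul, Complex.norm_real, RCLike.norm_conj,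
            Real.norm_of_nonneg (inv_nonneg.mpr (Psym_pos hs ξ).le)]
  have e7 : W.im ≤ ∫ x, ‖V x * u x * conj ((Binv s hs k) x)‖ :=
    (le_abs_self _).trans ((Complex.abs_im_le_norm W).trans (norm_integral_le_integral_norm _))
  rw [e5]
  have h8 : 0 ≤ s ^ 2 - t := by linarith
  nlinarith [mul_le_mul_of_nonneg_left e6 h8]

end Pool.Agent.Helper98.ComplexLT
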