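import Pool.Agent.Helper98.ComplexLT.Split

namespace Pool.Agent.Helper98.ComplexLT

open MeasureTheory SchwartzMap FourierTransform LineDeriv
open scoped ComplexConjugate SchwartzMap ENNReal

lemma geom_bound {s P : ℝ} (hs : 0 < s) (hP : 0 < P) (N : ℕ) :
    ∑ l ∈ Finset.range N, (if (2 : ℝ) ^ l * s < P then (2 : ℝ) ^ (l + 1) * s else 0) ≤ 4 * P := by
  have h1 : ∀ N : ℕ, ∑ l ∈ Finset.range N,
      (if (2 : ℝ) ^ l * s < P then (2 : ℝ) ^ (l + 1) * s else 0) ≤ 2 ^ (N + 1) * s := by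
    intro N
    induction N with
    | zero => simp; exact hs.le
    | succ N ih =>
      rw [Finset.sum_range_succ]
      split_ifs
      · calc _ ≤ 2 ^ (N + 1) * s + 2 ^ (N + 1) * s := by gcongr
          _ = _ := by ring
      · have : (0 : ℝ) ≤ 2 ^ (N + 1) * s := by positivity
        calc _ ≤ 2 ^ (N + 1) * s + 0 := by gcongr
          _ ≤ 2 ^ (N + 1) * s + 2 ^ (N + 1) * s := by gcongr
          _ = _ := by ring
  induction N with
  | zero => simp; exact hP.le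
  | succ N ih =>
    rw [Finset.sum_range_succ]
    split_ifs with h
    · calc _ ≤ 2 ^ (N + 1) * s + 2 ^ (N + 1) * s := by gcongr; exact h1 N
        _ = 4 * (2 ^ N * s) := by ring
        _ ≤ 4 * P := by gcongr
    · linarith

lemma geom_tsum {s P : ℝ} (hs : 0 < s) (hP : 0 < P) :
    ∑' l : ℕ, (if (2 : ℝ) ^ l * s < P then ENNReal.ofReal ((2 : ℝ) ^ (l + 1) * s) else 0)
      ≤ ENNReal.ofReal (4 * P) := by
  rw [ENNReal.tsum_eq_iSup_nat]
  apply iSup_le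
  intro N
  have h : ∑ l ∈ Finset.range N,
      (if (2 : ℝ) ^ l * s < P then ENNReal.ofReal ((2 : ℝ) ^ (l + 1) * s) else 0)
      = ENNReal.ofReal (∑ l ∈ Finset.range N,
        (if (2 : ℝ) ^ l * s < P then (2 : ℝ) ^ (l + 1) * s else 0)) := by
    rw [ENNReal.ofReal_sum_of_nonneg]
    · apply Finset.sum_congr rfl
      intro l _
      split_ifs <;> simp
    · intro l _
      split_ifs <;> positivity
  rw [h]
  exact ENNReal.ofReal_le_ofReal (geom_bound hs hP N)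

/-- dyadic level sets -/
def lev (W : ℝ → ℝ) (s : ℝ) (l : ℕ) : Set ℝ := {x | (2 : ℝ) ^ l * s ≤ W x ∧ W x < (2 : ℝ) ^ (l + 1) * s}

lemma lev_meas {W : ℝ → ℝ} (hW : Measurable W) (s : ℝ) (l : ℕ) : MeasurableSet (lev W s l) :=
  (measurableSet_le measurable_const hW).inter (measurableSet_lt hW measurable_const)

lemma lev_cover {W : ℝ → ℝ} {s : ℝ} (hs : 0 < s) (x : ℝ) (hx : s ≤ W x) :
    ∃ l, x ∈ lev W s l := by
  obtain ⟨n, h1, h2⟩ := exists_nat_pow_near (x := W x / s) (y := 2)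
    (by rw [le_div_iff₀ hs]; linarith) (by norm_num)
  exact ⟨n, by rwa [le_div_iff₀ hs] at h1, by rwa [div_lt_iff₀ hs] at h2⟩

lemma lev_disjoint (W : ℝ → ℝ) {s : ℝ} (hs : 0 < s) :
    Pairwise (Function.onFun Disjoint (lev W s)) := by
  intro i j hij
  rw [Function.onFun, Set.disjoint_left]
  intro x h1 h2
  rcases lt_or_gt_of_ne hij with h | h
  · have h3 : (2 : ℝ) ^ (i + 1) * s ≤ 2 ^ j * s := by
      gcongr
      · norm_num
      · omega
    linarith [h1.2, h2.1]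
  · have h3 : (2 : ℝ) ^ (j + 1) * s ≤ 2 ^ i * s := by
      gcongr
      · norm_num
      · omega
    linarith [h2.2, h1.1]

lemma enorm_add_sq_le (a b : ℂ) : ‖a + b‖ₑ ^ 2 ≤ 2 * ‖a‖ₑ ^ 2 + 2 * ‖b‖ₑ ^ 2 := by
  have h : ‖a + b‖ ^ 2 ≤ 2 * ‖a‖ ^ 2 + 2 * ‖b‖ ^ 2 := by
    have h1 : ‖a + b‖ ≤ ‖a‖ + ‖b‖ := norm_add_le a b
    nlinarith [norm_nonneg (a + b), norm_nonneg a, norm_nonneg b, sq_nonneg (‖a‖ - ‖b‖)]
  rw [← ofReal_norm, ← ofReal_norm, ← ofReal_norm]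
  rw [← ENNReal.ofReal_pow (norm_nonneg _), ← ENNReal.ofReal_pow (norm_nonneg _),
    ← ENNReal.ofReal_pow (norm_nonneg _)]
  have h2 : (2 : ℝ≥0∞) = ENNReal.ofReal 2 := by simp
  rw [h2, ← ENNReal.ofReal_mul (by norm_num), ← ENNReal.ofReal_mul (by norm_num),
    ← ENNReal.ofReal_add (by positivity) (by positivity)]
  exact ENNReal.ofReal_le_ofReal h

lemma high_sum {s : ℝ} (hs : 0 < s) {f v : L2} (h : IsHalf s f v) :
    ∑' l : ℕ, ENNReal.ofReal ((2 : ℝ) ^ (l + 1) * s) *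
      (∫⁻ x, ‖(fhigh s ((2 : ℝ) ^ l * s) f) x‖ₑ ^ 2) ≤ 4 * ‖v‖ₑ ^ 2 := by
  have hmeas : ∀ l : ℕ, AEMeasurable (fun ξ => (lowSet s ((2 : ℝ) ^ l * s))ᶜ.indicator
      (fun ξ => ENNReal.ofReal (Psym s ξ)⁻¹ * ‖v ξ‖ₑ ^ 2) ξ) volume := by
    intro l
    have h1 : AEMeasurable (fun ξ => ENNReal.ofReal (Psym s ξ)⁻¹) volume :=
      ((Psym_inv_cont hs).measurable.ennreal_ofReal).aemeasurable
    have h2 : AEMeasurable (fun ξ => ‖v ξ‖ₑ ^ 2) volume := (Lp.memLp v).1.enorm.pow_const 2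
    exact (h1.mul h2).indicator (lowSet_meas s _).compl
  simp_rw [high_mass hs _ h]
  have h1 : ∀ l : ℕ, ENNReal.ofReal ((2 : ℝ) ^ (l + 1) * s) *
      ∫⁻ ξ, (lowSet s ((2 : ℝ) ^ l * s))ᶜ.indicator
        (fun ξ => ENNReal.ofReal (Psym s ξ)⁻¹ * ‖v ξ‖ₑ ^ 2) ξ
      = ∫⁻ ξ, ENNReal.ofReal ((2 : ℝ) ^ (l + 1) * s) * (lowSet s ((2 : ℝ) ^ l * s))ᶜ.indicator
        (fun ξ => ENNReal.ofReal (Psym s ξ)⁻¹ * ‖v ξ‖ₑ ^ 2) ξ := by
    intro l
    rw [lintegral_const_mul' _ _ ENNReal.ofReal_ne_top]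
  simp_rw [h1]
  rw [← lintegral_tsum (fun l => (hmeas l).const_mul _), ← lintegral_sq_eq_norm v,
    ← lintegral_const_mul' _ _ (by simp)]
  apply lintegral_mono
  intro ξ
  have hP := Psym_pos hs ξ
  have h2 : ∀ l : ℕ, ENNReal.ofReal ((2 : ℝ) ^ (l + 1) * s) * (lowSet s ((2 : ℝ) ^ l * s))ᶜ.indicator
        (fun ξ => ENNReal.ofReal (Psym s ξ)⁻¹ * ‖v ξ‖ₑ ^ 2) ξ
      = (if (2 : ℝ) ^ l * s < Psym s ξ then ENNReal.ofReal ((2 : ℝ) ^ (l + 1) * s) else 0)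
        * (ENNReal.ofReal (Psym s ξ)⁻¹ * ‖v ξ‖ₑ ^ 2) := by
    intro l
    by_cases hl : (2 : ℝ) ^ l * s < Psym s ξ
    · rw [if_pos hl, Set.indicator_of_mem]
      simp only [lowSet, Set.mem_compl_iff, Set.mem_ofPred_eq, not_le]; exact hl
    · rw [if_neg hl, Set.indicator_of_notMem, mul_zero, zero_mul]
      simp only [lowSet, Set.mem_compl_iff, Set.mem_ofPred_eq, not_not]; exact not_lt.mp hl
  simp_rw [h2]
  rw [ENNReal.tsum_mul_right]
  calc _ ≤ ENNReal.ofReal (4 * Psym s ξ) * (ENNReal.ofReal (Psym s ξ)⁻¹ * ‖v ξ‖ₑ ^ 2) := by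
        gcongr; exact geom_tsum hs hP
    _ = 4 * ‖v ξ‖ₑ ^ 2 := by
        rw [← mul_assoc, ← ENNReal.ofReal_mul (by positivity)]
        congr 1
        rw [mul_assoc, mul_inv_cancel₀ hP.ne', mul_one]
        simp

theorem density_bound {s ε : ℝ} (hs : 0 < s) (hε : 0 < ε) {W : ℝ → ℝ} (hW : Measurable W)
    (hW0 : ∀ x, 0 ≤ W x) {ι : Type*} [Fintype ι]
    {v : ι → L2} (hv : ∀ z : L2, ∑ i, ‖(inner ℂ z (v i) : ℂ)‖ ^ 2 ≤ ‖z‖ ^ 2)
    {f : ι → L2} (h : ∀ i, IsHalf s (f i) (v i)) :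
    ∫⁻ x, ENNReal.ofReal (W x) * ∑ i, ‖(f i) x‖ₑ ^ 2
      ≤ 9 * (∑ i, ‖v i‖ₑ ^ 2)
        + 2 * ∫⁻ x in {x | s ≤ W x}, ENNReal.ofReal (W x * (cEps ε * (W x / s) ^ ε)) := by
  set F : ℝ → ℝ≥0∞ := fun x => ENNReal.ofReal (W x) * ∑ i, ‖(f i) x‖ₑ ^ 2 with hF
  set X0 : Set ℝ := {x | W x < s} with hX0
  have hX0m : MeasurableSet X0 := measurableSet_lt hW measurable_const
  have hfm : ∀ g : L2, AEMeasurable (fun x => ‖g x‖ₑ ^ 2) volume := fun g =>
    (Lp.memLp g).1.enorm.pow_const 2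
  have hFm : AEMeasurable F volume := by
    apply AEMeasurable.mul hW.ennreal_ofReal.aemeasurable
    exact Finset.aemeasurable_fun_sum _ (fun i _ => hfm (f i))
  have hcov : ∀ x, F x ≤ X0.indicator F x + ∑' l, (lev W s l).indicator F x := by
    intro x
    by_cases hx : W x < s
    · rw [Set.indicator_of_mem (show x ∈ X0 from hx)]
      exact le_self_add
    · obtain ⟨l, hl⟩ := lev_cover hs x (not_lt.mp hx)
      calc F x = (lev W s l).indicator F x := by rw [Set.indicator_of_mem hl]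
        _ ≤ ∑' l, (lev W s l).indicator F x := ENNReal.le_tsum l
        _ ≤ _ := le_add_self
  have hstep1 : ∫⁻ x, F x ≤ (∫⁻ x in X0, F x) + ∑' l, ∫⁻ x in lev W s l, F x := by
    calc ∫⁻ x, F x ≤ ∫⁻ x, (X0.indicator F x + ∑' l, (lev W s l).indicator F x) :=
          lintegral_mono hcov
      _ = _ := by
          rw [lintegral_add_left' (hFm.indicator hX0m),
            lintegral_tsum (fun l => hFm.indicator (lev_meas hW s l)), lintegral_indicator hX0m]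
          congr 2
          ext l
          rw [lintegral_indicator (lev_meas hW s l)]
  have hstep2 : (∫⁻ x in X0, F x) ≤ ∑ i, ‖v i‖ₑ ^ 2 := by
    calc (∫⁻ x in X0, F x) ≤ ∫⁻ x in X0, ENNReal.ofReal s * ∑ i, ‖(f i) x‖ₑ ^ 2 := by
          apply setLIntegral_mono_ae' hX0m
          filter_upwards with x hx
          simp only [hF]
          gcongr
          exact le_of_lt hx
      _ ≤ ∫⁻ x, ENNReal.ofReal s * ∑ i, ‖(f i) x‖ₑ ^ 2 := setLIntegral_le_lintegral _ _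
      _ = ENNReal.ofReal s * ∑ i, ∫⁻ x, ‖(f i) x‖ₑ ^ 2 := by
          rw [lintegral_const_mul' _ _ (by simp), lintegral_finsetSum' _ (fun i _ => hfm (f i))]
      _ = ∑ i, ENNReal.ofReal s * ∫⁻ x, ‖(f i) x‖ₑ ^ 2 := by rw [Finset.mul_sum]
      _ ≤ _ := Finset.sum_le_sum (fun i _ => total_mass hs (h i))
  have hstep3 : ∀ l : ℕ, (∫⁻ x in lev W s l, F x)
      ≤ 2 * (∫⁻ x in lev W s l, ENNReal.ofReal (W x * (cEps ε * (W x / s) ^ ε)))
        + 2 * ∑ i, (ENNReal.ofReal ((2 : ℝ) ^ (l + 1) * s) *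
            (∫⁻ x, ‖(fhigh s ((2 : ℝ) ^ l * s) (f i)) x‖ₑ ^ 2)) := by
    intro l
    set e : ℝ := (2 : ℝ) ^ l * s with he
    have he0 : 0 ≤ e := by positivity
    have hae : ∀ᵐ x, ∀ i, (f i) x = (flow s e (f i)) x + (fhigh s e (f i)) x := by
      rw [ae_all_iff]
      intro i
      have h1 := Lp.coeFn_add (flow s e (f i)) (fhigh s e (f i))
      rw [flow_add_fhigh] at h1
      filter_upwards [h1] with x hx
      rw [hx]; rfl
    have hlow := low_density hs e hv h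
    calc (∫⁻ x in lev W s l, F x)
        ≤ ∫⁻ x in lev W s l, (2 * ENNReal.ofReal (W x * (cEps ε * (W x / s) ^ ε))
          + 2 * ∑ i, (ENNReal.ofReal ((2 : ℝ) ^ (l + 1) * s) * ‖(fhigh s e (f i)) x‖ₑ ^ 2)) := by
          apply setLIntegral_mono_ae' (lev_meas hW s l)
          filter_upwards [hae, hlow] with x hx hx2 hxl
          have hWe : e ≤ W x := hxl.1
          have hB : Bfun s e ≤ cEps ε * (W x / s) ^ ε := by
            refine (Bfun_le hs hε he0).trans ?_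
            gcongr
            exact cEps_nonneg ε
          calc F x = ENNReal.ofReal (W x) * ∑ i, ‖(flow s e (f i)) x + (fhigh s e (f i)) x‖ₑ ^ 2 := by
                simp only [hF]
                simp_rw [← hx]
            _ ≤ ENNReal.ofReal (W x) * ∑ i, (2 * ‖(flow s e (f i)) x‖ₑ ^ 2
                  + 2 * ‖(fhigh s e (f i)) x‖ₑ ^ 2) := by
                gcongr with i _
                exact enorm_add_sq_le _ _
            _ = 2 * (ENNReal.ofReal (W x) * ∑ i, ‖(flow s e (f i)) x‖ₑ ^ 2)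
                + 2 * ∑ i, (ENNReal.ofReal (W x) * ‖(fhigh s e (f i)) x‖ₑ ^ 2) := by
                rw [Finset.sum_add_distrib, ← Finset.mul_sum, ← Finset.mul_sum, mul_add,
                  ← Finset.mul_sum]
                ring
            _ ≤ 2 * (ENNReal.ofReal (W x) * ENNReal.ofReal (cEps ε * (W x / s) ^ ε))
                + 2 * ∑ i, (ENNReal.ofReal ((2 : ℝ) ^ (l + 1) * s) * ‖(fhigh s e (f i)) x‖ₑ ^ 2) := by
                gcongr with i _
                · exact hx2.trans (ENNReal.ofReal_le_ofReal hB)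
                · exact hxl.2.le
            _ = _ := by rw [← ENNReal.ofReal_mul (hW0 x)]
      _ = (∫⁻ x in lev W s l, 2 * ENNReal.ofReal (W x * (cEps ε * (W x / s) ^ ε)))
          + ∫⁻ x in lev W s l, 2 * ∑ i, (ENNReal.ofReal ((2 : ℝ) ^ (l + 1) * s)
            * ‖(fhigh s e (f i)) x‖ₑ ^ 2) := by
          rw [lintegral_add_left']
          apply AEMeasurable.const_mul
          apply Measurable.aemeasurable
          fun_prop
      _ ≤ 2 * (∫⁻ x in lev W s l, ENNReal.ofReal (W x * (cEps ε * (W x / s) ^ ε)))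
          + ∫⁻ x, 2 * ∑ i, (ENNReal.ofReal ((2 : ℝ) ^ (l + 1) * s)
            * ‖(fhigh s e (f i)) x‖ₑ ^ 2) := by
          rw [lintegral_const_mul' _ _ (by simp)]
          exact add_le_add_right (setLIntegral_le_lintegral _ _) _
      _ = _ := by
          congr 1
          rw [lintegral_const_mul' _ _ (by simp),
            lintegral_finsetSum' _ (fun i _ => (hfm _).const_mul _)]
          congr 1
          apply Finset.sum_congr rfl
          intro i _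
          rw [lintegral_const_mul' _ _ ENNReal.ofReal_ne_top]
  have hstep4 : ∑' l, (∫⁻ x in lev W s l, ENNReal.ofReal (W x * (cEps ε * (W x / s) ^ ε)))
      ≤ ∫⁻ x in {x | s ≤ W x}, ENNReal.ofReal (W x * (cEps ε * (W x / s) ^ ε)) := by
    rw [← lintegral_iUnion (lev_meas hW s) (lev_disjoint W hs)]
    apply lintegral_mono_set
    intro x hx
    simp only [Set.mem_iUnion] at hx
    obtain ⟨l, hl⟩ := hx
    have h2 : (1 : ℝ) ≤ 2 ^ l := one_le_pow₀ (by norm_num)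
    have h3 : s ≤ 2 ^ l * s := by nlinarith
    exact h3.trans hl.1
  have hstep5 : ∑' l : ℕ, ∑ i, (ENNReal.ofReal ((2 : ℝ) ^ (l + 1) * s) *
            (∫⁻ x, ‖(fhigh s ((2 : ℝ) ^ l * s) (f i)) x‖ₑ ^ 2)) ≤ 4 * ∑ i, ‖v i‖ₑ ^ 2 := by
    rw [Summable.tsum_finsetSum (fun i _ => ENNReal.summable), Finset.mul_sum]
    exact Finset.sum_le_sum (fun i _ => high_sum hs (h i))
  calc ∫⁻ x, F x ≤ (∫⁻ x in X0, F x) + ∑' l, ∫⁻ x in lev W s l, F x := hstep1
    _ ≤ (∑ i, ‖v i‖ₑ ^ 2) + ∑' l : ℕ, (2 * (∫⁻ x in lev W s l,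
          ENNReal.ofReal (W x * (cEps ε * (W x / s) ^ ε)))
        + 2 * ∑ i, (ENNReal.ofReal ((2 : ℝ) ^ (l + 1) * s) *
            (∫⁻ x, ‖(fhigh s ((2 : ℝ) ^ l * s) (f i)) x‖ₑ ^ 2))) := by
        gcongr with l
        exact hstep3 l
    _ = (∑ i, ‖v i‖ₑ ^ 2) + (2 * (∑' l : ℕ, ∫⁻ x in lev W s l,
          ENNReal.ofReal (W x * (cEps ε * (W x / s) ^ ε)))
        + 2 * ∑' l : ℕ, ∑ i, (ENNReal.ofReal ((2 : ℝ) ^ (l + 1) * s) *
            (∫⁻ x, ‖(fhigh s ((2 : ℝ) ^ l * s) (f i)) x‖ₑ ^ 2))) := by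
        rw [ENNReal.tsum_add, ENNReal.tsum_mul_left, ENNReal.tsum_mul_left]
    _ ≤ (∑ i, ‖v i‖ₑ ^ 2) + (2 * (∫⁻ x in {x | s ≤ W x},
          ENNReal.ofReal (W x * (cEps ε * (W x / s) ^ ε)))
        + 2 * (4 * ∑ i, ‖v i‖ₑ ^ 2)) := by gcongr
    _ = _ := by ring

end Pool.Agent.Helper98.ComplexLT
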