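import Pool.Agent.Helper98.ComplexLT.FiniteSum

namespace Pool.Agent.Helper98.ComplexLT

open MeasureTheory Set
open scoped ENNReal ComplexConjugate Pointwise

lemma cUp_nonneg {γ σ : ℝ} (hσ : 1 / 2 < σ) (hσγ : σ < γ) : 0 ≤ cUp γ σ := by
  unfold cUp
  exact div_nonneg (div_nonneg (cEps_nonneg _) (by linarith)) (by linarith)

lemma weight_mono {γ σ σ' : ℝ} (hσ' : σ' ≤ σ) (h1 : 0 < γ + σ') {E : ℂ} (hE : E ≠ 0) :
    ‖E‖ ^ (-σ) * distPos E ^ (γ + σ) ≤ ‖E‖ ^ (-σ') * distPos E ^ (γ + σ') := by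
  have hn : 0 < ‖E‖ := norm_pos_iff.mpr hE
  rcases (distPos_nonneg E).eq_or_lt with h0 | hd
  · rw [← h0, Real.zero_rpow (by linarith), Real.zero_rpow (by linarith)]; simp
  have e : ∀ s : ℝ, ‖E‖ ^ (-s) * distPos E ^ (γ + s) = distPos E ^ γ * (distPos E / ‖E‖) ^ s := by
    intro s
    rw [Real.rpow_add hd, Real.div_rpow hd.le hn.le, Real.rpow_neg hn.le]
    ring
  rw [e, e]
  gcongr ?_ * ?_
  apply Real.rpow_le_rpow_of_exponent_ge (by positivity) _ hσ'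
  rw [div_le_one hn]
  exact distPos_le_norm E

theorem finite_sum_one' {γ σ : ℝ} (hγ : 1 / 2 < γ) (hσ : 1 / 2 < σ) :
    ∃ C : ℝ, 0 ≤ C ∧ ∀ V : ℝ → ℂ, Measurable V → ∀ (S : Finset ℂ) (m : ℂ → ℕ),
      (∀ E ∈ S, (m E : ℕ∞) ≤ algMult 1 V E) → (∀ E ∈ S, E ≠ 0) →
      ∑ E ∈ S, (m E : ℝ≥0∞) * ENNReal.ofReal (‖E‖ ^ (-σ) * distPos E ^ (γ + σ))
        ≤ ENNReal.ofReal C * ∫⁻ x, ENNReal.ofReal (‖V x‖ ^ (γ + 1 / 2)) := by
  set σ' : ℝ := min σ ((γ + 1 / 2) / 2) with hσ'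
  have h1 : 1 / 2 < σ' := lt_min hσ (by linarith)
  have h2 : σ' < γ := (min_le_right _ _).trans_lt (by linarith)
  have h3 : σ' ≤ σ := min_le_left _ _
  have hc : 0 < cLow γ σ' := cLow_pos h2 (by linarith)
  have hu : 0 ≤ cUp γ σ' := cUp_nonneg h1 h2
  refine ⟨2 * cUp γ σ' / cLow γ σ', by positivity, ?_⟩
  intro V hV S m hm h0
  have hmain := finite_sum_one h1 h2 hV S m hm h0
  have hI : ∫⁻ x, ENNReal.ofReal (cUp γ σ' * ‖V x‖ ^ (γ + 1 / 2))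
      = ENNReal.ofReal (cUp γ σ') * ∫⁻ x, ENNReal.ofReal (‖V x‖ ^ (γ + 1 / 2)) := by
    rw [← lintegral_const_mul' _ _ ENNReal.ofReal_ne_top]
    apply lintegral_congr
    intro x
    rw [ENNReal.ofReal_mul hu]
  rw [hI] at hmain
  have hL : ∑ E ∈ S, (m E : ℝ≥0∞) *
        ENNReal.ofReal (cLow γ σ' * (‖E‖ ^ (-σ') * distPos E ^ (γ + σ')))
      = ENNReal.ofReal (cLow γ σ') * ∑ E ∈ S, (m E : ℝ≥0∞) *
        ENNReal.ofReal (‖E‖ ^ (-σ') * distPos E ^ (γ + σ')) := by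
    rw [Finset.mul_sum]
    apply Finset.sum_congr rfl
    intro E _
    rw [ENNReal.ofReal_mul hc.le]; ring
  rw [hL] at hmain
  have hc0 : ENNReal.ofReal (cLow γ σ') ≠ 0 := by
    rw [Ne, ENNReal.ofReal_eq_zero]; linarith
  calc ∑ E ∈ S, (m E : ℝ≥0∞) * ENNReal.ofReal (‖E‖ ^ (-σ) * distPos E ^ (γ + σ))
      ≤ ∑ E ∈ S, (m E : ℝ≥0∞) * ENNReal.ofReal (‖E‖ ^ (-σ') * distPos E ^ (γ + σ')) := by
        apply Finset.sum_le_sum
        intro E hE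
        exact mul_le_mul' le_rfl (ENNReal.ofReal_le_ofReal (weight_mono h3 (by linarith) (h0 E hE)))
    _ = (ENNReal.ofReal (cLow γ σ'))⁻¹ * (ENNReal.ofReal (cLow γ σ') *
          ∑ E ∈ S, (m E : ℝ≥0∞) * ENNReal.ofReal (‖E‖ ^ (-σ') * distPos E ^ (γ + σ'))) := by
        rw [← mul_assoc, ENNReal.inv_mul_cancel hc0 ENNReal.ofReal_ne_top, one_mul]
    _ ≤ (ENNReal.ofReal (cLow γ σ'))⁻¹ * (2 * (ENNReal.ofReal (cUp γ σ') *
          ∫⁻ x, ENNReal.ofReal (‖V x‖ ^ (γ + 1 / 2)))) := by gcongr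
    _ = _ := by
        rw [← ENNReal.ofReal_inv_of_pos hc]
        rw [show (2 * cUp γ σ' / cLow γ σ') = (cLow γ σ')⁻¹ * (2 * cUp γ σ') by ring,
          ENNReal.ofReal_mul (by positivity), ENNReal.ofReal_mul (by norm_num : (0 : ℝ) ≤ 2)]
        rw [show ENNReal.ofReal 2 = 2 by simp]
        ring

/-! ### dependence on the potential and scaling -/

lemma HGraph.congr {ħ : ℝ} {V W : ℝ → ℂ} (hVW : V =ᵐ[volume] W) {u g : L2}
    (h : HGraph ħ V u g) : HGraph ħ W u g := by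
  obtain ⟨u', hu, hf⟩ := h
  refine ⟨u', hu, ?_⟩
  intro φ φ' hφ
  obtain ⟨i, e⟩ := hf φ φ' hφ
  have hae : (fun x => V x * u x * conj (φ x)) =ᵐ[volume] fun x => W x * u x * conj (φ x) := by
    filter_upwards [hVW] with x hx
    rw [hx]
  exact ⟨i.congr hae, by rw [← integral_congr_ae hae]; exact e⟩

lemma genSpace_congr_le {ħ : ℝ} {V W : ℝ → ℂ} (hVW : V =ᵐ[volume] W) (E : ℂ) (k : ℕ) :
    genSpace ħ V E k ≤ genSpace ħ W E k := by
  induction k with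
  | zero => exact le_refl _
  | succ k ih =>
    rintro u ⟨g, hg, hg'⟩
    exact ⟨g, hg.congr hVW, ih hg'⟩

lemma algMult_congr {ħ : ℝ} {V W : ℝ → ℂ} (hVW : V =ᵐ[volume] W) (E : ℂ) :
    algMult ħ V E = algMult ħ W E := by
  unfold algMult
  have : genSpace ħ V E = genSpace ħ W E := funext fun k =>
    le_antisymm (genSpace_congr_le hVW E k) (genSpace_congr_le hVW.symm E k)
  rw [this]

lemma HGraph.scale {ħ : ℝ} (hħ : 0 < ħ) {V : ℝ → ℂ} {u g : L2} (h : HGraph ħ V u g) :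
    HGraph 1 (fun x => ((ħ : ℂ) ^ 2)⁻¹ * V x) u (((ħ : ℂ) ^ 2)⁻¹ • g) := by
  have hc : (ħ : ℂ) ^ 2 ≠ 0 := pow_ne_zero _ (by exact_mod_cast hħ.ne')
  obtain ⟨u', hu, hf⟩ := h
  refine ⟨u', hu, ?_⟩
  intro φ φ' hφ
  obtain ⟨i, e⟩ := hf φ φ' hφ
  have hfun : (fun x => ((ħ : ℂ) ^ 2)⁻¹ * V x * u x * conj (φ x))
      = fun x => ((ħ : ℂ) ^ 2)⁻¹ * (V x * u x * conj (φ x)) := by
    ext x; ring
  have hg : ∫ x, (((ħ : ℂ) ^ 2)⁻¹ • g : L2) x * conj (φ x)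
      = ((ħ : ℂ) ^ 2)⁻¹ * ∫ x, g x * conj (φ x) := by
    rw [← integral_const_mul]
    apply integral_congr_ae
    filter_upwards [Lp.coeFn_smul (((ħ : ℂ) ^ 2)⁻¹) g] with x hx
    rw [hx, Pi.smul_apply, smul_eq_mul]; ring
  refine ⟨by rw [hfun]; exact i.const_mul _, ?_⟩
  rw [hfun, integral_const_mul, hg, ← e, mul_add, ← mul_assoc, inv_mul_cancel₀ hc]
  simp

lemma HGraph.unscale {ħ : ℝ} (hħ : 0 < ħ) {V : ℝ → ℂ} {u g : L2}
    (h : HGraph 1 (fun x => ((ħ : ℂ) ^ 2)⁻¹ * V x) u g) :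
    HGraph ħ V u (((ħ : ℂ) ^ 2) • g) := by
  have hc : (ħ : ℂ) ^ 2 ≠ 0 := pow_ne_zero _ (by exact_mod_cast hħ.ne')
  obtain ⟨u', hu, hf⟩ := h
  refine ⟨u', hu, ?_⟩
  intro φ φ' hφ
  obtain ⟨i, e⟩ := hf φ φ' hφ
  have hfun : (fun x => V x * u x * conj (φ x))
      = fun x => ((ħ : ℂ) ^ 2) * (((ħ : ℂ) ^ 2)⁻¹ * V x * u x * conj (φ x)) := by
    ext x
    rw [← mul_assoc, ← mul_assoc, ← mul_assoc, mul_inv_cancel₀ hc, one_mul]
  have hg : ∫ x, (((ħ : ℂ) ^ 2) • g : L2) x * conj (φ x)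
      = ((ħ : ℂ) ^ 2) * ∫ x, g x * conj (φ x) := by
    rw [← integral_const_mul]
    apply integral_congr_ae
    filter_upwards [Lp.coeFn_smul ((ħ : ℂ) ^ 2) g] with x hx
    rw [hx, Pi.smul_apply, smul_eq_mul]; ring
  refine ⟨by rw [hfun]; exact i.const_mul _, ?_⟩
  rw [hfun, integral_const_mul, hg, ← e]
  simp only [Complex.ofReal_one, one_pow, one_mul]
  ring

lemma genSpace_scale {ħ : ℝ} (hħ : 0 < ħ) (V : ℝ → ℂ) (E : ℂ) (k : ℕ) :
    genSpace ħ V E k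
      = genSpace 1 (fun x => ((ħ : ℂ) ^ 2)⁻¹ * V x) (((ħ : ℂ) ^ 2)⁻¹ * E) k := by
  have hc : (ħ : ℂ) ^ 2 ≠ 0 := pow_ne_zero _ (by exact_mod_cast hħ.ne')
  induction k with
  | zero => rfl
  | succ k ih =>
    ext u
    constructor
    · rintro ⟨g, hg, hg'⟩
      refine ⟨((ħ : ℂ) ^ 2)⁻¹ • g, hg.scale hħ, ?_⟩
      rw [← ih]
      have : ((ħ : ℂ) ^ 2)⁻¹ • g - (((ħ : ℂ) ^ 2)⁻¹ * E) • u = ((ħ : ℂ) ^ 2)⁻¹ • (g - E • u) := by
        rw [smul_sub, smul_smul]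
      rw [this]
      exact Submodule.smul_mem _ _ hg'
    · rintro ⟨g, hg, hg'⟩
      refine ⟨((ħ : ℂ) ^ 2) • g, hg.unscale hħ, ?_⟩
      rw [← ih] at hg'
      have : ((ħ : ℂ) ^ 2) • g - E • u
          = ((ħ : ℂ) ^ 2) • (g - (((ħ : ℂ) ^ 2)⁻¹ * E) • u) := by
        rw [smul_sub, smul_smul, ← mul_assoc, mul_inv_cancel₀ hc, one_mul]
      rw [this]
      exact Submodule.smul_mem _ _ hg'

lemma algMult_scale {ħ : ℝ} (hħ : 0 < ħ) (V : ℝ → ℂ) (E : ℂ) :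
    algMult ħ V E = algMult 1 (fun x => ((ħ : ℂ) ^ 2)⁻¹ * V x) (((ħ : ℂ) ^ 2)⁻¹ * E) := by
  unfold algMult
  have : genSpace ħ V E
      = genSpace 1 (fun x => ((ħ : ℂ) ^ 2)⁻¹ * V x) (((ħ : ℂ) ^ 2)⁻¹ * E) :=
    funext (genSpace_scale hħ V E)
  rw [this]

lemma distPos_smul {c : ℝ} (hc : 0 < c) (E : ℂ) : distPos ((c : ℂ) * E) = c * distPos E := by
  unfold distPos
  have h1 : {z : ℂ | 0 ≤ z.re ∧ z.im = 0} = (c : ℂ) • {z : ℂ | 0 ≤ z.re ∧ z.im = 0} := by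
    have hc' : (c : ℂ) ≠ 0 := by exact_mod_cast hc.ne'
    ext z
    rw [Set.mem_smul_set_iff_inv_smul_mem₀ hc']
    simp only [Set.mem_ofPred_eq, smul_eq_mul]
    have h2 : ((c : ℂ)⁻¹ * z).re = c⁻¹ * z.re := by
      rw [← Complex.ofReal_inv, Complex.re_ofReal_mul]
    have h3 : ((c : ℂ)⁻¹ * z).im = c⁻¹ * z.im := by
      rw [← Complex.ofReal_inv, Complex.im_ofReal_mul]
    rw [h2, h3]
    constructor
    · rintro ⟨a, b⟩
      exact ⟨by positivity, by rw [b, mul_zero]⟩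
    · rintro ⟨a, b⟩
      refine ⟨?_, ?_⟩
      · have := mul_nonneg hc.le a
        rwa [← mul_assoc, mul_inv_cancel₀ hc.ne', one_mul] at this
      · have := congrArg (fun t => c * t) b
        simp only [mul_zero] at this
        rwa [← mul_assoc, mul_inv_cancel₀ hc.ne', one_mul] at this
  nth_rewrite 1 [h1]
  rw [← smul_eq_mul, infDist_smul₀ (by exact_mod_cast hc.ne'), Complex.norm_real,
    Real.norm_of_nonneg hc.le]


/-! ### infinite sums -/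

lemma enat_eq_iSup (a : ℕ∞) :
    (a : ℝ≥0∞) = ⨆ n : ℕ, (((min (n : ℕ∞) a).toNat : ℕ) : ℝ≥0∞) := by
  apply le_antisymm
  · induction a using ENat.recTopCoe with
    | top =>
      have h1 : ∀ n : ℕ, (((min (n : ℕ∞) ⊤).toNat : ℕ) : ℝ≥0∞) = (n : ℝ≥0∞) := by
        intro n; simp
      simp_rw [h1]
      rw [ENNReal.iSup_natCast]
      exact le_top
    | coe k =>
      apply le_iSup_of_le k
      simp
  · apply iSup_le
    intro n
    have h1 : (((min (n : ℕ∞) a).toNat : ℕ) : ℕ∞) ≤ a := by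
      have h2 : (((min (n : ℕ∞) a).toNat : ℕ) : ℕ∞) = min (n : ℕ∞) a := by
        apply ENat.natCast_toNat
        exact ne_top_of_le_ne_top (ENat.natCast_ne_top n) (min_le_left _ _)
      rw [h2]; exact min_le_right _ _
    have h3 : ((((min (n : ℕ∞) a).toNat : ℕ) : ℕ∞) : ℝ≥0∞) ≤ (a : ℝ≥0∞) :=
      ENat.toENNReal_le.mpr h1
    simpa using h3

lemma min_toNat_le (n : ℕ) (a : ℕ∞) : (((min (n : ℕ∞) a).toNat : ℕ) : ℕ∞) ≤ a := by
  have h2 : (((min (n : ℕ∞) a).toNat : ℕ) : ℕ∞) = min (n : ℕ∞) a := by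
    apply ENat.natCast_toNat
    exact ne_top_of_le_ne_top (ENat.natCast_ne_top n) (min_le_left _ _)
  rw [h2]; exact min_le_right _ _

lemma min_toNat_mono (a : ℕ∞) : Monotone fun n : ℕ => (((min (n : ℕ∞) a).toNat : ℕ) : ℝ≥0∞) := by
  intro n k hnk
  have h : (min (n : ℕ∞) a).toNat ≤ (min (k : ℕ∞) a).toNat := by
    apply ENat.toNat_le_toNat
    · gcongr
    · exact ne_top_of_le_ne_top (ENat.natCast_ne_top k) (min_le_left _ _)
  show (((min (n : ℕ∞) a).toNat : ℕ) : ℝ≥0∞) ≤ (((min (k : ℕ∞) a).toNat : ℕ) : ℝ≥0∞)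
  exact_mod_cast h

lemma sum_enat_le {ι : Type*} (S : Finset ι) (a : ι → ℕ∞) (f : ι → ℝ≥0∞) (B : ℝ≥0∞)
    (h : ∀ m : ι → ℕ, (∀ i ∈ S, (m i : ℕ∞) ≤ a i) → ∑ i ∈ S, (m i : ℝ≥0∞) * f i ≤ B) :
    ∑ i ∈ S, (a i : ℝ≥0∞) * f i ≤ B := by
  have h1 : ∀ i, (a i : ℝ≥0∞) * f i
      = ⨆ n : ℕ, (((min (n : ℕ∞) (a i)).toNat : ℕ) : ℝ≥0∞) * f i := by
    intro i
    rw [enat_eq_iSup (a i), ENNReal.iSup_mul]
  simp_rw [h1]
  rw [ENNReal.finsetSum_iSup_of_monotone]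
  · apply iSup_le
    intro n
    exact h (fun i => (min (n : ℕ∞) (a i)).toNat) (fun i _ => min_toNat_le n (a i))
  · intro i n k hnk
    exact mul_le_mul' (min_toNat_mono (a i) hnk) le_rfl

/-- the half line in the complex plane -/
lemma off_ne_zero {E : ℂ} (hE : ¬ (0 ≤ E.re ∧ E.im = 0)) : E ≠ 0 := by
  rintro rfl; apply hE; simp

theorem complex_lt {γ σ : ℝ} (hγ : 1 / 2 < γ) (hσ : 1 / 2 < σ) :
    ∃ C : ℝ, 0 ≤ C ∧ ∀ ħ : ℝ, 0 < ħ → ∀ V : ℝ → ℂ,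
      MemLp V (ENNReal.ofReal (γ + 1 / 2)) volume →
      ∑' E : {E : ℂ // ¬ (0 ≤ E.re ∧ E.im = 0)},
        (algMult ħ V E : ℝ≥0∞) *
          ENNReal.ofReal (‖(E : ℂ)‖ ^ (-σ) * distPos E ^ (γ + σ))
        ≤ ENNReal.ofReal (C * ħ⁻¹ * ∫ x, ‖V x‖ ^ (γ + 1 / 2)) := by
  obtain ⟨C, hC, hmain⟩ := finite_sum_one' hγ hσ
  refine ⟨C, hC, ?_⟩
  intro ħ hħ V hV
  have hp0 : ENNReal.ofReal (γ + 1 / 2) ≠ 0 := by
    rw [Ne, ENNReal.ofReal_eq_zero]; linarith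
  have hpt : (ENNReal.ofReal (γ + 1 / 2)).toReal = γ + 1 / 2 :=
    ENNReal.toReal_ofReal (by linarith)
  have hint : Integrable (fun x => ‖V x‖ ^ (γ + 1 / 2)) volume := by
    have := hV.integrable_norm_rpow hp0 ENNReal.ofReal_ne_top
    rwa [hpt] at this
  -- a measurable representative of the rescaled potential
  set c : ℂ := ((ħ : ℂ) ^ 2)⁻¹ with hc
  have hcR : c = (((ħ ^ 2)⁻¹ : ℝ) : ℂ) := by rw [hc]; push_cast; rfl
  have hcn : ‖c‖ = (ħ ^ 2)⁻¹ := by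
    rw [hcR, Complex.norm_real, Real.norm_of_nonneg (by positivity)]
  set V' : ℝ → ℂ := hV.1.mk V with hV'
  have hVm : Measurable V' := hV.1.stronglyMeasurable_mk.measurable
  have hVV : V =ᵐ[volume] V' := hV.1.ae_eq_mk
  set W : ℝ → ℂ := fun x => c * V' x with hW
  have hWm : Measurable W := hVm.const_mul c
  have halg : ∀ E : ℂ, algMult ħ V E = algMult 1 W (c * E) := by
    intro E
    rw [algMult_congr hVV, algMult_scale hħ]
  have hc0 : c ≠ 0 := by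
    rw [← norm_pos_iff, hcn]; positivity
  rw [ENNReal.tsum_eq_iSup_sum]
  apply iSup_le
  intro S
  apply sum_enat_le S (fun E => algMult ħ V E)
    (fun E => ENNReal.ofReal (‖(E : ℂ)‖ ^ (-σ) * distPos E ^ (γ + σ)))
  intro m hm
  -- transport to the finite set c • S
  classical
  set S' : Finset ℂ :=
    S.image (fun E : {E : ℂ // ¬ (0 ≤ E.re ∧ E.im = 0)} => c * (E : ℂ)) with hS'
  set m' : ℂ → ℕ := fun E => if h : ¬ (0 ≤ (c⁻¹ * E).re ∧ (c⁻¹ * E).im = 0) then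
    m ⟨c⁻¹ * E, h⟩ else 0 with hm'
  have hm'E : ∀ E : {E : ℂ // ¬ (0 ≤ E.re ∧ E.im = 0)}, m' (c * (E : ℂ)) = m E := by
    intro E
    have h1 : c⁻¹ * (c * (E : ℂ)) = E := by rw [← mul_assoc, inv_mul_cancel₀ hc0, one_mul]
    rw [hm']
    simp only [h1]
    rw [dif_pos E.2]
  have hfin := hmain W hWm S' m' (by
      intro E hE
      rw [hS', Finset.mem_image] at hE
      obtain ⟨E', hE', rfl⟩ := hE
      rw [hm'E, ← halg]
      exact hm E' hE') (by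
      intro E hE
      rw [hS', Finset.mem_image] at hE
      obtain ⟨E', hE', rfl⟩ := hE
      exact mul_ne_zero hc0 (off_ne_zero E'.2))
  rw [hS', Finset.sum_image (fun a _ b _ hab => Subtype.ext (mul_left_cancel₀ hc0 hab))] at hfin
  have hterm : ∀ E : ℂ, ‖E‖ ^ (-σ) * distPos E ^ (γ + σ)
      = (ħ ^ (2 * γ)) * (‖c * E‖ ^ (-σ) * distPos (c * E) ^ (γ + σ)) := by
    intro E
    have h2 : distPos (c * E) = (ħ ^ 2)⁻¹ * distPos E := by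
      rw [hcR]; exact distPos_smul (by positivity) E
    rw [h2, norm_mul, hcn, Real.mul_rpow (by positivity) (norm_nonneg _),
      Real.mul_rpow (by positivity) (distPos_nonneg _)]
    have h3 : (ħ ^ (2 * γ)) * (((ħ ^ 2)⁻¹ : ℝ) ^ (-σ) * ((ħ ^ 2)⁻¹ : ℝ) ^ (γ + σ)) = 1 := by
      rw [← Real.rpow_add (by positivity), ← Real.rpow_natCast, ← Real.rpow_neg hħ.le,
        ← Real.rpow_mul hħ.le, ← Real.rpow_add hħ]
      rw [show 2 * γ + -((2 : ℕ) : ℝ) * (-σ + (γ + σ)) = 0 by push_cast; ring, Real.rpow_zero]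
    calc _ = 1 * (‖E‖ ^ (-σ) * distPos E ^ (γ + σ)) := by ring
      _ = _ := by rw [← h3]; ring
  have hγh : (0 : ℝ) ≤ ħ ^ (2 * γ) := by positivity
  calc ∑ i ∈ S, (m i : ℝ≥0∞) * ENNReal.ofReal (‖(i : ℂ)‖ ^ (-σ) * distPos i ^ (γ + σ))
      = ENNReal.ofReal (ħ ^ (2 * γ)) * ∑ i ∈ S, (m' (c * (i : ℂ)) : ℝ≥0∞) *
          ENNReal.ofReal (‖c * (i : ℂ)‖ ^ (-σ) * distPos (c * i) ^ (γ + σ)) := by
        rw [Finset.mul_sum]
        apply Finset.sum_congr rfl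
        intro i _
        rw [hm'E, hterm, ENNReal.ofReal_mul hγh]; ring
    _ ≤ ENNReal.ofReal (ħ ^ (2 * γ)) *
          (ENNReal.ofReal C * ∫⁻ x, ENNReal.ofReal (‖W x‖ ^ (γ + 1 / 2))) := by
        gcongr
    _ = _ := by
        have hWV : ∫⁻ x, ENNReal.ofReal (‖W x‖ ^ (γ + 1 / 2))
            = ENNReal.ofReal (((ħ ^ 2)⁻¹ : ℝ) ^ (γ + 1 / 2)) *
              ENNReal.ofReal (∫ x, ‖V x‖ ^ (γ + 1 / 2)) := by
          rw [ofReal_integral_eq_lintegral_ofReal hint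
              (Filter.Eventually.of_forall fun x => by positivity),
            ← lintegral_const_mul' _ _ ENNReal.ofReal_ne_top]
          apply lintegral_congr_ae
          filter_upwards [hVV] with x hx
          rw [hW]
          simp only
          rw [norm_mul, hcn, ← hx, Real.mul_rpow (by positivity) (norm_nonneg _),
            ENNReal.ofReal_mul (by positivity)]
        rw [hWV, ← ENNReal.ofReal_mul (by positivity), ← ENNReal.ofReal_mul hC,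
          ← ENNReal.ofReal_mul hγh]
        congr 1
        have h4 : (ħ ^ (2 * γ)) * (((ħ ^ 2)⁻¹ : ℝ) ^ (γ + 1 / 2)) = ħ⁻¹ := by
          rw [← Real.rpow_natCast, ← Real.rpow_neg hħ.le, ← Real.rpow_mul hħ.le,
            ← Real.rpow_add hħ]
          rw [show 2 * γ + -((2 : ℕ) : ℝ) * (γ + 1 / 2) = -1 by push_cast; ring,
            Real.rpow_neg_one]
        rw [← h4]; ring

end Pool.Agent.Helper98.ComplexLT
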