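import Pool.Agent.Helper98.ComplexLT.Density

namespace Pool.Agent.Helper98.ComplexLT

open MeasureTheory SchwartzMap FourierTransform LineDeriv
open scoped ComplexConjugate SchwartzMap ENNReal

/-- `f` and `v` are related by `𝓕 f = P^{-1/2} v`. -/
def IsHalf (s : ℝ) (f v : L2) : Prop :=
  (fun ξ => (𝓕 f : L2) ξ) =ᵐ[volume] fun ξ => (((Psym s ξ) ^ (-(1 / 2) : ℝ) : ℝ) : ℂ) * v ξ

lemma flow_ae_eq {s : ℝ} (hs : 0 < s) (e : ℝ) {f v : L2} (h : IsHalf s f v) :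
    (fun x => (flow s e f) x) =ᵐ[volume]
      fun x => inner ℂ ((kern_memLp hs e x).toLp (kern s e x) : L2) v := by
  unfold flow
  filter_upwards [fourierInv_ae_eq _ (cut_low_integrable s e (𝓕 f : L2))] with x hx
  rw [hx, Real.fourierInv_eq', L2.inner_def]
  apply integral_congr_ae
  filter_upwards [coeFn_cut (lowSet s e) (lowSet_meas s e) (𝓕 f : L2), h,
    (kern_memLp hs e x).coeFn_toLp] with ξ h1 h2 h3
  rw [h1, h3]
  by_cases hξ : ξ ∈ lowSet s e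
  · rw [Set.indicator_of_mem hξ, h2, kern, Set.indicator_of_mem hξ]
    simp only [RCLike.inner_apply, map_mul, Complex.conj_ofReal, smul_eq_mul]
    rw [← Complex.exp_conj]
    have : (starRingEnd ℂ) (-(2 * Real.pi * x * ξ * Complex.I))
        = ((2 * Real.pi * (x * ξ) : ℝ) : ℂ) * Complex.I := by
      simp only [map_neg, map_mul, Complex.conj_ofReal, Complex.conj_I, map_ofNat]
      push_cast; ring
    rw [this]
    simp only [conj_trivial]
    ring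
  · rw [Set.indicator_of_notMem hξ, kern, Set.indicator_of_notMem hξ]
    simp

lemma bessel_fst {ι : Type*} [Fintype ι] {b : ι → WithLp 2 (L2 × L2)} (hb : Orthonormal ℂ b)
    (z : L2) : ∑ i, ‖(inner ℂ z (b i).fst : ℂ)‖ ^ 2 ≤ ‖z‖ ^ 2 := by
  have h := hb.sum_inner_products_le (x := WithLp.toLp 2 (z, (0 : L2))) (s := Finset.univ)
  have h2 : ‖(WithLp.toLp 2 (z, (0 : L2)))‖ ^ 2 = ‖z‖ ^ 2 := by
    rw [WithLp.prod_norm_sq_eq_of_L2]; simp
  rw [h2] at h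
  refine le_trans (le_of_eq ?_) h
  apply Finset.sum_congr rfl
  intro i _
  rw [norm_inner_symm]
  simp

lemma bessel_snd {ι : Type*} [Fintype ι] {b : ι → WithLp 2 (L2 × L2)} (hb : Orthonormal ℂ b)
    (z : L2) : ∑ i, ‖(inner ℂ z (b i).snd : ℂ)‖ ^ 2 ≤ ‖z‖ ^ 2 := by
  have h := hb.sum_inner_products_le (x := WithLp.toLp 2 ((0 : L2), z)) (s := Finset.univ)
  have h2 : ‖(WithLp.toLp 2 ((0 : L2), z))‖ ^ 2 = ‖z‖ ^ 2 := by
    rw [WithLp.prod_norm_sq_eq_of_L2]; simp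
  rw [h2] at h
  refine le_trans (le_of_eq ?_) h
  apply Finset.sum_congr rfl
  intro i _
  rw [norm_inner_symm]
  simp

/-- pointwise bound of the low frequency density. -/
lemma low_density {s : ℝ} (hs : 0 < s) (e : ℝ) {ι : Type*} [Fintype ι]
    {v : ι → L2} (hv : ∀ z : L2, ∑ i, ‖(inner ℂ z (v i) : ℂ)‖ ^ 2 ≤ ‖z‖ ^ 2)
    {f : ι → L2} (h : ∀ i, IsHalf s (f i) (v i)) :
    ∀ᵐ x, ∑ i, ‖(flow s e (f i)) x‖ₑ ^ 2 ≤ ENNReal.ofReal (Bfun s e) := by
  have h1 : ∀ᵐ x, ∀ i, (flow s e (f i)) x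
      = inner ℂ ((kern_memLp hs e x).toLp (kern s e x) : L2) (v i) := by
    rw [ae_all_iff]; intro i; exact flow_ae_eq hs e (h i)
  filter_upwards [h1] with x hx
  simp_rw [hx]
  have h2 := hv ((kern_memLp hs e x).toLp (kern s e x) : L2)
  rw [kern_norm_sq hs] at h2
  calc ∑ i, ‖(inner ℂ ((kern_memLp hs e x).toLp (kern s e x) : L2) (v i) : ℂ)‖ₑ ^ 2
      = ENNReal.ofReal (∑ i, ‖(inner ℂ ((kern_memLp hs e x).toLp (kern s e x) : L2)
          (v i) : ℂ)‖ ^ 2) := by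
        rw [ENNReal.ofReal_sum_of_nonneg (fun i _ => by positivity)]
        apply Finset.sum_congr rfl
        intro i _
        rw [ENNReal.ofReal_pow (norm_nonneg _), ofReal_norm]
    _ ≤ _ := ENNReal.ofReal_le_ofReal h2

/-- `L²` mass of the high frequency part. -/
lemma high_mass {s : ℝ} (hs : 0 < s) (e : ℝ) {f v : L2} (h : IsHalf s f v) :
    ∫⁻ x, ‖(fhigh s e f) x‖ₑ ^ 2
      = ∫⁻ ξ, (lowSet s e)ᶜ.indicator (fun ξ => ENNReal.ofReal (Psym s ξ)⁻¹ * ‖v ξ‖ₑ ^ 2) ξ := by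
  rw [lintegral_sq_fourier]
  unfold fhigh
  rw [fourier_fourierInv_eq]
  apply lintegral_congr_ae
  filter_upwards [coeFn_cut (lowSet s e)ᶜ (lowSet_meas s e).compl (𝓕 f : L2), h] with ξ h1 h2
  rw [h1]
  by_cases hξ : ξ ∈ (lowSet s e)ᶜ
  · rw [Set.indicator_of_mem hξ, Set.indicator_of_mem hξ, h2, enorm_mul, mul_pow]
    congr 1
    rw [← ofReal_norm, Complex.norm_real,
      Real.norm_of_nonneg (Real.rpow_nonneg (Psym_pos hs ξ).le _),
      ← ENNReal.ofReal_pow (Real.rpow_nonneg (Psym_pos hs ξ).le _)]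
    congr 1
    rw [← Real.rpow_natCast, ← Real.rpow_mul (Psym_pos hs ξ).le]
    norm_num
    rw [Real.rpow_neg_one]
  · rw [Set.indicator_of_notMem hξ, Set.indicator_of_notMem hξ]; simp

lemma total_mass {s : ℝ} (hs : 0 < s) {f v : L2} (h : IsHalf s f v) :
    ENNReal.ofReal s * ∫⁻ x, ‖f x‖ₑ ^ 2 ≤ ‖v‖ₑ ^ 2 := by
  rw [lintegral_sq_fourier, ← lintegral_sq_eq_norm v, ← lintegral_const_mul' _ _ (by simp)]
  apply lintegral_mono_ae
  filter_upwards [h] with ξ h2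
  rw [h2, enorm_mul, mul_pow, ← mul_assoc]
  have h3 : ENNReal.ofReal s * ‖(((Psym s ξ) ^ (-(1 / 2) : ℝ) : ℝ) : ℂ)‖ₑ ^ 2 ≤ 1 := by
    rw [← ofReal_norm, Complex.norm_real,
      Real.norm_of_nonneg (Real.rpow_nonneg (Psym_pos hs ξ).le _),
      ← ENNReal.ofReal_pow (Real.rpow_nonneg (Psym_pos hs ξ).le _), ← ENNReal.ofReal_mul hs.le,
      ← ENNReal.ofReal_one]
    apply ENNReal.ofReal_le_ofReal
    have h4 : ((Psym s ξ) ^ (-(1 / 2) : ℝ)) ^ 2 = (Psym s ξ)⁻¹ := by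
      rw [← Real.rpow_natCast, ← Real.rpow_mul (Psym_pos hs ξ).le]
      norm_num
      rw [Real.rpow_neg_one]
    rw [h4, ← div_eq_mul_inv, div_le_one (Psym_pos hs ξ)]
    exact le_Psym hs ξ
  calc _ ≤ 1 * ‖v ξ‖ₑ ^ 2 := by gcongr
    _ = _ := one_mul _

end Pool.Agent.Helper98.ComplexLT
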