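import Pool.Agent.Helper98.ComplexLT.Fourier

namespace Pool.Agent.Helper98.ComplexLT

open MeasureTheory SchwartzMap FourierTransform LineDeriv
open scoped ComplexConjugate SchwartzMap ENNReal

/-- The symbol `P(ξ) = sqrt((2πξ)^2 + s^2)`. -/
noncomputable def Psym (s ξ : ℝ) : ℝ := Real.sqrt ((2 * Real.pi * ξ) ^ 2 + s ^ 2)

lemma Psym_cont (s : ℝ) : Continuous (Psym s) := by
  unfold Psym; fun_prop

lemma Psym_sq (s ξ : ℝ) : Psym s ξ ^ 2 = (2 * Real.pi * ξ) ^ 2 + s ^ 2 :=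
  Real.sq_sqrt (by positivity)

lemma le_Psym {s : ℝ} (_hs : 0 < s) (ξ : ℝ) : s ≤ Psym s ξ :=
  Real.le_sqrt_of_sq_le (by nlinarith [sq_nonneg (2 * Real.pi * ξ)])

lemma Psym_pos {s : ℝ} (hs : 0 < s) (ξ : ℝ) : 0 < Psym s ξ := lt_of_lt_of_le hs (le_Psym hs ξ)

lemma Psym_le {s : ℝ} (hs : 0 < s) (ξ : ℝ) : Psym s ξ ≤ |2 * Real.pi * ξ| + s := by
  apply Real.sqrt_le_iff.mpr
  constructor
  · positivity
  · rw [add_sq, sq_abs]
    nlinarith [abs_nonneg (2 * Real.pi * ξ), hs.le]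

/-- Plancherel's identity in integral form. -/
lemma integral_mul_conj (f g : L2) :
    ∫ x, f x * conj (g x) = ∫ ξ, (𝓕 f : L2) ξ * conj ((𝓕 g : L2) ξ) := by
  have h : inner ℂ (𝓕 g : L2) (𝓕 f : L2) = inner ℂ g f := Lp.inner_fourier_eq g f
  rw [L2.inner_def, L2.inner_def] at h
  simp only [RCLike.inner_apply] at h
  exact h.symm

lemma integral_deriv_mul_conj {u u' φ φ' : L2} (h : IsWeakDeriv u u') (h' : IsWeakDeriv φ φ') :
    ∫ x, u' x * conj (φ' x)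
      = ∫ ξ, ((2 * Real.pi * ξ) ^ 2 : ℝ) * ((𝓕 u : L2) ξ * conj ((𝓕 φ : L2) ξ)) := by
  rw [integral_mul_conj]
  rw [isWeakDeriv_iff_fourier] at h h'
  apply integral_congr_ae
  filter_upwards [h, h'] with ξ h1 h2
  rw [h1, h2]
  simp only [map_mul, Complex.conj_I, Complex.conj_ofReal, map_ofNat]
  push_cast
  linear_combination (2 * Real.pi * ξ) ^ 2 * ((𝓕 u : L2) ξ * conj ((𝓕 φ : L2) ξ)) *
    (-Complex.I_sq)

lemma memLp_P_mul {s : ℝ} (hs : 0 < s) {u u' : L2} (h : IsWeakDeriv u u') :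
    MemLp (fun ξ => (Psym s ξ : ℂ) * (𝓕 u : L2) ξ) 2 volume := by
  rw [isWeakDeriv_iff_fourier] at h
  have h1 : MemLp (fun ξ => ‖(𝓕 u' : L2) ξ‖ + s * ‖(𝓕 u : L2) ξ‖) 2 volume :=
    (Lp.memLp (𝓕 u' : L2)).norm.add ((Lp.memLp (𝓕 u : L2)).norm.const_mul s)
  apply h1.of_le
  · apply AEStronglyMeasurable.mul
    · exact ((Complex.continuous_ofReal.comp (Psym_cont s))).aestronglyMeasurable
    · exact (Lp.memLp (𝓕 u : L2)).1
  · filter_upwards [h] with ξ h1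
    rw [h1, norm_mul, Complex.norm_real, Real.norm_of_nonneg (Psym_pos hs ξ).le, norm_mul]
    have h2 : ‖(2 * Real.pi * Complex.I * ξ : ℂ)‖ = |2 * Real.pi * ξ| := by
      simp [abs_mul]
    rw [h2, ← add_mul]
    have h3 : 0 ≤ (|2 * Real.pi * ξ| + s) * ‖(𝓕 u : L2) ξ‖ := by positivity
    rw [Real.norm_of_nonneg h3]
    gcongr
    exact Psym_le hs ξ

/-- multiplication by a bounded continuous real function maps `L2` to itself -/
lemma memLp_bdd_mul {w : ℝ → ℝ} (hw : Continuous w) {C : ℝ} (hC : ∀ ξ, |w ξ| ≤ C) (f : L2) :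
    MemLp (fun ξ => (w ξ : ℂ) * f ξ) 2 volume := by
  have h1 : MemLp (fun ξ => C * ‖f ξ‖) 2 volume := (Lp.memLp f).norm.const_mul C
  apply h1.of_le
  · exact (Complex.continuous_ofReal.comp hw).aestronglyMeasurable.mul (Lp.memLp f).1
  · filter_upwards with ξ
    rw [norm_mul, Complex.norm_real, Real.norm_eq_abs]
    have hC0 : 0 ≤ C := (abs_nonneg _).trans (hC ξ)
    rw [Real.norm_of_nonneg (by positivity)]
    gcongr
    exact hC ξ

lemma Psym_inv_cont {s : ℝ} (hs : 0 < s) : Continuous (fun ξ => (Psym s ξ)⁻¹) :=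
  (Psym_cont s).inv₀ (fun ξ => (Psym_pos hs ξ).ne')

lemma Psym_inv_le {s : ℝ} (hs : 0 < s) (ξ : ℝ) : |(Psym s ξ)⁻¹| ≤ s⁻¹ := by
  rw [abs_of_pos (inv_pos.mpr (Psym_pos hs ξ))]
  exact inv_anti₀ hs (le_Psym hs ξ)

/-- The Fourier multiplier with symbol `1/P`. -/
noncomputable def Binv (s : ℝ) (hs : 0 < s) (f : L2) : L2 :=
  𝓕⁻ ((memLp_bdd_mul (Psym_inv_cont hs) (Psym_inv_le hs) (𝓕 f : L2)).toLp _ : L2)

lemma fourier_Binv {s : ℝ} (hs : 0 < s) (f : L2) :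
    (fun ξ => (𝓕 (Binv s hs f) : L2) ξ) =ᵐ[volume]
      fun ξ => (((Psym s ξ)⁻¹ : ℝ) : ℂ) * (𝓕 f : L2) ξ := by
  unfold Binv
  rw [fourier_fourierInv_eq]
  exact MemLp.coeFn_toLp _

lemma isWeakDeriv_Binv {s : ℝ} (hs : 0 < s) {f f' : L2} (h : IsWeakDeriv f f') :
    IsWeakDeriv (Binv s hs f) (Binv s hs f') := by
  rw [isWeakDeriv_iff_fourier] at h ⊢
  filter_upwards [h, fourier_Binv hs f, fourier_Binv hs f'] with ξ h1 h2 h3
  rw [h2, h3, h1]; ring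

end Pool.Agent.Helper98.ComplexLT
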