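import Pool.Agent.Helper98.ComplexLT.Levels

namespace Pool.Agent.Helper98.ComplexLT

open MeasureTheory SchwartzMap FourierTransform LineDeriv
open scoped ComplexConjugate SchwartzMap ENNReal

lemma Psym_rpow_cont {s : ℝ} (hs : 0 < s) (r : ℝ) : Continuous (fun ξ => (Psym s ξ) ^ r) :=
  (Psym_cont s).rpow_const (fun ξ => Or.inl (Psym_pos hs ξ).ne')

lemma memLp_half_mul {s : ℝ} (hs : 0 < s) {u u' : L2} (h : IsWeakDeriv u u') :
    MemLp (fun ξ => (((Psym s ξ) ^ (1 / 2 : ℝ) : ℝ) : ℂ) * (𝓕 u : L2) ξ) 2 volume := by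
  have h1 := (memLp_P_mul hs h).const_mul (((s ^ (-(1 / 2) : ℝ) : ℝ)) : ℂ)
  refine h1.of_le ?_ ?_
  · exact (Complex.continuous_ofReal.comp (Psym_rpow_cont hs _)).aestronglyMeasurable.mul
      (Lp.memLp (𝓕 u : L2)).1
  · filter_upwards with ξ
    rw [norm_mul, norm_mul, norm_mul, ← mul_assoc, Complex.norm_real, Complex.norm_real,
      Complex.norm_real,
      Real.norm_of_nonneg (Real.rpow_nonneg (Psym_pos hs ξ).le _),
      Real.norm_of_nonneg (Real.rpow_nonneg hs.le _), Real.norm_of_nonneg (Psym_pos hs ξ).le]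
    gcongr
    have h2 : (Psym s ξ) ^ (-(1 / 2) : ℝ) ≤ s ^ (-(1 / 2) : ℝ) :=
      Real.rpow_le_rpow_of_nonpos hs (le_Psym hs ξ) (by norm_num)
    calc (Psym s ξ) ^ (1 / 2 : ℝ) = (Psym s ξ) ^ (-(1 / 2) : ℝ) * Psym s ξ := by
          nth_rewrite 3 [← Real.rpow_one (Psym s ξ)]
          rw [← Real.rpow_add (Psym_pos hs ξ)]
          norm_num
      _ ≤ _ := by gcongr; exact (Psym_pos hs ξ).le

lemma memLp_invhalf_mul {s : ℝ} (hs : 0 < s) (u : L2) :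
    MemLp (fun ξ => (((Psym s ξ) ^ (-(1 / 2) : ℝ) : ℝ) : ℂ) * (𝓕 u : L2) ξ) 2 volume := by
  apply memLp_bdd_mul (Psym_rpow_cont hs _) (C := s ^ (-(1 / 2) : ℝ))
  intro ξ
  rw [abs_of_nonneg (Real.rpow_nonneg (Psym_pos hs ξ).le _)]
  exact Real.rpow_le_rpow_of_nonpos hs (le_Psym hs ξ) (by norm_num)

/-- linear map `u ↦ w 𝓕 u` on a subspace where it is square integrable. -/
noncomputable def wMap (w : ℝ → ℝ) (M : Submodule ℂ L2)
    (hw : ∀ u : M, MemLp (fun ξ => ((w ξ : ℝ) : ℂ) * (𝓕 (u : L2) : L2) ξ) 2 volume) : M →ₗ[ℂ] L2 where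
  toFun u := (hw u).toLp _
  map_add' u v := by
    apply Lp.ext
    have h0 : (𝓕 ((u + v : M) : L2) : L2) = 𝓕 (u : L2) + 𝓕 (v : L2) := by
      rw [Submodule.coe_add, FourierTransform.fourier_add]
    filter_upwards [(hw (u + v)).coeFn_toLp, (hw u).coeFn_toLp, (hw v).coeFn_toLp,
      Lp.coeFn_add ((hw u).toLp _) ((hw v).toLp _),
      Lp.coeFn_add (𝓕 (u : L2) : L2) (𝓕 (v : L2) : L2)] with ξ h1 h2 h3 h4 h5
    rw [h1, h4, Pi.add_apply, h2, h3, h0, h5, Pi.add_apply]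
    ring
  map_smul' c u := by
    apply Lp.ext
    have h0 : (𝓕 ((c • u : M) : L2) : L2) = c • 𝓕 (u : L2) := by
      rw [Submodule.coe_smul, FourierTransform.fourier_smul]
    filter_upwards [(hw (c • u)).coeFn_toLp, (hw u).coeFn_toLp,
      Lp.coeFn_smul c ((hw u).toLp _), Lp.coeFn_smul c (𝓕 (u : L2) : L2)] with ξ h1 h2 h3 h4
    rw [RingHom.id_apply, h1, h3, Pi.smul_apply, h2, h0, h4, Pi.smul_apply]
    simp only [smul_eq_mul]
    ring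

lemma wMap_ae (w : ℝ → ℝ) (M : Submodule ℂ L2)
    (hw : ∀ u : M, MemLp (fun ξ => ((w ξ : ℝ) : ℂ) * (𝓕 (u : L2) : L2) ξ) 2 volume) (u : M) :
    (fun ξ => (wMap w M hw u) ξ) =ᵐ[volume] fun ξ => ((w ξ : ℝ) : ℂ) * (𝓕 (u : L2) : L2) ξ :=
  (hw u).coeFn_toLp

section
variable {V : ℝ → ℂ} {M : Submodule ℂ L2} {L K : Module.End ℂ M} {s t : ℝ}

lemma hasDeriv_of_graph (hL : ∀ u : M, HGraph 1 V u (L u)) (u : M) :
    ∃ u' : L2, IsWeakDeriv u u' := by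
  obtain ⟨u', h, -⟩ := hL u; exact ⟨u', h⟩

/-- the map `u ↦ (P^{1/2} 𝓕 u, P^{-1/2} 𝓕 K u)` -/
noncomputable def Amap (hs : 0 < s) (hL : ∀ u : M, HGraph 1 V u (L u)) : M →ₗ[ℂ] L2 :=
  wMap (fun ξ => (Psym s ξ) ^ (1 / 2 : ℝ)) M (fun u => by
    obtain ⟨u', h⟩ := hasDeriv_of_graph hL u; exact memLp_half_mul hs h)

noncomputable def Bmap (hs : 0 < s) (K : Module.End ℂ M) : M →ₗ[ℂ] L2 :=
  (wMap (fun ξ => (Psym s ξ) ^ (-(1 / 2) : ℝ)) M (fun u => memLp_invhalf_mul hs u)).comp K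

noncomputable def Phi (hs : 0 < s) (hL : ∀ u : M, HGraph 1 V u (L u)) (K : Module.End ℂ M) :
    M →ₗ[ℂ] WithLp 2 (L2 × L2) :=
  (WithLp.linearEquiv 2 ℂ (L2 × L2)).symm.toLinearMap.comp ((Amap hs hL).prod (Bmap hs K))

lemma Phi_fst (hs : 0 < s) (hL : ∀ u : M, HGraph 1 V u (L u)) (K : Module.End ℂ M) (u : M) :
    (Phi hs hL K u).fst = Amap hs hL u := rfl

lemma Phi_snd (hs : 0 < s) (hL : ∀ u : M, HGraph 1 V u (L u)) (K : Module.End ℂ M) (u : M) :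
    (Phi hs hL K u).snd = Bmap hs K u := rfl

lemma Amap_ae (hs : 0 < s) (hL : ∀ u : M, HGraph 1 V u (L u)) (u : M) :
    (fun ξ => (Amap hs hL u) ξ) =ᵐ[volume]
      fun ξ => (((Psym s ξ) ^ (1 / 2 : ℝ) : ℝ) : ℂ) * (𝓕 (u : L2) : L2) ξ :=
  wMap_ae _ _ _ u

lemma Bmap_ae (hs : 0 < s) (K : Module.End ℂ M) (u : M) :
    (fun ξ => (Bmap hs K u) ξ) =ᵐ[volume]
      fun ξ => (((Psym s ξ) ^ (-(1 / 2) : ℝ) : ℝ) : ℂ) * (𝓕 (K u : L2) : L2) ξ :=
  wMap_ae (fun ξ => (Psym s ξ) ^ (-(1 / 2) : ℝ)) M (fun u => memLp_invhalf_mul hs u) (K u)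

lemma isHalf_A (hs : 0 < s) (hL : ∀ u : M, HGraph 1 V u (L u)) (u : M) :
    IsHalf s (u : L2) (Amap hs hL u) := by
  unfold IsHalf
  filter_upwards [Amap_ae hs hL u] with ξ h1
  rw [h1, ← mul_assoc, ← Complex.ofReal_mul, ← Real.rpow_add (Psym_pos hs ξ)]
  norm_num

lemma isHalf_B (hs : 0 < s) (K : Module.End ℂ M) (u : M) :
    IsHalf s (Binv s hs (K u : L2)) (Bmap hs K u) := by
  unfold IsHalf
  filter_upwards [Bmap_ae hs K u, fourier_Binv hs (K u : L2)] with ξ h1 h2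
  rw [h1, h2, ← mul_assoc, ← Complex.ofReal_mul, ← Real.rpow_add (Psym_pos hs ξ)]
  norm_num
  left
  rw [Real.rpow_neg_one]; simp

lemma Phi_injective (hs : 0 < s) (hL : ∀ u : M, HGraph 1 V u (L u)) (K : Module.End ℂ M) :
    Function.Injective (Phi hs hL K) := by
  rw [← LinearMap.ker_eq_bot, LinearMap.ker_eq_bot']
  intro u hu
  have h1 : Amap hs hL u = 0 := by
    rw [← Phi_fst hs hL K u, hu]; rfl
  have h2 : (𝓕 (u : L2) : L2) = 0 := by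
    apply Lp.ext
    filter_upwards [isHalf_A hs hL u, Lp.coeFn_zero ℂ 2 (volume : Measure ℝ)] with ξ h3 h4
    rw [h3, h1, h4]; simp
  have h3 : (u : L2) = 0 := by
    have := congrArg (fun f : L2 => (𝓕⁻ f : L2)) h2
    simp only [fourierInv_fourier_eq] at this
    rw [this]
    have h5 := (Lp.fourierTransformₗᵢ ℝ ℂ).symm.map_zero
    exact h5
  exact Subtype.ext h3

end

end Pool.Agent.Helper98.ComplexLT
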