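import Pool.Agent.Helper98.ComplexLT.Trace

namespace Pool.Agent.Helper98.ComplexLT

open MeasureTheory SchwartzMap FourierTransform LineDeriv
open scoped ComplexConjugate SchwartzMap ENNReal

lemma integral_norm_sq (f : L2) : ∫ x, ‖f x‖ ^ 2 = ‖f‖ ^ 2 := by
  have h := L2.inner_def (𝕜 := ℂ) f f
  rw [inner_self_eq_norm_sq_to_K] at h
  simp_rw [inner_self_eq_norm_sq_to_K] at h
  have h5 : ((‖f‖ ^ 2 : ℝ) : ℂ) = ((∫ x, ‖f x‖ ^ 2 : ℝ) : ℂ) := by
    rw [← integral_complex_ofReal]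
    calc _ = _ := by push_cast; exact h
      _ = _ := by congr 1; ext x; simp
  exact (Complex.ofReal_injective h5).symm

lemma integrable_norm_sq (f : L2) : Integrable (fun x => ‖f x‖ ^ 2) volume :=
  (Lp.memLp f).integrable_norm_pow (by norm_num)

section
variable {V : ℝ → ℂ} {M : Submodule ℂ L2} {L K : Module.End ℂ M} {s t : ℝ}

lemma inner_Phi (hs : 0 < s) (hL : ∀ u : M, HGraph 1 V u (L u))
    (hK : K * K = L + (t : ℂ) • (1 : Module.End ℂ M)) (u : M) :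
    (inner ℂ (Phi hs hL K u) (Phi hs hL K (K u)) : ℂ)
      = (∫ ξ, (Psym s ξ : ℂ) * (conj ((𝓕 (u : L2) : L2) ξ) * (𝓕 (K u : L2) : L2) ξ))
      + ∫ ξ, (((Psym s ξ)⁻¹ : ℝ) : ℂ) *
          (conj ((𝓕 (K u : L2) : L2) ξ) * ((𝓕 (L u : L2) : L2) ξ + t * (𝓕 (u : L2) : L2) ξ)) := by
  have h0 : (inner ℂ (Phi hs hL K u) (Phi hs hL K (K u)) : ℂ)
      = inner ℂ (Amap hs hL u) (Amap hs hL (K u)) + inner ℂ (Bmap hs K u) (Bmap hs K (K u)) := rfl
  rw [h0, L2.inner_def, L2.inner_def]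
  congr 1
  · apply integral_congr_ae
    filter_upwards [Amap_ae hs hL u, Amap_ae hs hL (K u)] with ξ h1 h2
    rw [h1, h2]
    simp only [RCLike.inner_apply, map_mul, Complex.conj_ofReal]
    have h3 : (Psym s ξ : ℂ) = (((Psym s ξ) ^ (1 / 2 : ℝ) : ℝ) : ℂ) *
        (((Psym s ξ) ^ (1 / 2 : ℝ) : ℝ) : ℂ) := by
      rw [← Complex.ofReal_mul, ← Real.rpow_add (Psym_pos hs ξ)]; norm_num
    rw [h3]; ring
  · have hKK : K (K u) = L u + (t : ℂ) • u := by
      have := congrArg (fun T => T u) hK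
      simpa using this
    have hF : (𝓕 ((K (K u) : M) : L2) : L2) = 𝓕 (L u : L2) + (t : ℂ) • 𝓕 (u : L2) := by
      rw [hKK, Submodule.coe_add, Submodule.coe_smul, FourierTransform.fourier_add,
        FourierTransform.fourier_smul]
    apply integral_congr_ae
    filter_upwards [Bmap_ae hs K u, Bmap_ae hs K (K u),
      Lp.coeFn_add (𝓕 (L u : L2) : L2) ((t : ℂ) • 𝓕 (u : L2)),
      Lp.coeFn_smul (t : ℂ) (𝓕 (u : L2) : L2)] with ξ h1 h2 h3 h4
    rw [h1, h2, hF, h3, Pi.add_apply, h4, Pi.smul_apply]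
    simp only [RCLike.inner_apply, map_mul, Complex.conj_ofReal, smul_eq_mul]
    have h5 : (((Psym s ξ)⁻¹ : ℝ) : ℂ) = (((Psym s ξ) ^ (-(1 / 2) : ℝ) : ℝ) : ℂ) *
        (((Psym s ξ) ^ (-(1 / 2) : ℝ) : ℝ) : ℂ) := by
      rw [← Complex.ofReal_mul, ← Real.rpow_add (Psym_pos hs ξ), ← Real.rpow_neg_one]
      norm_num
    rw [h5]; ring

lemma cross_bound (hs : 0 < s) (hL : ∀ u : M, HGraph 1 V u (L u)) (u : M) :
    ∫ ξ, (Psym s ξ)⁻¹ * (‖(𝓕 (u : L2) : L2) ξ‖ * ‖(𝓕 (K u : L2) : L2) ξ‖)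
      ≤ (2 * s)⁻¹ * ‖Phi hs hL K u‖ ^ 2 := by
  rw [WithLp.prod_norm_sq_eq_of_L2, Phi_fst, Phi_snd, ← integral_norm_sq, ← integral_norm_sq,
    ← integral_add (integrable_norm_sq _) (integrable_norm_sq _), ← integral_const_mul]
  apply integral_mono_of_nonneg
  · filter_upwards with ξ
    have := Psym_pos hs ξ
    positivity
  · exact ((integrable_norm_sq _).add (integrable_norm_sq _)).const_mul _
  · filter_upwards [Amap_ae hs hL u, Bmap_ae hs K u] with ξ h1 h2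
    have hP := Psym_pos hs ξ
    have h3 : ‖(𝓕 (u : L2) : L2) ξ‖ * ‖(𝓕 (K u : L2) : L2) ξ‖
        = ‖(Amap hs hL u) ξ‖ * ‖(Bmap hs K u) ξ‖ := by
      rw [h1, h2, norm_mul, norm_mul, Complex.norm_real, Complex.norm_real,
        Real.norm_of_nonneg (Real.rpow_nonneg hP.le _),
        Real.norm_of_nonneg (Real.rpow_nonneg hP.le _)]
      have h4 : (Psym s ξ) ^ (1 / 2 : ℝ) * (Psym s ξ) ^ (-(1 / 2) : ℝ) = 1 := by
        rw [← Real.rpow_add hP]; norm_num
      calc _ = 1 * (‖(𝓕 (u : L2) : L2) ξ‖ * ‖(𝓕 (K u : L2) : L2) ξ‖) := (one_mul _).symm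
        _ = ((Psym s ξ) ^ (1 / 2 : ℝ) * (Psym s ξ) ^ (-(1 / 2) : ℝ)) *
            (‖(𝓕 (u : L2) : L2) ξ‖ * ‖(𝓕 (K u : L2) : L2) ξ‖) := by rw [h4]
        _ = _ := by ring
    simp only [h3]
    have h5 : (Psym s ξ)⁻¹ ≤ s⁻¹ := inv_anti₀ hs (le_Psym hs ξ)
    have h6 : ‖(Amap hs hL u) ξ‖ * ‖(Bmap hs K u) ξ‖
        ≤ (‖(Amap hs hL u) ξ‖ ^ 2 + ‖(Bmap hs K u) ξ‖ ^ 2) / 2 := by
      nlinarith [sq_nonneg (‖(Amap hs hL u) ξ‖ - ‖(Bmap hs K u) ξ‖)]
    calc _ ≤ s⁻¹ * ((‖(Amap hs hL u) ξ‖ ^ 2 + ‖(Bmap hs K u) ξ‖ ^ 2) / 2) := by gcongr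
      _ = _ := by rw [mul_inv]; ring

/-- The real number `∫ |V u conj φ|` for `φ = P^{-1} K u`. -/
lemma im_inner_bound (hs : 0 < s) (hst : t ≤ s ^ 2) (hL : ∀ u : M, HGraph 1 V u (L u))
    (hK : K * K = L + (t : ℂ) • (1 : Module.End ℂ M)) (u : M) :
    (inner ℂ (Phi hs hL K u) (Phi hs hL K (K u)) : ℂ).im
      ≤ (s ^ 2 - t) * (2 * s)⁻¹ * ‖Phi hs hL K u‖ ^ 2
        + ∫ x, ‖V x * (u : L2) x * conj ((Binv s hs (K u : L2)) x)‖ := by
  obtain ⟨k', hk⟩ := hasDeriv_of_graph hL (K u)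
  rw [inner_Phi hs hL hK u]
  have h1 := im_identity hs hst (hL u) hk
  have h2 := cross_bound (K := K) hs hL u
  have h3 : 0 ≤ s ^ 2 - t := by linarith
  have h4 := mul_le_mul_of_nonneg_left h2 h3
  calc _ ≤ _ := h1
    _ ≤ _ := by linarith

lemma graph_integrable (hs : 0 < s) (hL : ∀ u : M, HGraph 1 V u (L u)) (u : M) :
    Integrable (fun x => V x * (u : L2) x * conj ((Binv s hs (K u : L2)) x)) volume := by
  obtain ⟨k', hk⟩ := hasDeriv_of_graph hL (K u)
  obtain ⟨u', hu, hform⟩ := hL u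
  exact (hform _ _ (isWeakDeriv_Binv hs hk)).1

/-- the potential functional in the trace bound -/
noncomputable def potFun (ε lam s : ℝ) (V : ℝ → ℂ) : ℝ≥0∞ :=
  ∫⁻ x in {x | lam * s ≤ ‖V x‖}, ENNReal.ofReal (‖V x‖ * (cEps ε * (‖V x‖ / (lam * s)) ^ ε))

lemma ofReal_mul_sum {ι : Type*} [Fintype ι] (a : ℝ≥0∞) (f : ι → ℝ≥0∞) :
    a * ∑ i, f i = ∑ i, a * f i := Finset.mul_sum _ _ _

theorem trace_bound [FiniteDimensional ℂ M] (hV : Measurable V) (hs : 0 < s) (hst : t ≤ s ^ 2)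
    {lam ε : ℝ} (hlam : 0 < lam) (hε : 0 < ε)
    (hL : ∀ u : M, HGraph 1 V u (L u))
    (hK : K * K = L + (t : ℂ) • (1 : Module.End ℂ M)) :
    ENNReal.ofReal (LinearMap.trace ℂ M K).im
      ≤ ENNReal.ofReal (((s ^ 2 - t) * (2 * s)⁻¹ + 9 / 2 * lam) * (Module.finrank ℂ M : ℝ))
        + 2 * potFun ε lam s V := by
  set e : M ≃ₗ[ℂ] LinearMap.range (Phi hs hL K) :=
    LinearEquiv.ofInjective (Phi hs hL K) (Phi_injective hs hL K) with he
  set T : Module.End ℂ (LinearMap.range (Phi hs hL K)) := e.conj K with hT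
  have htr : LinearMap.trace ℂ M K = LinearMap.trace ℂ _ T := (LinearMap.trace_conj' K e).symm
  let b := stdOrthonormalBasis ℂ (LinearMap.range (Phi hs hL K))
  rw [htr, LinearMap.trace_eq_sum_inner T b]
  have hfr : Module.finrank ℂ (LinearMap.range (Phi hs hL K)) = Module.finrank ℂ M :=
    e.finrank_eq.symm
  set u : Fin (Module.finrank ℂ (LinearMap.range (Phi hs hL K))) → M := fun i => e.symm (b i)
    with hu
  have hPu : ∀ i, Phi hs hL K (u i) = (b i : WithLp 2 (L2 × L2)) := by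
    intro i
    have : e (u i) = b i := by simp [hu]
    rw [← this]; rfl
  have hbo : Orthonormal ℂ (fun i => (b i : WithLp 2 (L2 × L2))) := by
    have h1 : Orthonormal ℂ b := b.orthonormal
    exact h1.comp_linearIsometry (LinearMap.range (Phi hs hL K)).subtypeₗᵢ
  have hnorm : ∀ i, ‖Phi hs hL K (u i)‖ = 1 := by
    intro i; rw [hPu]; exact hbo.1 i
  have hinner : ∀ i, (inner ℂ (b i) (T (b i)) : ℂ)
      = inner ℂ (Phi hs hL K (u i)) (Phi hs hL K (K (u i))) := by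
    intro i
    rw [Submodule.coe_inner, hPu]
    congr 1
  have hI : ∀ i, (inner ℂ (b i) (T (b i)) : ℂ).im ≤ (s ^ 2 - t) * (2 * s)⁻¹
      + ∫ x, ‖V x * (u i : L2) x * conj ((Binv s hs (K (u i) : L2)) x)‖ := by
    intro i
    rw [hinner]
    have := im_inner_bound hs hst hL hK (u i)
    rw [hnorm, one_pow, mul_one] at this
    exact this
  have hst' : 0 ≤ (s ^ 2 - t) * (2 * s)⁻¹ := by
    apply mul_nonneg (by linarith) (by positivity)
  -- the two density bounds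
  set W : ℝ → ℝ := fun x => ‖V x‖ / lam with hW
  have hWm : Measurable W := hV.norm.div_const lam
  have hW0 : ∀ x, 0 ≤ W x := fun x => by positivity
  have hset : {x | s ≤ W x} = {x | lam * s ≤ ‖V x‖} := by
    ext x
    simp only [hW, Set.mem_ofPred_eq]
    rw [le_div_iff₀ hlam, mul_comm]
  have hpot : ENNReal.ofReal lam * ∫⁻ x in {x | s ≤ W x},
      ENNReal.ofReal (W x * (cEps ε * (W x / s) ^ ε)) = potFun ε lam s V := by
    rw [hset, potFun, ← lintegral_const_mul' _ _ ENNReal.ofReal_ne_top]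
    congr 1
    ext x
    rw [← ENNReal.ofReal_mul hlam.le]
    congr 1
    simp only [hW]
    rw [div_div]
    field_simp
  have hA := density_bound hs hε hWm hW0 (v := fun i => Amap hs hL (u i))
    (f := fun i => (u i : L2)) (fun z => by
      have := bessel_fst hbo z
      simpa [← hPu, Phi_fst] using this) (fun i => isHalf_A hs hL (u i))
  have hB := density_bound hs hε hWm hW0 (v := fun i => Bmap hs K (u i))
    (f := fun i => Binv s hs (K (u i) : L2)) (fun z => by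
      have := bessel_snd hbo z
      simpa [← hPu, Phi_snd] using this) (fun i => isHalf_B hs K (u i))
  have hsumn : (∑ i, ‖Amap hs hL (u i)‖ₑ ^ 2) + (∑ i, ‖Bmap hs K (u i)‖ₑ ^ 2)
      = (Module.finrank ℂ M : ℝ≥0∞) := by
    rw [← Finset.sum_add_distrib]
    have h1 : ∀ i, ‖Amap hs hL (u i)‖ₑ ^ 2 + ‖Bmap hs K (u i)‖ₑ ^ 2 = 1 := by
      intro i
      have h2 := WithLp.prod_norm_sq_eq_of_L2 (Phi hs hL K (u i))
      rw [hnorm, Phi_fst, Phi_snd] at h2
      rw [← ofReal_norm, ← ofReal_norm, ← ENNReal.ofReal_pow (norm_nonneg _),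
        ← ENNReal.ofReal_pow (norm_nonneg _), ← ENNReal.ofReal_add (by positivity) (by positivity),
        ← h2]
      simp
    simp only [h1, Finset.sum_const, Finset.card_univ, Fintype.card_fin, hfr]
    simp
  have hVint : ∀ i, ENNReal.ofReal (∫ x, ‖V x * (u i : L2) x *
      conj ((Binv s hs (K (u i) : L2)) x)‖)
      ≤ ∫⁻ x, ENNReal.ofReal lam / 2 * (ENNReal.ofReal (W x) * ‖(u i : L2) x‖ₑ ^ 2
          + ENNReal.ofReal (W x) * ‖(Binv s hs (K (u i) : L2)) x‖ₑ ^ 2) := by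
    intro i
    rw [ofReal_integral_norm_eq_lintegral_enorm (graph_integrable hs hL (u i))]
    apply lintegral_mono
    intro x
    simp only
    have h1 : ‖V x * (u i : L2) x * conj ((Binv s hs (K (u i) : L2)) x)‖
        ≤ lam / 2 * (W x * ‖(u i : L2) x‖ ^ 2 + W x * ‖(Binv s hs (K (u i) : L2)) x‖ ^ 2) := by
      rw [norm_mul, norm_mul, RCLike.norm_conj]
      have h3 : ‖V x‖ = lam * W x := by simp only [hW]; field_simp
      rw [h3]
      have h4 := mul_nonneg (mul_nonneg hlam.le (hW0 x))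
        (sq_nonneg (‖(u i : L2) x‖ - ‖(Binv s hs (K (u i) : L2)) x‖))
      nlinarith
    rw [← ofReal_norm]
    refine (ENNReal.ofReal_le_ofReal h1).trans (le_of_eq ?_)
    rw [ENNReal.ofReal_mul (by positivity), ENNReal.ofReal_add (mul_nonneg (hW0 x) (sq_nonneg _))
      (mul_nonneg (hW0 x) (sq_nonneg _)),
      ENNReal.ofReal_mul (hW0 x), ENNReal.ofReal_mul (hW0 x), ENNReal.ofReal_pow (norm_nonneg _),
      ENNReal.ofReal_pow (norm_nonneg _), ofReal_norm, ofReal_norm, ENNReal.ofReal_div_of_pos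
      (by norm_num)]
    simp
  have hmA : ∀ g : L2, AEMeasurable (fun x => ENNReal.ofReal (W x) * ‖g x‖ₑ ^ 2) volume :=
    fun g => (hWm.ennreal_ofReal.aemeasurable).mul ((Lp.memLp g).1.enorm.pow_const 2)
  have hsumV : ∑ i, ENNReal.ofReal (∫ x, ‖V x * (u i : L2) x *
      conj ((Binv s hs (K (u i) : L2)) x)‖)
      ≤ ENNReal.ofReal (9 / 2 * lam * (Module.finrank ℂ M : ℝ)) + 2 * potFun ε lam s V := by
    calc ∑ i, ENNReal.ofReal (∫ x, ‖V x * (u i : L2) x * conj ((Binv s hs (K (u i) : L2)) x)‖)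
        ≤ ∑ i, ∫⁻ x, ENNReal.ofReal lam / 2 * (ENNReal.ofReal (W x) * ‖(u i : L2) x‖ₑ ^ 2
          + ENNReal.ofReal (W x) * ‖(Binv s hs (K (u i) : L2)) x‖ₑ ^ 2) :=
          Finset.sum_le_sum (fun i _ => hVint i)
      _ = ENNReal.ofReal lam / 2 * ((∫⁻ x, ENNReal.ofReal (W x) * ∑ i, ‖(u i : L2) x‖ₑ ^ 2)
          + ∫⁻ x, ENNReal.ofReal (W x) * ∑ i, ‖(Binv s hs (K (u i) : L2)) x‖ₑ ^ 2) := by
          have hne : ENNReal.ofReal lam / 2 ≠ ⊤ := by
            apply ENNReal.div_ne_top ENNReal.ofReal_ne_top (by norm_num)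
          simp_rw [ofReal_mul_sum]
          rw [lintegral_finsetSum' _ (fun i _ => hmA _), lintegral_finsetSum' _ (fun i _ => hmA _),
            ← Finset.sum_add_distrib, Finset.mul_sum]
          apply Finset.sum_congr rfl
          intro i _
          rw [lintegral_const_mul' _ _ hne, lintegral_add_left' (hmA _)]
      _ ≤ ENNReal.ofReal lam / 2 * ((9 * (∑ i, ‖Amap hs hL (u i)‖ₑ ^ 2)
            + 2 * ∫⁻ x in {x | s ≤ W x}, ENNReal.ofReal (W x * (cEps ε * (W x / s) ^ ε)))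
          + (9 * (∑ i, ‖Bmap hs K (u i)‖ₑ ^ 2)
            + 2 * ∫⁻ x in {x | s ≤ W x}, ENNReal.ofReal (W x * (cEps ε * (W x / s) ^ ε)))) := by
          gcongr
      _ = ENNReal.ofReal lam / 2 * (9 * ((∑ i, ‖Amap hs hL (u i)‖ₑ ^ 2) +
            (∑ i, ‖Bmap hs K (u i)‖ₑ ^ 2))
            + 4 * ∫⁻ x in {x | s ≤ W x}, ENNReal.ofReal (W x * (cEps ε * (W x / s) ^ ε))) := by
          ring
      _ = _ := by
          rw [hsumn, ← hpot, mul_add]
          congr 1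
          · rw [ENNReal.ofReal_mul (by positivity), ENNReal.ofReal_mul (by norm_num),
              ENNReal.ofReal_natCast, ENNReal.ofReal_div_of_pos (by norm_num)]
            rw [ENNReal.div_eq_inv_mul, ENNReal.div_eq_inv_mul]
            simp only [ENNReal.ofReal_ofNat]
            ring
          · rw [ENNReal.div_eq_inv_mul]
            have h2 : (2 : ℝ≥0∞)⁻¹ * 4 = 2 := by
              rw [show (4 : ℝ≥0∞) = 2 * 2 by norm_num, ← mul_assoc,
                ENNReal.inv_mul_cancel (by norm_num) (by norm_num), one_mul]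
            calc _ = ((2 : ℝ≥0∞)⁻¹ * 4) * (ENNReal.ofReal lam * ∫⁻ x in {x | s ≤ W x},
                  ENNReal.ofReal (W x * (cEps ε * (W x / s) ^ ε))) := by ring
              _ = _ := by rw [h2]
  calc ENNReal.ofReal (∑ i, (inner ℂ (b i) (T (b i)) : ℂ)).im
      ≤ ENNReal.ofReal (∑ i, ((s ^ 2 - t) * (2 * s)⁻¹
        + ∫ x, ‖V x * (u i : L2) x * conj ((Binv s hs (K (u i) : L2)) x)‖)) := by
        apply ENNReal.ofReal_le_ofReal
        rw [Complex.im_sum]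
        exact Finset.sum_le_sum (fun i _ => hI i)
    _ = ENNReal.ofReal ((s ^ 2 - t) * (2 * s)⁻¹ * (Module.finrank ℂ M : ℝ))
        + ∑ i, ENNReal.ofReal (∫ x, ‖V x * (u i : L2) x *
          conj ((Binv s hs (K (u i) : L2)) x)‖) := by
        have hnn : ∀ i, 0 ≤ ∫ x, ‖V x * (u i : L2) x * conj ((Binv s hs (K (u i) : L2)) x)‖ :=
          fun i => integral_nonneg_of_ae (Filter.Eventually.of_forall fun x => norm_nonneg _)
        have hc : ∑ _i : Fin (Module.finrank ℂ (LinearMap.range (Phi hs hL K))),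
            ((s ^ 2 - t) * (2 * s)⁻¹) = (s ^ 2 - t) * (2 * s)⁻¹ * (Module.finrank ℂ M : ℝ) := by
          rw [Finset.sum_const, Finset.card_univ, Fintype.card_fin, hfr, nsmul_eq_mul, mul_comm]
        rw [Finset.sum_add_distrib, ENNReal.ofReal_add (Finset.sum_nonneg (fun i _ => hst'))
          (Finset.sum_nonneg (fun i _ => hnn i)),
          ENNReal.ofReal_sum_of_nonneg (fun i _ => hnn i), hc]
    _ ≤ ENNReal.ofReal ((s ^ 2 - t) * (2 * s)⁻¹ * (Module.finrank ℂ M : ℝ))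
        + (ENNReal.ofReal (9 / 2 * lam * (Module.finrank ℂ M : ℝ)) + 2 * potFun ε lam s V) := by
        gcongr
    _ = _ := by
        rw [← add_assoc, ← ENNReal.ofReal_add (by positivity) (by positivity), ← add_mul]

end

end Pool.Agent.Helper98.ComplexLT
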