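import Pool.Agent.Helper98.ComplexLT.Gen
import Pool.Agent.Helper98.ComplexLT.TraceBound

namespace Pool.Agent.Helper98.ComplexLT

open MeasureTheory SchwartzMap FourierTransform LineDeriv Module Polynomial
open scoped ComplexConjugate SchwartzMap ENNReal

/-- the imaginary part of the square root of `E + t` in the closed upper half plane -/
noncomputable def imSqrt (E : ℂ) (t : ℝ) : ℝ := Real.sqrt ((‖E + t‖ - (E + t).re) / 2)

lemma exists_root (z : ℂ) : ∃ r : ℂ, r ^ 2 = z ∧ r.im = Real.sqrt ((‖z‖ - z.re) / 2) := by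
  obtain ⟨r0, hr0⟩ := IsAlgClosed.exists_pow_nat_eq z (n := 2) (by norm_num)
  have key : ∀ r : ℂ, r ^ 2 = z → r.im ^ 2 = (‖z‖ - z.re) / 2 := by
    intro r hr
    have h1 : ‖z‖ = r.re ^ 2 + r.im ^ 2 := by
      rw [← hr, norm_pow, ← Complex.normSq_eq_norm_sq, Complex.normSq_apply]; ring
    have h2 : z.re = r.re ^ 2 - r.im ^ 2 := by
      rw [← hr, pow_two, Complex.mul_re]; ring
    rw [h1, h2]; ring
  rcases le_total 0 r0.im with h | h
  · refine ⟨r0, hr0, ?_⟩
    rw [← key r0 hr0, Real.sqrt_sq h]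
  · refine ⟨-r0, by rw [neg_pow]; simpa using hr0, ?_⟩
    rw [← key r0 hr0, Complex.neg_im, ← Real.sqrt_sq (show 0 ≤ -r0.im by linarith)]
    congr 1; ring

lemma exists_big_inv {ħ : ℝ} {V : ℝ → ℂ} {E : ℂ} {m : ℕ} (hm : (m : ℕ∞) ≤ algMult ħ V E) :
    ∃ (k : ℕ) (M : Submodule ℂ L2), FiniteDimensional ℂ M ∧ Inv ħ V M ∧
      M ≤ genSpace ħ V E k ∧ m ≤ finrank ℂ M := by
  classical
  unfold algMult at hm
  rw [Cardinal.natCast_le_toENat] at hm
  set G : Submodule ℂ L2 := ⨆ k, genSpace ħ V E k with hG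
  obtain ⟨s, hs, hli⟩ := le_rank_iff_exists_linearIndependent_finset.mp hm
  obtain ⟨k, M, h1, h2, h3, h4⟩ := exists_inv_finset ħ V E (s.image (fun x : G => (x : L2)))
    (by
      intro u hu
      obtain ⟨x, _, rfl⟩ := Finset.mem_image.mp hu
      exact x.2)
  refine ⟨k, M, h1, h2, h4, ?_⟩
  have hmem : ∀ x : {x // x ∈ s}, ((x : G) : L2) ∈ M := fun x =>
    h3 _ (Finset.mem_image_of_mem _ x.2)
  have hli2 : LinearIndependent ℂ (fun x : {x // x ∈ s} => (⟨((x : G) : L2), hmem x⟩ : M)) := by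
    have h5 : LinearIndependent ℂ (fun x : {x // x ∈ s} => ((x : G) : L2)) := by
      have h6 := hli.map' G.subtype (Submodule.ker_subtype G)
      exact h6
    exact LinearIndependent.of_comp M.subtype h5
  have h7 := hli2.fintype_card_le_finrank
  rw [Fintype.card_coe, hs] at h7
  exact h7

lemma aeval_prod_eq_zero {V : ℝ → ℂ} {S : Finset ℂ} {k : ℂ → ℕ} {N : ℂ → Submodule ℂ L2}
    (hN : ∀ E ∈ S, N E ≤ genSpace 1 V E (k E))
    {L : Module.End ℂ (S.sup N : Submodule ℂ L2)}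
    (hL : ∀ u : (S.sup N : Submodule ℂ L2), HGraph 1 V u (L u)) :
    aeval L (∏ E ∈ S, (X - C E) ^ (k E) : ℂ[X]) = 0 := by
  classical
  set Q : ℂ[X] := ∏ E ∈ S, (X - C E) ^ (k E) with hQ
  set Z : Submodule ℂ L2 := (LinearMap.ker (aeval L Q)).map (S.sup N).subtype with hZ
  have hle : S.sup N ≤ Z := by
    apply Finset.sup_le
    intro E hE w hw
    have hwM : w ∈ S.sup N := (Finset.le_sup (f := N) hE) hw
    refine ⟨⟨w, hwM⟩, ?_, rfl⟩
    show (aeval L Q) ⟨w, hwM⟩ = 0
    rw [hQ, ← Finset.prod_erase_mul S _ hE, map_mul, Module.End.mul_apply]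
    have h1 : (aeval L ((X - C E) ^ (k E))) ⟨w, hwM⟩ = 0 := by
      have := sub_pow_eq_zero hL E (k E) ⟨w, hwM⟩ (hN E hE hw)
      simpa [Algebra.algebraMap_eq_smul_one] using this
    rw [h1, map_zero]
  ext1 u
  obtain ⟨v, hv, hvu⟩ := hle u.2
  have : v = u := Subtype.ext hvu
  rw [← this]
  exact hv

theorem two_param {V : ℝ → ℂ} (hV : Measurable V) (S : Finset ℂ) (m : ℂ → ℕ)
    (hm : ∀ E ∈ S, (m E : ℕ∞) ≤ algMult 1 V E) {t lam ε : ℝ} (ht : 0 ≤ t) (hlam : 0 < lam)
    (hε : 0 < ε) :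
    ∑ E ∈ S, (m E : ℝ≥0∞) * ENNReal.ofReal (imSqrt E t - 11 / 2 * lam)
      ≤ 2 * potFun ε lam (Real.sqrt t + lam) V := by
  classical
  set S' : Finset ℂ := S.filter (fun E => 11 / 2 * lam < imSqrt E t) with hS'
  have hsub : ∑ E ∈ S, (m E : ℝ≥0∞) * ENNReal.ofReal (imSqrt E t - 11 / 2 * lam)
      = ∑ E ∈ S', (m E : ℝ≥0∞) * ENNReal.ofReal (imSqrt E t - 11 / 2 * lam) := by
    rw [hS', Finset.sum_filter]
    apply Finset.sum_congr rfl
    intro E _
    split_ifs with h
    · rfl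
    · rw [ENNReal.ofReal_of_nonpos (by linarith), mul_zero]
  rw [hsub]
  have hex : ∀ E : ℂ, ∃ (k : ℕ) (M : Submodule ℂ L2), E ∈ S' → (FiniteDimensional ℂ M ∧
      Inv 1 V M ∧ M ≤ genSpace 1 V E k ∧ m E ≤ finrank ℂ M) := by
    intro E
    by_cases hE : E ∈ S'
    · obtain ⟨k, M, h⟩ := exists_big_inv (hm E (Finset.mem_filter.mp hE).1)
      exact ⟨k, M, fun _ => h⟩
    · exact ⟨0, ⊥, fun h => absurd h hE⟩
  choose k N hkN using hex
  set M : Submodule ℂ L2 := S'.sup N with hM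
  have hfd : FiniteDimensional ℂ M := by
    rw [hM]
    have hf : ∀ T : Finset ℂ, T ⊆ S' → FiniteDimensional ℂ (T.sup N : Submodule ℂ L2) := by
      intro T
      induction T using Finset.induction_on with
      | empty => intro _; rw [Finset.sup_empty]; infer_instance
      | insert a T ha ih =>
        intro hT
        rw [Finset.sup_insert]
        have h1 := ih (fun x hx => hT (Finset.mem_insert_of_mem hx))
        have h2 := (hkN a (hT (Finset.mem_insert_self a T))).1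
        infer_instance
    exact hf S' (Finset.Subset.refl _)
  have hInv : Inv 1 V M := Inv.finset_sup S' N (fun E hE => (hkN E hE).2.1)
  obtain ⟨L, hL⟩ := hInv.exists_lin
  have hQ := aeval_prod_eq_zero (fun E hE => (hkN E hE).2.2.1) hL
  have heig : ∀ μ, L.HasEigenvalue μ → μ ∈ S' := by
    intro μ hμ
    obtain ⟨v, hv⟩ := hμ.exists_hasEigenvector
    have h1 := Module.End.aeval_apply_of_hasEigenvector (p := ∏ E ∈ S', (X - C E) ^ (k E)) hv
    rw [hQ, LinearMap.zero_apply] at h1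
    have h2 : (∏ E ∈ S', (X - C E) ^ (k E) : ℂ[X]).eval μ = 0 := by
      rcases smul_eq_zero.mp h1.symm with h | h
      · exact h
      · exact absurd h hv.2
    rw [eval_prod, Finset.prod_eq_zero_iff] at h2
    obtain ⟨E, hE, h3⟩ := h2
    have h4 : μ - E = 0 := by
      simp only [eval_pow, eval_sub, eval_X, eval_C] at h3
      exact eq_zero_of_pow_eq_zero h3
    rw [sub_eq_zero] at h4
    rw [h4]; exact hE
  have hroot : ∀ E : ℂ, ∃ r : ℂ, r ^ 2 = E + t ∧ r.im = imSqrt E t := fun E => exists_root _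
  choose r hr hrim using hroot
  obtain ⟨K, hK, htr⟩ := exists_sqrt_trace L (t : ℂ) S' heig r (fun E _ => hr E) (by
    intro E hE h0
    have h1 := (Finset.mem_filter.mp hE).2
    rw [← hrim, h0, Complex.zero_im] at h1
    linarith)
  have hdim : (finrank ℂ M : ℝ) = ∑ E ∈ S', (finrank ℂ (L.maxGenEigenspace E) : ℝ) := by
    have h1 := trace_aeval L 1 S' heig
    simp only [map_one, LinearMap.trace_one, eval_one, mul_one] at h1
    exact_mod_cast h1
  have hmge : ∀ E ∈ S', (m E : ℝ) ≤ (finrank ℂ (L.maxGenEigenspace E) : ℝ) := by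
    intro E hE
    obtain ⟨g1, g2, g3, g4⟩ := hkN E hE
    have hNM : N E ≤ M := Finset.le_sup (f := N) hE
    have h1 : (N E).comap M.subtype ≤ L.maxGenEigenspace E := by
      intro u hu
      rw [Module.End.mem_maxGenEigenspace]
      exact ⟨k E, sub_pow_eq_zero hL E (k E) u (g3 hu)⟩
    have h2 : finrank ℂ ((N E).comap M.subtype) = finrank ℂ (N E) :=
      (Submodule.comapSubtypeEquivOfLe hNM).finrank_eq
    have h3 := Submodule.finrank_mono h1
    rw [h2] at h3
    exact_mod_cast g4.trans h3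
  set s : ℝ := Real.sqrt t + lam with hs
  have hs0 : 0 < s := by positivity
  have hts : t ≤ s ^ 2 := by
    have := Real.sq_sqrt ht
    nlinarith [Real.sqrt_nonneg t]
  have hb := trace_bound (V := V) hV hs0 hts hlam hε hL hK
  have himtr : (LinearMap.trace ℂ M K).im
      = ∑ E ∈ S', (finrank ℂ (L.maxGenEigenspace E) : ℝ) * imSqrt E t := by
    rw [htr, Complex.im_sum]
    apply Finset.sum_congr rfl
    intro E _
    rw [← hrim, Complex.mul_im]; simp
  have hcoef : (s ^ 2 - t) * (2 * s)⁻¹ + 9 / 2 * lam ≤ 11 / 2 * lam := by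
    have h1 := Real.sq_sqrt ht
    have h2 : (s ^ 2 - t) * (2 * s)⁻¹ ≤ lam := by
      rw [← div_eq_mul_inv, div_le_iff₀ (by positivity)]
      rw [hs]
      nlinarith [Real.sqrt_nonneg t]
    linarith
  have hmain : ∑ E ∈ S', (m E : ℝ≥0∞) * ENNReal.ofReal (imSqrt E t - 11 / 2 * lam)
      ≤ ENNReal.ofReal ((LinearMap.trace ℂ M K).im - 11 / 2 * lam * (finrank ℂ M : ℝ)) := by
    rw [himtr, hdim, Finset.mul_sum, ← Finset.sum_sub_distrib,
      ENNReal.ofReal_sum_of_nonneg]
    · apply Finset.sum_le_sum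
      intro E hE
      have h1 := (Finset.mem_filter.mp hE).2
      rw [← ENNReal.ofReal_natCast, ← ENNReal.ofReal_mul (by positivity)]
      apply ENNReal.ofReal_le_ofReal
      have h2 := hmge E hE
      nlinarith
    · intro E hE
      have h1 := (Finset.mem_filter.mp hE).2
      have h2 : (0 : ℝ) ≤ (finrank ℂ (L.maxGenEigenspace E) : ℝ) := by positivity
      nlinarith
  refine hmain.trans ?_
  rw [ENNReal.ofReal_sub _ (by positivity)]
  rw [tsub_le_iff_left]
  refine hb.trans ?_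
  gcongr

end Pool.Agent.Helper98.ComplexLT
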