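import Pool.Agent.Helper98.ComplexLT.Integrals

namespace Pool.Agent.Helper98.ComplexLT

open MeasureTheory Set
open scoped ENNReal

/-- the integrand coming from the potential -/
noncomputable def gfun (ε v : ℝ) (p : ℝ × ℝ) : ℝ≥0∞ :=
  if p.2 * (Real.sqrt p.1 + p.2) ≤ v then
    ENNReal.ofReal (v * (cEps ε * (v / (p.2 * (Real.sqrt p.1 + p.2))) ^ ε)) else 0

lemma gfun_meas (ε : ℝ) : Measurable (fun q : ℝ × (ℝ × ℝ) => gfun ε q.1 q.2) := by
  unfold gfun
  apply Measurable.ite
  · exact measurableSet_le (by fun_prop) (by fun_prop)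
  · fun_prop
  · fun_prop

noncomputable def cUp (γ σ : ℝ) : ℝ :=
  cEps ((γ - σ) / 2) / ((γ - σ) / 4) / (2 * σ - 1)

lemma gfun_le {ε v t lam : ℝ} (hε : 0 < ε) (hv : 0 < v) (ht : 0 < t) (hl : 0 < lam) :
    gfun ε v (t, lam) ≤ (if lam ≤ Real.sqrt v ∧ t ≤ (v / lam) ^ 2 then
      ENNReal.ofReal (cEps ε * v ^ (1 + ε) * lam ^ (-ε)) * ENNReal.ofReal (t ^ (-(ε / 2))) else 0) := by
  unfold gfun
  simp only
  split_ifs with h1 h2 h2
  · have hst : 0 < Real.sqrt t := Real.sqrt_pos.mpr ht
    rw [← ENNReal.ofReal_mul (mul_nonneg (mul_nonneg (cEps_nonneg ε) (Real.rpow_nonneg hv.le _))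
      (Real.rpow_nonneg hl.le _))]
    apply ENNReal.ofReal_le_ofReal
    have h3 : v / (lam * (Real.sqrt t + lam)) ≤ v / (lam * Real.sqrt t) := by
      gcongr; linarith
    have h4 : (v / (lam * (Real.sqrt t + lam))) ^ ε ≤ v ^ ε * lam ^ (-ε) * t ^ (-(ε / 2)) := by
      calc (v / (lam * (Real.sqrt t + lam))) ^ ε ≤ (v / (lam * Real.sqrt t)) ^ ε :=
            Real.rpow_le_rpow (by positivity) h3 hε.le
        _ = _ := by
            rw [Real.div_rpow hv.le (by positivity), Real.mul_rpow hl.le hst.le,
              Real.sqrt_eq_rpow, ← Real.rpow_mul ht.le, Real.rpow_neg hl.le, Real.rpow_neg ht.le]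
            rw [div_eq_mul_inv, mul_inv, mul_assoc]
            congr 4
            ring
    calc v * (cEps ε * (v / (lam * (Real.sqrt t + lam))) ^ ε)
        ≤ v * (cEps ε * (v ^ ε * lam ^ (-ε) * t ^ (-(ε / 2)))) := by
          gcongr; exact cEps_nonneg ε
      _ = _ := by
          rw [Real.rpow_add hv, Real.rpow_one]; ring
  · exfalso
    apply h2
    have hst : 0 < Real.sqrt t := Real.sqrt_pos.mpr ht
    constructor
    · apply Real.le_sqrt_of_sq_le; nlinarith
    · have h5 : Real.sqrt t ≤ v / lam := by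
        rw [le_div_iff₀ hl]; nlinarith
      calc t = Real.sqrt t ^ 2 := (Real.sq_sqrt ht.le).symm
        _ ≤ _ := by gcongr
  · exact zero_le
  · exact le_refl _

lemma upper_int {γ σ : ℝ} (hσ : 1 / 2 < σ) (hσγ : σ < γ) {v : ℝ} (hv : 0 ≤ v) :
    ∫⁻ p, wfun ((γ - σ) / 2 - 1) (γ + σ - 2) p * gfun ((γ - σ) / 2) v p ∂qmeas
      ≤ ENNReal.ofReal (cUp γ σ * v ^ (γ + 1 / 2)) := by
  set α : ℝ := (γ - σ) / 2 - 1 with hα
  set β : ℝ := γ + σ - 2 with hβ
  set ε : ℝ := (γ - σ) / 2 with hε
  have hε0 : 0 < ε := by rw [hε]; linarith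
  rcases hv.eq_or_lt with h0 | hv
  · subst h0
    have : ∀ p, wfun α β p * gfun ε 0 p = 0 := by
      intro p; unfold gfun; simp
    simp_rw [this]; simp
  have hmeas : Measurable (fun p => wfun α β p * gfun ε v p) := by
    apply (wfun_meas α β).mul
    exact (gfun_meas ε).comp (measurable_const.prodMk measurable_id)
  unfold qmeas
  rw [lintegral_prod_symm _ hmeas.aemeasurable]
  have hinner : ∀ lam : ℝ, 0 < lam →
      ∫⁻ t in Ioi 0, wfun α β (t, lam) * gfun ε v (t, lam)
      ≤ (Iic (Real.sqrt v)).indicator (fun lam => ENNReal.ofReal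
        (cEps ε / ((γ - σ) / 4) * v ^ (1 + γ - σ) * lam ^ (2 * σ - 2))) lam := by
    intro lam hl
    by_cases hlv : lam ≤ Real.sqrt v
    · rw [indicator_of_mem (show lam ∈ Iic (Real.sqrt v) from hlv)]
      have hvl : 0 ≤ (v / lam) ^ 2 := sq_nonneg _
      have hnn : 0 ≤ cEps ε * v ^ (1 + ε) * lam ^ (β - ε) :=
        mul_nonneg (mul_nonneg (cEps_nonneg ε) (Real.rpow_nonneg hv.le _))
          (Real.rpow_nonneg hl.le _)
      calc ∫⁻ t in Ioi 0, wfun α β (t, lam) * gfun ε v (t, lam)
          ≤ ∫⁻ t in Ioi 0, (Ioc 0 ((v / lam) ^ 2)).indicator (fun t =>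
            ENNReal.ofReal (cEps ε * v ^ (1 + ε) * lam ^ (β - ε)) *
              ENNReal.ofReal (t ^ (α - ε / 2))) t := by
            apply setLIntegral_mono' measurableSet_Ioi
            intro t ht
            have ht' : 0 < t := ht
            have h1 := gfun_le hε0 hv ht' hl
            by_cases h2 : t ≤ (v / lam) ^ 2
            · rw [if_pos ⟨hlv, h2⟩] at h1
              rw [indicator_of_mem (show t ∈ Ioc 0 ((v / lam) ^ 2) from ⟨ht, h2⟩)]
              calc wfun α β (t, lam) * gfun ε v (t, lam)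
                  ≤ wfun α β (t, lam) * (ENNReal.ofReal (cEps ε * v ^ (1 + ε) * lam ^ (-ε)) *
                    ENNReal.ofReal (t ^ (-(ε / 2)))) := by gcongr
                _ = _ := by
                    unfold wfun
                    simp only
                    rw [← ENNReal.ofReal_mul (mul_nonneg (mul_nonneg (cEps_nonneg ε)
                        (Real.rpow_nonneg hv.le _)) (Real.rpow_nonneg hl.le _)),
                      ← ENNReal.ofReal_mul (by positivity), ← ENNReal.ofReal_mul hnn]
                    congr 1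
                    rw [show α - ε / 2 = α + (-(ε / 2)) by ring, Real.rpow_add ht',
                      show β - ε = β + (-ε) by ring, Real.rpow_add hl]
                    ring
            · rw [if_neg (fun h => h2 h.2)] at h1
              have h3 : gfun ε v (t, lam) = 0 := le_antisymm h1 zero_le
              rw [h3, mul_zero]; exact zero_le
        _ = ENNReal.ofReal (cEps ε * v ^ (1 + ε) * lam ^ (β - ε)) *
            ∫⁻ t in Ioc 0 ((v / lam) ^ 2), ENNReal.ofReal (t ^ (α - ε / 2)) := by
            rw [lintegral_indicator measurableSet_Ioc, Measure.restrict_restrict measurableSet_Ioc,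
              inter_eq_left.mpr (fun x hx => hx.1), lintegral_const_mul' _ _ ENNReal.ofReal_ne_top]
        _ = _ := by
            have hα1 : -1 < α - ε / 2 := by rw [hα, hε]; linarith
            rw [lintegral_rpow_Ioc hvl hα1, ← ENNReal.ofReal_mul hnn]
            congr 1
            have e1 : α - ε / 2 + 1 = (γ - σ) / 4 := by rw [hα, hε]; ring
            rw [e1]
            have e2 : ((v / lam) ^ 2) ^ ((γ - σ) / 4) = v ^ ε * lam ^ (-ε) := by
              rw [← Real.rpow_natCast, ← Real.rpow_mul (by positivity), Real.div_rpow hv.le hl.le,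
                Real.rpow_neg hl.le, div_eq_mul_inv]
              congr 2
              · rw [hε]; push_cast; ring
              · congr 1; rw [hε]; push_cast; ring
            rw [e2]
            have e3 : v ^ (1 + γ - σ) = v ^ (1 + ε) * v ^ ε := by
              rw [← Real.rpow_add hv]; congr 1; rw [hε]; ring
            have e4 : lam ^ (2 * σ - 2) = lam ^ (β - ε) * lam ^ (-ε) := by
              rw [← Real.rpow_add hl]; congr 1; rw [hβ, hε]; ring
            rw [e3, e4]; ring
    · rw [indicator_of_notMem (show lam ∉ Iic (Real.sqrt v) from hlv)]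
      rw [nonpos_iff_eq_zero, lintegral_eq_zero_iff' (by
        apply Measurable.aemeasurable
        exact hmeas.comp (measurable_id.prodMk measurable_const))]
      filter_upwards [ae_restrict_mem measurableSet_Ioi] with t ht
      have h1 := gfun_le hε0 hv (show 0 < t from ht) hl
      rw [if_neg (fun h => hlv h.1)] at h1
      have h3 : gfun ε v (t, lam) = 0 := le_antisymm h1 zero_le
      simp [h3]
  calc ∫⁻ lam in Ioi 0, ∫⁻ t in Ioi 0, wfun α β (t, lam) * gfun ε v (t, lam)
      ≤ ∫⁻ lam in Ioi 0, (Iic (Real.sqrt v)).indicator (fun lam => ENNReal.ofReal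
        (cEps ε / ((γ - σ) / 4) * v ^ (1 + γ - σ) * lam ^ (2 * σ - 2))) lam :=
        setLIntegral_mono' measurableSet_Ioi (fun lam hl => hinner lam hl)
    _ = ∫⁻ lam in Ioc 0 (Real.sqrt v), ENNReal.ofReal
        (cEps ε / ((γ - σ) / 4) * v ^ (1 + γ - σ)) * ENNReal.ofReal (lam ^ (2 * σ - 2)) := by
        rw [lintegral_indicator measurableSet_Iic, Measure.restrict_restrict measurableSet_Iic]
        have hset : Iic (Real.sqrt v) ∩ Ioi 0 = Ioc 0 (Real.sqrt v) := by
          ext x; simp [and_comm]
        rw [hset]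
        congr 1
        ext lam
        rw [← ENNReal.ofReal_mul]
        apply mul_nonneg _ (Real.rpow_nonneg hv.le _)
        exact div_nonneg (cEps_nonneg ε) (by linarith)
    _ = _ := by
        rw [lintegral_const_mul' _ _ ENNReal.ofReal_ne_top,
          lintegral_rpow_Ioc (Real.sqrt_nonneg v) (by linarith), ← ENNReal.ofReal_mul]
        · congr 1
          have e1 : 2 * σ - 2 + 1 = 2 * σ - 1 := by ring
          rw [e1, Real.sqrt_eq_rpow, ← Real.rpow_mul hv.le]
          have e2 : v ^ (γ + 1 / 2) = v ^ (1 + γ - σ) * v ^ (1 / 2 * (2 * σ - 1)) := by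
            rw [← Real.rpow_add hv]; congr 1; ring
          rw [e2, cUp]; ring
        · apply mul_nonneg _ (Real.rpow_nonneg hv.le _)
          exact div_nonneg (cEps_nonneg ε) (by linarith)

end Pool.Agent.Helper98.ComplexLT
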